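import Pool.Agent.Lib.MP_e6820d_co.GenPos

/-!
Five points in general position in a three dimensional flat (MP_e6820d_co).
-/

namespace FourCP

open Module

variable {V : Type*} [AddCommGroup V] [Module ℝ V] [DecidableEq V]

/-- The affine dependency of five points in general position in dimension three. -/
theorem dep5 {A : Finset V} (hA : A.card = 5) (G4 : Gen4 A) (h3 : finrank ℝ (dirs A) ≤ 3) :
    ∃ c : V → ℝ, (∀ x ∈ A, c x ≠ 0) ∧ ∑ x ∈ A, c x = 0 ∧
      ∀ (g : Dual ℝ V) (u : ℝ), ∑ x ∈ A, c x * (g x - u) = 0 := by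
  have hdep : ¬ AffineIndependent ℝ (fun x : A => (x : V)) := by
    rw [affineIndependent_iff_finrank_vectorSpan_eq ℝ (fun x : A => (x : V)) (n := 4)
      (by simp [hA])]
    have h4 : Set.range (fun x : A => (x : V)) = (A : Set V) := by ext; simp
    rw [h4]
    intro h5
    have h6 : finrank ℝ (dirs A) = 4 := h5
    omega
  obtain ⟨c, hc1, hc2, x1, hx1, hcx1⟩ := exists_nontrivial_relation_sum_zero_of_not_affine_ind hdep
  refine ⟨c, ?_, hc2, ?_⟩
  · intro x hx hcx
    have hX4 : (A.erase x).card = 4 := by rw [Finset.card_erase_of_mem hx, hA]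
    have hind : AffineIndependent ℝ (fun y : (A.erase x : Finset V) => (y : V)) := by
      rw [affineIndependent_iff_finrank_vectorSpan_eq ℝ _ (n := 3) (by simp [hX4])]
      have h4 : Set.range (fun y : (A.erase x : Finset V) => (y : V)) = ((A.erase x : Finset V) :
        Set V) := by
        ext z
        exact ⟨by rintro ⟨y, rfl⟩; exact y.2, fun h => ⟨⟨z, h⟩, rfl⟩⟩
      rw [h4]
      exact G4 _ (Finset.erase_subset _ _) hX4
    rw [affineIndependent_iff] at hind
    have h7 := hind Finset.univ (fun y => c (y : V)) (by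
      have h8 : ∑ y : (A.erase x : Finset V), c (y : V) = ∑ y ∈ A.erase x, c y :=
        Finset.sum_coe_sort (A.erase x) c
      rw [h8]
      have h9 := Finset.add_sum_erase A c hx
      rw [hcx, zero_add] at h9
      rw [h9, hc2]) (by
      have h8 : ∑ y : (A.erase x : Finset V), c (y : V) • (y : V) = ∑ y ∈ A.erase x, c y • y :=
        Finset.sum_coe_sort (A.erase x) (fun y => c y • y)
      rw [h8]
      have h9 := Finset.add_sum_erase A (fun y => c y • y) hx
      rw [hcx, zero_smul, zero_add] at h9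
      rw [h9, hc1])
    apply hcx1
    by_cases h10 : x1 = x
    · rw [h10, hcx]
    · exact h7 ⟨x1, Finset.mem_erase.2 ⟨h10, hx1⟩⟩ (Finset.mem_univ _)
  · intro g u
    have h4 : ∑ x ∈ A, c x * (g x - u) = g (∑ x ∈ A, c x • x) - u * ∑ x ∈ A, c x := by
      rw [map_sum, Finset.mul_sum, ← Finset.sum_sub_distrib]
      refine Finset.sum_congr rfl fun x _ => ?_
      rw [map_smul, smul_eq_mul]
      ring
    rw [h4, hc1, hc2, map_zero, mul_zero, sub_zero]

/-- The plane through the other three points: the values at the two points are linked by the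
dependency. -/
private lemma pair5 {A : Finset V} (hA : A.card = 5) (G4 : Gen4 A)
    {c : V → ℝ} (hc0 : ∀ x ∈ A, c x ≠ 0)
    (hc : ∀ (g : Dual ℝ V) (u : ℝ), ∑ x ∈ A, c x * (g x - u) = 0) {x y : V} (hx : x ∈ A)
    (hy : y ∈ A) (hxy : x ≠ y) :
    ∃ (g : Dual ℝ V) (u : ℝ), (∀ z ∈ A, z ≠ x → z ≠ y → g z = u) ∧ u < g x ∧
      c x * (g x - u) + c y * (g y - u) = 0 := by
  have hBc : (A \ {x, y}).card = 3 := by
    rw [Finset.card_sdiff_of_subset (by
      intro z hz
      rw [Finset.mem_insert, Finset.mem_singleton] at hz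
      rcases hz with rfl | rfl
      · exact hx
      · exact hy), hA, Finset.card_pair hxy]
  have hBne : (A \ {x, y}).Nonempty := Finset.card_pos.1 (by omega)
  have h2 : finrank ℝ (dirs (A \ {x, y})) = 2 := by
    have := G4.finrank_eq (by omega) (Finset.sdiff_subset : A \ {x, y} ⊆ A) (by omega) hBne
    omega
  have h3 := G4.three_le (subset_refl A) (by omega)
  have hle : dirs (A \ {x, y}) ≤ dirs A := dirs_mono Finset.sdiff_subset
  obtain ⟨w, hwA, hwB⟩ : ∃ w ∈ dirs A, w ∉ dirs (A \ {x, y}) := by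
    by_contra hcon
    push Not at hcon
    have h4 : dirs A ≤ dirs (A \ {x, y}) := hcon
    have h5 := Submodule.finrank_mono h4
    omega
  obtain ⟨g, hgw, hgB⟩ := Submodule.exists_le_ker_of_notMem hwB
  obtain ⟨b, hb⟩ := hBne
  have hconst : ∀ z ∈ A, z ≠ x → z ≠ y → g z = g b := by
    intro z hz h4 h5
    refine eq_of_dirs_le_ker hgB ?_ hb
    rw [Finset.mem_sdiff, Finset.mem_insert, Finset.mem_singleton]
    exact ⟨hz, fun h6 => h6.elim h4 h5⟩
  have hrel : c x * (g x - g b) + c y * (g y - g b) = 0 := by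
    have h4 := hc g (g b)
    rw [← Finset.add_sum_erase A _ hx, ← Finset.add_sum_erase (A.erase x) _
      (Finset.mem_erase.2 ⟨hxy.symm, hy⟩), Finset.sum_eq_zero (s := (A.erase x).erase y)] at h4
    · linarith
    · intro z hz
      rw [Finset.mem_erase, Finset.mem_erase] at hz
      rw [hconst z hz.2.2 hz.2.1 hz.1, sub_self, mul_zero]
  have hne : g x ≠ g b := by
    intro h4
    rw [h4, sub_self, mul_zero, zero_add] at hrel
    rcases mul_eq_zero.1 hrel with h5 | h5
    · exact hc0 y hy h5
    · have h6 : dirs A ≤ LinearMap.ker g := by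
        refine dirs_le_ker (t := g b) fun z hz => ?_
        by_cases h7 : z = x
        · rw [h7, h4]
        · by_cases h8 : z = y
          · rw [h8]; linarith
          · exact hconst z hz h7 h8
      exact hgw (h6 hwA)
  rcases lt_or_gt_of_ne hne with h4 | h4
  · refine ⟨-g, -(g b), fun z hz h5 h6 => ?_, ?_, ?_⟩
    · rw [LinearMap.neg_apply, hconst z hz h5 h6]
    · rw [LinearMap.neg_apply]
      linarith
    · rw [LinearMap.neg_apply, LinearMap.neg_apply]
      linarith
  · exact ⟨g, g b, hconst, h4, hrel⟩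

/-- A plane through three of the five points with the other two on one side, not parallel to the
line through these two. -/
theorem D5 {A : Finset V} (hA : A.card = 5) (G4 : Gen4 A) (h3 : finrank ℝ (dirs A) ≤ 3) :
    ∃ (g : Dual ℝ V) (u : ℝ), (zer A g u).card = 3 ∧ neg A g u = ∅ ∧
      ∃ x ∈ A, ∃ y ∈ A, u < g x ∧ u < g y ∧ g x ≠ g y := by
  classical
  obtain ⟨c, hc0, hcs, hc⟩ := dep5 hA G4 h3
  -- signs
  have hsplit : (A.filter (fun x => 0 < c x)).card + (A.filter (fun x => c x < 0)).card = 5 := by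
    have h4 : A.filter (fun x => ¬ 0 < c x) = A.filter (fun x => c x < 0) := by
      refine Finset.filter_congr fun x hx => ?_
      constructor
      · intro h5
        exact lt_of_le_of_ne (not_lt.1 h5) (hc0 x hx)
      · intro h5
        exact not_lt.2 h5.le
    rw [← h4, Finset.card_filter_add_card_filter_not, hA]
  have hsum : ∑ x ∈ A.filter (fun x => 0 < c x), c x + ∑ x ∈ A.filter (fun x => c x < 0), c x = 0 := by
    have h4 : A.filter (fun x => ¬ 0 < c x) = A.filter (fun x => c x < 0) := by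
      refine Finset.filter_congr fun x hx => ?_
      constructor
      · intro h5
        exact lt_of_le_of_ne (not_lt.1 h5) (hc0 x hx)
      · intro h5
        exact not_lt.2 h5.le
    rw [← h4, Finset.sum_filter_add_sum_filter_not, hcs]
  obtain ⟨x, hx, y, hy, hcx, hcy, hcxy⟩ : ∃ x ∈ A, ∃ y ∈ A, 0 < c x ∧ c y < 0 ∧ c x + c y ≠ 0 := by
    by_contra hcon
    push Not at hcon
    have hpne : (A.filter (fun x => 0 < c x)).Nonempty := by
      rw [Finset.nonempty_iff_ne_empty]
      intro h4
      rw [h4, Finset.sum_empty, zero_add] at hsum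
      rw [h4, Finset.card_empty, zero_add] at hsplit
      have h5 : (A.filter (fun x => c x < 0)).Nonempty := Finset.card_pos.1 (by omega)
      have h6 := Finset.sum_neg (fun x hx => (Finset.mem_filter.1 hx).2) h5
      linarith
    have hnne : (A.filter (fun x => c x < 0)).Nonempty := by
      rw [Finset.nonempty_iff_ne_empty]
      intro h4
      rw [h4, Finset.sum_empty, add_zero] at hsum
      have h6 := Finset.sum_pos (fun x hx => (Finset.mem_filter.1 hx).2) hpne
      linarith
    obtain ⟨x0, hx0⟩ := hpne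
    obtain ⟨y0, hy0⟩ := hnne
    rw [Finset.mem_filter] at hx0 hy0
    have e1 : ∑ x ∈ A.filter (fun x => 0 < c x), c x =
        (A.filter (fun x => 0 < c x)).card * (-(c y0)) := by
      rw [Finset.sum_congr rfl (g := fun _ => -(c y0)) (fun x hx => ?_), Finset.sum_const,
        nsmul_eq_mul]
      rw [Finset.mem_filter] at hx
      have := hcon x hx.1 y0 hy0.1 hx.2 hy0.2
      linarith
    have e2 : ∑ x ∈ A.filter (fun x => c x < 0), c x =
        (A.filter (fun x => c x < 0)).card * (c y0) := by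
      rw [Finset.sum_congr rfl (g := fun _ => c y0) (fun x hx => ?_), Finset.sum_const,
        nsmul_eq_mul]
      rw [Finset.mem_filter] at hx
      have h5 := hcon x0 hx0.1 x hx.1 hx0.2 hx.2
      have h6 := hcon x0 hx0.1 y0 hy0.1 hx0.2 hy0.2
      linarith
    rw [e1, e2] at hsum
    have h7 : ((A.filter (fun x => c x < 0)).card : ℝ) - (A.filter (fun x => 0 < c x)).card = 0 := by
      have h8 : (((A.filter (fun x => c x < 0)).card : ℝ) - (A.filter (fun x => 0 < c x)).card) *
          c y0 = 0 := by linarith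
      rcases mul_eq_zero.1 h8 with h9 | h9
      · exact h9
      · exact absurd h9 hy0.2.ne
    have h10 : ((A.filter (fun x => c x < 0)).card : ℝ) = (A.filter (fun x => 0 < c x)).card := by
      linarith
    have h11 : (A.filter (fun x => c x < 0)).card = (A.filter (fun x => 0 < c x)).card := by
      exact_mod_cast h10
    omega
  have hxy : x ≠ y := by
    rintro rfl
    linarith
  obtain ⟨g, u, hg, hgx, hrel⟩ := pair5 hA G4 hc0 hc hx hy hxy
  have hgy : u < g y := by
    by_contra h4
    push Not at h4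
    have h5 : 0 < c x * (g x - u) := mul_pos hcx (by linarith)
    have h6 : 0 ≤ c y * (g y - u) := mul_nonneg_of_nonpos_of_nonpos hcy.le (by linarith)
    linarith
  have hz : zer A g u = A \ {x, y} := by
    ext z
    rw [mem_zer, Finset.mem_sdiff, Finset.mem_insert, Finset.mem_singleton]
    constructor
    · rintro ⟨h4, h5⟩
      refine ⟨h4, ?_⟩
      rintro (rfl | rfl)
      · linarith
      · linarith
    · rintro ⟨h4, h5⟩
      push Not at h5
      exact ⟨h4, hg z h4 h5.1 h5.2⟩
  refine ⟨g, u, ?_, ?_, x, hx, y, hy, hgx, hgy, ?_⟩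
  · rw [hz, Finset.card_sdiff_of_subset (by
      intro z hz
      rw [Finset.mem_insert, Finset.mem_singleton] at hz
      rcases hz with rfl | rfl
      · exact hx
      · exact hy), hA, Finset.card_pair hxy]
  · rw [Finset.eq_empty_iff_forall_notMem]
    intro z hz
    rw [mem_neg] at hz
    by_cases h4 : z = x
    · rw [h4] at hz; linarith [hz.2]
    · by_cases h5 : z = y
      · rw [h5] at hz; linarith [hz.2]
      · have := hg z hz.1 h4 h5
        linarith [hz.2]
  · intro h4
    rw [← h4] at hrel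
    have h5 : (c x + c y) * (g x - u) = 0 := by linarith
    rcases mul_eq_zero.1 h5 with h6 | h6
    · exact hcxy h6
    · linarith

private lemma pair5' {A : Finset V} (hA : A.card = 5) (G4 : Gen4 A)
    {c : V → ℝ} (hc0 : ∀ x ∈ A, c x ≠ 0)
    (hc : ∀ (g : Dual ℝ V) (u : ℝ), ∑ x ∈ A, c x * (g x - u) = 0) {x y : V} (hx : x ∈ A)
    (hy : y ∈ A) (hxy : x ≠ y) (hs : 0 < c x * c y) :
    ∃ (g : Dual ℝ V) (u : ℝ), zer A g u = A \ {x, y} ∧ u < g x ∧ g y < u := by
  obtain ⟨g, u, hg, hgx, hrel⟩ := pair5 hA G4 hc0 hc hx hy hxy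
  have hgy : g y < u := by
    by_contra h4
    push Not at h4
    have h5 : 0 < c x ^ 2 * (g x - u) := mul_pos (by
      have := hc0 x hx
      positivity) (by linarith)
    have h6 : 0 ≤ (c x * c y) * (g y - u) := mul_nonneg hs.le (by linarith)
    have h7 : c x * (c x * (g x - u) + c y * (g y - u)) = 0 := by rw [hrel, mul_zero]
    nlinarith
  refine ⟨g, u, ?_, hgx, hgy⟩
  ext z
  rw [mem_zer, Finset.mem_sdiff, Finset.mem_insert, Finset.mem_singleton]
  constructor
  · rintro ⟨h4, h5⟩
    refine ⟨h4, ?_⟩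
    rintro (rfl | rfl)
    · linarith
    · linarith
  · rintro ⟨h4, h5⟩
    push Not at h5
    exact ⟨h4, hg z h4 h5.1 h5.2⟩

/-- Three points `x, y, z` such that the plane through the other three separates `x` from `y`,
and similarly for `x` and `z`. -/
theorem D5' {A : Finset V} (hA : A.card = 5) (G4 : Gen4 A) (h3 : finrank ℝ (dirs A) ≤ 3) :
    ∃ x ∈ A, ∃ y ∈ A, ∃ z ∈ A, x ≠ y ∧ x ≠ z ∧ y ≠ z ∧
      (∃ (g : Dual ℝ V) (u : ℝ), zer A g u = A \ {x, y} ∧ u < g x ∧ g y < u) ∧
      (∃ (g : Dual ℝ V) (u : ℝ), zer A g u = A \ {x, z} ∧ u < g x ∧ g z < u) := by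
  classical
  obtain ⟨c, hc0, hcs, hc⟩ := dep5 hA G4 h3
  have hsplit : (A.filter (fun x => 0 < c x)).card + (A.filter (fun x => c x < 0)).card = 5 := by
    have h4 : A.filter (fun x => ¬ 0 < c x) = A.filter (fun x => c x < 0) := by
      refine Finset.filter_congr fun x hx => ?_
      constructor
      · intro h5
        exact lt_of_le_of_ne (not_lt.1 h5) (hc0 x hx)
      · intro h5
        exact not_lt.2 h5.le
    rw [← h4, Finset.card_filter_add_card_filter_not, hA]
  obtain ⟨x, hx, y, hy, z, hz, hxy, hxz, hyz, s1, s2⟩ : ∃ x ∈ A, ∃ y ∈ A, ∃ z ∈ A,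
      x ≠ y ∧ x ≠ z ∧ y ≠ z ∧ 0 < c x * c y ∧ 0 < c x * c z := by
    by_cases h4 : 2 < (A.filter (fun x => 0 < c x)).card
    · obtain ⟨x, hx, y, hy, z, hz, h5, h6, h7⟩ := Finset.two_lt_card.1 h4
      rw [Finset.mem_filter] at hx hy hz
      exact ⟨x, hx.1, y, hy.1, z, hz.1, h5, h6, h7, mul_pos hx.2 hy.2, mul_pos hx.2 hz.2⟩
    · have h4' : 2 < (A.filter (fun x => c x < 0)).card := by omega
      obtain ⟨x, hx, y, hy, z, hz, h5, h6, h7⟩ := Finset.two_lt_card.1 h4'
      rw [Finset.mem_filter] at hx hy hz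
      exact ⟨x, hx.1, y, hy.1, z, hz.1, h5, h6, h7, mul_pos_of_neg_of_neg hx.2 hy.2,
        mul_pos_of_neg_of_neg hx.2 hz.2⟩
  exact ⟨x, hx, y, hy, z, hz, hxy, hxz, hyz, pair5' hA G4 hc0 hc hx hy hxy s1,
    pair5' hA G4 hc0 hc hx hz hxz s2⟩

end FourCP
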