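import Pool.Agent.Lib.MP_e6820d_co.GenPos

/-!
Six points in general position in a three dimensional flat (MP_e6820d_co).
-/

namespace FourCP

open Module

variable {V : Type*} [AddCommGroup V] [Module ℝ V] [DecidableEq V]

omit [DecidableEq V] in
/-- A functional constant on four points is constant on the whole three dimensional flat. -/
theorem D6_const {A : Finset V} (G4 : Gen4 A) (h3 : finrank ℝ (dirs A) ≤ 3) {X : Finset V}
    (hX : X ⊆ A) (hc : X.card = 4) {k : Dual ℝ V} {c : ℝ} (hk : ∀ x ∈ X, k x = c) :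
    ∀ y ∈ A, k y = c := by
  have h1 : dirs X = dirs A :=
    Submodule.eq_of_le_of_finrank_le (dirs_mono hX) (by rw [G4 X hX hc]; exact h3)
  have h2 : dirs A ≤ LinearMap.ker k := by
    rw [← h1]; exact dirs_le_ker hk
  have hne : X.Nonempty := by
    rw [← Finset.card_pos]; omega
  obtain ⟨x, hx⟩ := hne
  intro y hy
  rw [eq_of_dirs_le_ker h2 hy (hX hx)]
  exact hk x hx

omit [DecidableEq V] in
/-- Rotation of a supporting functional until the next point is hit. -/
theorem D6_rot {A : Finset V} {g : Dual ℝ V} {u : ℝ} (hg : ∀ x ∈ A, u ≤ g x) {h : Dual ℝ V}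
    {w : ℝ} (hz : ∀ x ∈ A, g x = u → h x = w) {x0 : V} (hx0 : x0 ∈ A) (hlt : h x0 < w) :
    ∃ s : ℝ, 0 < s ∧ (∀ x ∈ A, u + s * w ≤ (g + s • h) x) ∧
      ∃ x1 ∈ A, u < g x1 ∧ (g + s • h) x1 = u + s * w := by
  classical
  have hN : (A.filter (fun x => h x < w)).Nonempty := ⟨x0, Finset.mem_filter.2 ⟨hx0, hlt⟩⟩
  obtain ⟨x1, hx1, hmin⟩ := Finset.exists_min_image (A.filter (fun x => h x < w))
    (fun x => (g x - u) / (w - h x)) hN
  rw [Finset.mem_filter] at hx1
  have hpos : ∀ x ∈ A, h x < w → u < g x := by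
    intro x hx hxw
    rcases lt_or_eq_of_le (hg x hx) with h1 | h1
    · exact h1
    · exact absurd (hz x hx h1.symm) hxw.ne
  have hd1 : 0 < w - h x1 := by linarith [hx1.2]
  have hs : 0 < (g x1 - u) / (w - h x1) :=
    div_pos (by linarith [hpos x1 hx1.1 hx1.2]) hd1
  refine ⟨(g x1 - u) / (w - h x1), hs, ?_, x1, hx1.1, hpos x1 hx1.1 hx1.2, ?_⟩
  · intro x hx
    rw [LinearMap.add_apply, LinearMap.smul_apply, smul_eq_mul]
    by_cases hxw : h x < w
    · have h2 := hmin x (Finset.mem_filter.2 ⟨hx, hxw⟩)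
      have hd : 0 < w - h x := by linarith
      have h3 : (g x1 - u) / (w - h x1) * (w - h x) ≤ g x - u := by
        rw [← le_div_iff₀ hd]; exact h2
      nlinarith [h3]
    · have h4 : w ≤ h x := not_lt.1 hxw
      have h5 : 0 ≤ (g x1 - u) / (w - h x1) * (h x - w) := mul_nonneg hs.le (by linarith)
      nlinarith [hg x hx, h5]
  · rw [LinearMap.add_apply, LinearMap.smul_apply, smul_eq_mul]
    have h3 : (g x1 - u) / (w - h x1) * (w - h x1) = g x1 - u := div_mul_cancel₀ _ hd1.ne'
    linear_combination -h3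

/-- Supporting functionals with at least `k ≤ 3` zeros. -/
theorem D6_facet {A : Finset V} (hA : A.card = 6) (G4 : Gen4 A) (k : ℕ) (hk1 : 1 ≤ k) (hk : k ≤ 3) :
    ∃ (g : Dual ℝ V) (u : ℝ), (∀ x ∈ A, u ≤ g x) ∧ k ≤ (zer A g u).card ∧ ∃ y ∈ A, u < g y := by
  classical
  induction k, hk1 using Nat.le_induction with
  | base =>
    obtain ⟨X, hX, hc⟩ := Finset.exists_subset_card_eq (s := A) (n := 4) (by omega)
    have hne : X.Nonempty := by rw [← Finset.card_pos]; omega
    obtain ⟨x, hx⟩ := hne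
    obtain ⟨g, u0, h1, h2⟩ := G4.sep hX hc hx
    have hAne : A.Nonempty := ⟨x, hX hx⟩
    obtain ⟨m, hm, hmin⟩ := Finset.exists_min_image A g hAne
    refine ⟨g, g m, hmin, ?_, ?_⟩
    · rw [Nat.one_le_iff_ne_zero, Ne, Finset.card_eq_zero]
      intro h
      have : m ∈ zer A g (g m) := mem_zer.2 ⟨hm, rfl⟩
      rw [h] at this
      simp at this
    · have hne2 : (X.erase x).Nonempty := by
        rw [← Finset.card_pos, Finset.card_erase_of_mem hx]; omega
      obtain ⟨y, hy⟩ := hne2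
      have h3 := h1 y hy
      have h4 := hmin y (hX (Finset.mem_of_mem_erase hy))
      exact ⟨x, hX hx, by linarith⟩
  | succ k hk1 ih =>
    obtain ⟨g, u, hg, hz, y0, hy0, hy0u⟩ := ih (by omega)
    by_cases hlt : k + 1 ≤ (zer A g u).card
    · exact ⟨g, u, hg, hlt, y0, hy0, hy0u⟩
    have hZ : (zer A g u).card ≤ 2 := by omega
    have hsub : zer A g u ⊆ A := zer_subset
    have hrest : 2 ≤ (A \ zer A g u).card := by
      rw [Finset.card_sdiff_of_subset hsub]; omega
    obtain ⟨T, hT, hT2⟩ := Finset.exists_subset_card_eq hrest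
    obtain ⟨x, y, hxy, rfl⟩ := Finset.card_eq_two.1 hT2
    have hx : x ∈ A \ zer A g u := hT (by simp)
    have hy : y ∈ A \ zer A g u := hT (by simp)
    rw [Finset.mem_sdiff] at hx hy
    have hsub2 : zer A g u ∪ {x, y} ⊆ A := by
      intro z hz'
      rw [Finset.mem_union, Finset.mem_insert, Finset.mem_singleton] at hz'
      rcases hz' with h | rfl | rfl
      · exact hsub h
      · exact hx.1
      · exact hy.1
    have hc4 : (zer A g u ∪ {x, y}).card ≤ 4 := by
      calc (zer A g u ∪ {x, y}).card ≤ (zer A g u).card + ({x, y} : Finset V).card :=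
            Finset.card_union_le _ _
        _ ≤ 4 := by rw [hT2]; omega
    obtain ⟨X, hX1, hX2, hX4⟩ := Finset.exists_subsuperset_card_eq hsub2 hc4 (by omega)
    have hxX : x ∈ X := hX1 (by simp)
    have hyX : y ∈ X := hX1 (by simp)
    obtain ⟨h, w, hh1, hh2⟩ := G4.sep hX2 hX4 hxX
    have hzw : ∀ z ∈ A, g z = u → (-h) z = -w := by
      intro z hz1 hz2
      have hz3 : z ∈ zer A g u := mem_zer.2 ⟨hz1, hz2⟩
      have hz4 : z ∈ X.erase x := by
        refine Finset.mem_erase.2 ⟨?_, hX1 (Finset.mem_union_left _ hz3)⟩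
        rintro rfl
        exact hx.2 hz3
      rw [LinearMap.neg_apply, hh1 z hz4]
    obtain ⟨s, hs, hall, x1, hx1, hx1u, hx1z⟩ := D6_rot hg hzw (hX2 hxX)
      (by rw [LinearMap.neg_apply]; linarith)
    have hyu : u < g y := by
      rcases lt_or_eq_of_le (hg y hy.1) with h' | h'
      · exact h'
      · exact absurd (mem_zer.2 ⟨hy.1, h'.symm⟩) hy.2
    refine ⟨g + s • (-h), u + s * (-w), hall, ?_, y, hy.1, ?_⟩
    · have hins : insert x1 (zer A g u) ⊆ zer A (g + s • (-h)) (u + s * (-w)) := by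
        intro z hz'
        rcases Finset.mem_insert.1 hz' with rfl | hz'
        · exact mem_zer.2 ⟨hx1, hx1z⟩
        · rw [mem_zer] at hz' ⊢
          refine ⟨hz'.1, ?_⟩
          rw [LinearMap.add_apply, LinearMap.smul_apply, smul_eq_mul, hzw z hz'.1 hz'.2, hz'.2]
      have hnot : x1 ∉ zer A g u := by
        rw [mem_zer]
        rintro ⟨_, h'⟩
        linarith
      have := Finset.card_le_card hins
      rw [Finset.card_insert_of_notMem hnot] at this
      omega
    · have hyE : y ∈ X.erase x := Finset.mem_erase.2 ⟨hxy.symm, hyX⟩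
      rw [LinearMap.add_apply, LinearMap.smul_apply, smul_eq_mul, LinearMap.neg_apply, hh1 y hyE]
      linarith

omit [DecidableEq V] in
theorem D6_card_le {A : Finset V} (G4 : Gen4 A) (h3 : finrank ℝ (dirs A) ≤ 3) {g : Dual ℝ V}
    {u : ℝ} {y : V} (hy : y ∈ A) (hyu : u < g y) : (zer A g u).card ≤ 3 := by
  by_contra hlt
  obtain ⟨X, hX, hc⟩ := Finset.exists_subset_card_eq (s := zer A g u) (n := 4) (by omega)
  have := D6_const G4 h3 (hX.trans zer_subset) hc (k := g) (c := u)
    (fun x hx => (mem_zer.1 (hX hx)).2) y hy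
  linarith

/-- A facet plane on which the supporting functional is not constant on the other three points. -/
theorem D6 {A : Finset V} (hA : A.card = 6) (G4 : Gen4 A) (h3 : finrank ℝ (dirs A) ≤ 3) :
    ∃ (g : Dual ℝ V) (u : ℝ), (zer A g u).card = 3 ∧ neg A g u = ∅ ∧
      ∃ x ∈ A, ∃ y ∈ A, u < g x ∧ u < g y ∧ g x ≠ g y := by
  classical
  obtain ⟨g, u, hg, hz, y0, hy0, hy0u⟩ := D6_facet hA G4 3 (by norm_num) le_rfl
  have hz3 : (zer A g u).card = 3 := le_antisymm (D6_card_le G4 h3 hy0 hy0u) hz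
  have hneg : ∀ {g : Dual ℝ V} {u : ℝ}, (∀ x ∈ A, u ≤ g x) → neg A g u = ∅ := by
    intro g u hg
    rw [Finset.eq_empty_iff_forall_notMem]
    intro x hx
    rw [mem_neg] at hx
    linarith [hg x hx.1, hx.2]
  by_cases hcase : ∃ x ∈ A, ∃ y ∈ A, u < g x ∧ u < g y ∧ g x ≠ g y
  · exact ⟨g, u, hz3, hneg hg, hcase⟩
  push Not at hcase
  -- all the other points are on one level `w0`
  have hlev : ∀ x ∈ A, u < g x → g x = g y0 := fun x hx hxu => hcase x hx y0 hy0 hxu hy0u
  obtain ⟨a1, a2, a3, h12, h13, h23, hZ⟩ := Finset.card_eq_three.1 hz3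
  have ha1 : a1 ∈ A ∧ g a1 = u := mem_zer.1 (by rw [hZ]; simp)
  have ha2 : a2 ∈ A ∧ g a2 = u := mem_zer.1 (by rw [hZ]; simp)
  have ha3 : a3 ∈ A ∧ g a3 = u := mem_zer.1 (by rw [hZ]; simp)
  have hmemZ : ∀ x ∈ A, g x = u → x = a1 ∨ x = a2 ∨ x = a3 := by
    intro x hx hxu
    have : x ∈ zer A g u := mem_zer.2 ⟨hx, hxu⟩
    rw [hZ] at this
    simpa using this
  -- the set `X` of the other three points
  have hXc : (A \ zer A g u).card = 3 := by
    rw [Finset.card_sdiff_of_subset zer_subset]; omega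
  have hXmem : ∀ x, x ∈ A \ zer A g u ↔ x ∈ A ∧ u < g x := by
    intro x
    rw [Finset.mem_sdiff, mem_zer]
    constructor
    · rintro ⟨h1, h2⟩
      exact ⟨h1, lt_of_le_of_ne (hg x h1) (fun h => h2 ⟨h1, h.symm⟩)⟩
    · rintro ⟨h1, h2⟩
      exact ⟨h1, fun h => by linarith [h.2]⟩
  -- `g'` vanishing at `a1, a2, y0` and positive at `a3`
  have hy1 : y0 ≠ a1 := by rintro rfl; linarith [ha1.2]
  have hy2 : y0 ≠ a2 := by rintro rfl; linarith [ha2.2]
  have hy3 : y0 ≠ a3 := by rintro rfl; linarith [ha3.2]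
  have hXA : ({a1, a2, a3, y0} : Finset V) ⊆ A := by
    intro z hz'
    simp only [Finset.mem_insert, Finset.mem_singleton] at hz'
    rcases hz' with rfl | rfl | rfl | rfl
    · exact ha1.1
    · exact ha2.1
    · exact ha3.1
    · exact hy0
  have hX4 : ({a1, a2, a3, y0} : Finset V).card = 4 := by
    rw [Finset.card_insert_of_notMem, Finset.card_insert_of_notMem, Finset.card_insert_of_notMem,
      Finset.card_singleton]
    · simp [hy3.symm]
    · simp [h23, hy2.symm]
    · simp [h12, h13, hy1.symm]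
  obtain ⟨h, w, hh1, hh2⟩ := G4.sep hXA hX4 (x := a3) (by simp)
  have hha1 : h a1 = w := hh1 a1 (by simp [h13])
  have hha2 : h a2 = w := hh1 a2 (by simp [h23])
  -- the minimum of `h` on the other three points
  obtain ⟨m, hm, hmin⟩ := Finset.exists_min_image (A \ zer A g u) h
    (by rw [← Finset.card_pos]; omega)
  have hmA := (hXmem m).1 hm
  have hd : 0 < g y0 - u := by linarith
  set s : ℝ := (w - h m) / (g y0 - u) with hsdef
  have hsd : s * (g y0 - u) = w - h m := div_mul_cancel₀ _ hd.ne'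
  have happ : ∀ x, (h + s • g) x = h x + s * g x := fun x => by
    rw [LinearMap.add_apply, LinearMap.smul_apply, smul_eq_mul]
  have hvX : ∀ x ∈ A, u < g x → (h + s • g) x - (w + s * u) = h x - h m := by
    intro x hx hxu
    rw [happ, hlev x hx hxu]
    linear_combination hsd
  have hvZ : ∀ x ∈ A, g x = u → (h + s • g) x - (w + s * u) = h x - w := by
    intro x hx hxu
    rw [happ, hxu]; ring
  have hall : ∀ x ∈ A, w + s * u ≤ (h + s • g) x := by
    intro x hx
    rcases lt_or_eq_of_le (hg x hx) with h' | h'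
    · have h1 := hvX x hx h'
      have h2 := hmin x ((hXmem x).2 ⟨hx, h'⟩)
      linarith
    · have h1 := hvZ x hx h'.symm
      rcases hmemZ x hx h'.symm with rfl | rfl | rfl
      · rw [hha1] at h1; linarith
      · rw [hha2] at h1; linarith
      · linarith
  have ha3v : w + s * u < (h + s • g) a3 := by
    have h1 := hvZ a3 ha3.1 ha3.2
    linarith
  have hle3 : (zer A (h + s • g) (w + s * u)).card ≤ 3 := D6_card_le G4 h3 ha3.1 ha3v
  have hm1 : m ≠ a1 := by rintro rfl; linarith [ha1.2, hmA.2]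
  have hm2 : m ≠ a2 := by rintro rfl; linarith [ha2.2, hmA.2]
  have hsub3 : ({a1, a2, m} : Finset V) ⊆ zer A (h + s • g) (w + s * u) := by
    intro z hz'
    simp only [Finset.mem_insert, Finset.mem_singleton] at hz'
    rw [mem_zer]
    rcases hz' with rfl | rfl | rfl
    · refine ⟨ha1.1, ?_⟩
      have h1 := hvZ z ha1.1 ha1.2
      rw [hha1] at h1; linarith
    · refine ⟨ha2.1, ?_⟩
      have h1 := hvZ z ha2.1 ha2.2
      rw [hha2] at h1; linarith
    · refine ⟨hmA.1, ?_⟩
      have h1 := hvX z hmA.1 hmA.2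
      linarith
  have hc3 : ({a1, a2, m} : Finset V).card = 3 := by
    rw [Finset.card_insert_of_notMem, Finset.card_insert_of_notMem, Finset.card_singleton]
    · simp [hm2.symm]
    · simp [h12, hm1.symm]
  have hZ' : zer A (h + s • g) (w + s * u) = {a1, a2, m} :=
    (Finset.eq_of_subset_of_card_le hsub3 (by rw [hc3]; exact hle3)).symm
  refine ⟨h + s • g, w + s * u, by rw [hZ', hc3], hneg hall, ?_⟩
  -- the other two points of `X`
  have hE2 : ((A \ zer A g u).erase m).card = 2 := by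
    rw [Finset.card_erase_of_mem hm]; omega
  obtain ⟨x2, x3, h23', hE⟩ := Finset.card_eq_two.1 hE2
  have hx2 : x2 ≠ m ∧ x2 ∈ A \ zer A g u := Finset.mem_erase.1 (by rw [hE]; simp)
  have hx3 : x3 ≠ m ∧ x3 ∈ A \ zer A g u := Finset.mem_erase.1 (by rw [hE]; simp)
  have hx2A := (hXmem x2).1 hx2.2
  have hx3A := (hXmem x3).1 hx3.2
  have hpos' : ∀ x ∈ A, x ≠ m → u < g x → w + s * u < (h + s • g) x := by
    intro x hx hxm hxu
    refine lt_of_le_of_ne (hall x hx) ?_
    intro heq
    have : x ∈ zer A (h + s • g) (w + s * u) := mem_zer.2 ⟨hx, heq.symm⟩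
    rw [hZ'] at this
    simp only [Finset.mem_insert, Finset.mem_singleton] at this
    rcases this with rfl | rfl | rfl
    · linarith [ha1.2]
    · linarith [ha2.2]
    · exact hxm rfl
  refine ⟨x2, hx2A.1, x3, hx3A.1, hpos' x2 hx2A.1 hx2.1 hx2A.2, hpos' x3 hx3A.1 hx3.1 hx3A.2, ?_⟩
  intro heq
  -- coplanarity of `a1, a2, x2, x3`
  have hx2v := hvX x2 hx2A.1 hx2A.2
  have hx3v := hvX x3 hx3A.1 hx3A.2
  have hh23 : h x2 = h x3 := by linarith
  have n1 : x2 ≠ a1 := by rintro rfl; linarith [ha1.2, hx2A.2]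
  have n2 : x2 ≠ a2 := by rintro rfl; linarith [ha2.2, hx2A.2]
  have n3 : x3 ≠ a1 := by rintro rfl; linarith [ha1.2, hx3A.2]
  have n4 : x3 ≠ a2 := by rintro rfl; linarith [ha2.2, hx3A.2]
  have hYA : ({a1, a2, x2, x3} : Finset V) ⊆ A := by
    intro z hz'
    simp only [Finset.mem_insert, Finset.mem_singleton] at hz'
    rcases hz' with rfl | rfl | rfl | rfl
    · exact ha1.1
    · exact ha2.1
    · exact hx2A.1
    · exact hx3A.1
  have hY4 : ({a1, a2, x2, x3} : Finset V).card = 4 := by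
    rw [Finset.card_insert_of_notMem, Finset.card_insert_of_notMem, Finset.card_insert_of_notMem,
      Finset.card_singleton]
    · simp [h23']
    · simp [n2.symm, n4.symm]
    · simp [h12, n1.symm, n3.symm]
  set c : ℝ := (h x2 - w) / (g y0 - u) with hcdef
  have hcd : c * (g y0 - u) = h x2 - w := div_mul_cancel₀ _ hd.ne'
  have key := D6_const G4 h3 hYA hY4 (k := h - c • g) (c := w - c * u) (by
    intro z hz'
    rw [LinearMap.sub_apply, LinearMap.smul_apply, smul_eq_mul]
    simp only [Finset.mem_insert, Finset.mem_singleton] at hz'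
    rcases hz' with rfl | rfl | rfl | rfl
    · rw [hha1, ha1.2]
    · rw [hha2, ha2.2]
    · rw [hlev z hx2A.1 hx2A.2]; linear_combination -hcd
    · rw [hlev z hx3A.1 hx3A.2, ← hh23]; linear_combination -hcd) a3 ha3.1
  rw [LinearMap.sub_apply, LinearMap.smul_apply, smul_eq_mul, ha3.2] at key
  linarith

end FourCP
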