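import Pool.Agent.Lib.MP_e6820d_co.AlphaCore
import Pool.Agent.Lib.MP_e6820d_co.D5
import Pool.Agent.Lib.MP_e6820d_co.D6

/-!
Case alpha: the four points below the hyperplane are parallel to it (MP_e6820d_co).
-/

namespace FourCP

open Module

variable {V : Type*} [AddCommGroup V] [Module ℝ V]

theorem alpha (hV : finrank ℝ V = 4) {S : Finset V} (hS : S.card = 11) (G4 : Gen4 S)
    {f : Dual ℝ V} {t : ℝ} (hf : f ≠ 0) (hQ4 : (neg S f t).card = 4)
    (hQ : dirs (neg S f t) = LinearMap.ker f)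
    (hR0 : (pos S f t).Nonempty) (hR3 : (pos S f t).card ≤ 3) : HasGood S := by
  classical
  have hc := card_split S f t
  have h4S : 4 ≤ S.card := by omega
  have hRpos := hR0.card_pos
  have hA3 : finrank ℝ (dirs (zer S f t)) ≤ 3 := finrank_dirs_zer_le hV S hf t
  have GA : Gen4 (zer S f t) := G4.mono zer_subset
  have hcA := fun g u => card_split (zer S f t) g u
  -- the common end
  have key : ∀ (g : Dual ℝ V) (u : ℝ), (zer (zer S f t) g u).card = 3 →
      neg (zer S f t) g u = ∅ → (∃ x ∈ zer S f t, ∃ y ∈ zer S f t, u < g x ∧ u < g y ∧ g x ≠ g y) →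
      HasGood S := by
    intro g u h3 hneg hxy
    obtain ⟨x, hx, y, hy, hux, huy, hne⟩ := hxy
    have hc2 := hcA g u
    rw [hneg, Finset.card_empty] at hc2
    have hxp : x ∈ pos (zer S f t) g u := mem_pos.2 ⟨hx, hux⟩
    have hyp : y ∈ pos (zer S f t) g u := mem_pos.2 ⟨hy, huy⟩
    have h4 : (pos S f t ∪ pos (zer S f t) g u).card ≤ 4 := by
      refine (Finset.card_union_le _ _).trans ?_
      omega
    refine alphaCore hV G4 h4S hf hQ hR0 hneg h3 ⟨x, hxp⟩ h4 (x - y) ?_ ?_ ?_
    · exact sub_mem_dirs (Finset.mem_union_right _ hxp) (Finset.mem_union_right _ hyp)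
    · rw [map_sub, (mem_zer.1 hx).2, (mem_zer.1 hy).2, sub_self]
    · intro hmem
      have h1 : dirs (zer (zer S f t) g u) ≤ LinearMap.ker g :=
        dirs_le_ker (t := u) (fun z hz => (mem_zer.1 hz).2)
      have h2 := h1 hmem
      rw [LinearMap.mem_ker, map_sub] at h2
      exact hne (by linarith)
  have hcases : (pos S f t).card = 3 ∨ (pos S f t).card = 2 ∨ (pos S f t).card = 1 := by omega
  rcases hcases with h | h | h
  · exact alpha3 hV G4 hf hQ h (by omega)
  · obtain ⟨g, u, h3, hneg, hxy⟩ := D5 (A := zer S f t) (by omega) GA hA3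
    exact key g u h3 hneg hxy
  · obtain ⟨g, u, h3, hneg, hxy⟩ := D6 (A := zer S f t) (by omega) GA hA3
    exact key g u h3 hneg hxy

end FourCP
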