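import Pool.Agent.Lib.MP_e6820d_co.Basics

/-!
Perturbing and swapping splits (MP_e6820d_co).
-/

namespace FourCP

open Module

variable {V : Type*} [AddCommGroup V] [Module ℝ V] [DecidableEq V]

/-- A small positive number, small against finitely many positive ones. -/
theorem exists_small (S : Finset V) (p q : V → ℝ) :
    ∃ ε : ℝ, 0 < ε ∧ ∀ x ∈ S, p x ≠ 0 → ε * |q x| < |p x| := by
  classical
  induction S using Finset.induction_on with
  | empty => exact ⟨1, one_pos, by simp⟩
  | insert a S _ ih =>
    obtain ⟨ε, hε, h⟩ := ih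
    by_cases ha : p a = 0
    · refine ⟨ε, hε, fun x hx hp => ?_⟩
      rcases Finset.mem_insert.1 hx with rfl | hx
      · exact absurd ha hp
      · exact h x hx hp
    · have h1 : 0 < |p a| := abs_pos.2 ha
      have h2 : 0 < |q a| + 1 := by positivity
      refine ⟨min ε (|p a| / (|q a| + 1)), lt_min hε (div_pos h1 h2), fun x hx hp => ?_⟩
      rcases Finset.mem_insert.1 hx with rfl | hx
      · calc min ε (|p x| / (|q x| + 1)) * |q x| ≤ |p x| / (|q x| + 1) * |q x| :=
            mul_le_mul_of_nonneg_right (min_le_right _ _) (abs_nonneg _)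
          _ < |p x| / (|q x| + 1) * (|q x| + 1) := by
            apply mul_lt_mul_of_pos_left (by linarith)
            exact div_pos h1 h2
          _ = |p x| := by field_simp
      · exact lt_of_le_of_lt (mul_le_mul_of_nonneg_right (min_le_left _ _) (abs_nonneg _))
          (h x hx hp)

/-- `(f + ε g, t + ε u)` for a small `ε > 0`. -/
theorem perturb (S : Finset V) (f g : Dual ℝ V) (t u : ℝ) :
    ∃ (f' : Dual ℝ V) (t' : ℝ), zer S f' t' = zer (zer S f t) g u ∧
      pos S f' t' = pos S f t ∪ pos (zer S f t) g u ∧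
      neg S f' t' = neg S f t ∪ neg (zer S f t) g u := by
  obtain ⟨ε, hε, h⟩ := exists_small S (fun x => f x - t) (fun x => g x - u)
  refine ⟨f + ε • g, t + ε * u, ?_, ?_, ?_⟩
  · ext x
    simp only [mem_zer, LinearMap.add_apply, LinearMap.smul_apply, smul_eq_mul]
    constructor
    · rintro ⟨hx, hx2⟩
      by_cases hp : f x - t = 0
      · refine ⟨⟨hx, by linarith⟩, ?_⟩
        have h3 : ε * (g x - u) = 0 := by linarith
        rcases mul_eq_zero.1 h3 with h4 | h4
        · exact absurd h4 hε.ne'
        · linarith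
      · exfalso
        have h1 : ε * |g x - u| < |f x - t| := h x hx hp
        have h2 : f x - t = - (ε * (g x - u)) := by linarith
        have h3 : |f x - t| = ε * |g x - u| := by
          rw [h2, abs_neg, abs_mul, abs_of_pos hε]
        rw [h3] at h1
        exact lt_irrefl _ h1
    · rintro ⟨⟨hx, h1⟩, h2⟩
      exact ⟨hx, by rw [h1, h2]⟩
  · ext x
    simp only [mem_pos, mem_zer, Finset.mem_union, LinearMap.add_apply, LinearMap.smul_apply,
      smul_eq_mul]
    constructor
    · rintro ⟨hx, hx2⟩
      rcases lt_trichotomy (f x) t with h0 | h0 | h0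
      · exfalso
        have h1 : ε * |g x - u| < |f x - t| := h x hx (by linarith : f x - t ≠ 0)
        rw [abs_of_neg (by linarith : f x - t < 0)] at h1
        have h2 : ε * (g x - u) ≤ ε * |g x - u| :=
          mul_le_mul_of_nonneg_left (le_abs_self _) hε.le
        nlinarith
      · right
        refine ⟨⟨hx, h0⟩, ?_⟩
        have h3 : 0 < ε * (g x - u) := by rw [h0] at hx2; nlinarith
        have := (mul_pos_iff_of_pos_left hε).1 h3
        linarith
      · left; exact ⟨hx, h0⟩
    · rintro (⟨hx, h0⟩ | ⟨⟨hx, h0⟩, h1⟩)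
      · refine ⟨hx, ?_⟩
        have h1 : ε * |g x - u| < |f x - t| := h x hx (by linarith : f x - t ≠ 0)
        rw [abs_of_pos (by linarith : 0 < f x - t)] at h1
        have h2 : - (ε * |g x - u|) ≤ ε * (g x - u) := by
          have := neg_abs_le (g x - u)
          nlinarith
        nlinarith
      · refine ⟨hx, ?_⟩
        rw [h0]
        have := mul_lt_mul_of_pos_left h1 hε
        linarith
  · ext x
    simp only [mem_neg, mem_zer, Finset.mem_union, LinearMap.add_apply, LinearMap.smul_apply,
      smul_eq_mul]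
    constructor
    · rintro ⟨hx, hx2⟩
      rcases lt_trichotomy (f x) t with h0 | h0 | h0
      · left; exact ⟨hx, h0⟩
      · right
        refine ⟨⟨hx, h0⟩, ?_⟩
        have h3 : 0 < ε * (u - g x) := by rw [h0] at hx2; nlinarith
        have := (mul_pos_iff_of_pos_left hε).1 h3
        linarith
      · exfalso
        have h1 : ε * |g x - u| < |f x - t| := h x hx (by linarith : f x - t ≠ 0)
        rw [abs_of_pos (by linarith : 0 < f x - t)] at h1
        have h2 : - (ε * |g x - u|) ≤ ε * (g x - u) := by
          have := neg_abs_le (g x - u)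
          nlinarith
        nlinarith
    · rintro (⟨hx, h0⟩ | ⟨⟨hx, h0⟩, h1⟩)
      · refine ⟨hx, ?_⟩
        have h1 : ε * |g x - u| < |f x - t| := h x hx (by linarith : f x - t ≠ 0)
        rw [abs_of_neg (by linarith : f x - t < 0)] at h1
        have h2 : ε * (g x - u) ≤ ε * |g x - u| :=
          mul_le_mul_of_nonneg_left (le_abs_self _) hε.le
        nlinarith
      · refine ⟨hx, ?_⟩
        rw [h0]
        have := mul_lt_mul_of_pos_left h1 hε
        linarith

/-- A split refined by a second functional on its zero set. -/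
theorem split_perturb (S : Finset V) (f g : Dual ℝ V) (t u : ℝ) :
    Split S (zer (zer S f t) g u) (pos S f t ∪ pos (zer S f t) g u)
      (neg S f t ∪ neg (zer S f t) g u) := by
  obtain ⟨f', t', h1, h2, h3⟩ := perturb S f g t u
  exact ⟨f', t', h1.symm, h2.symm, h3.symm⟩

theorem split_self (S : Finset V) (f : Dual ℝ V) (t : ℝ) :
    Split S (zer S f t) (pos S f t) (neg S f t) := ⟨f, t, rfl, rfl, rfl⟩

theorem zer_neg (S : Finset V) (f : Dual ℝ V) (t : ℝ) : zer S (-f) (-t) = zer S f t := by
  ext x
  simp only [mem_zer, LinearMap.neg_apply, neg_inj]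

theorem pos_neg (S : Finset V) (f : Dual ℝ V) (t : ℝ) : pos S (-f) (-t) = neg S f t := by
  ext x
  simp only [mem_pos, mem_neg, LinearMap.neg_apply, neg_lt_neg_iff]

theorem neg_neg' (S : Finset V) (f : Dual ℝ V) (t : ℝ) : neg S (-f) (-t) = pos S f t := by
  ext x
  simp only [mem_pos, mem_neg, LinearMap.neg_apply, neg_lt_neg_iff]

theorem Split.swap {S A R Q : Finset V} (h : Split S A R Q) : Split S A Q R := by
  obtain ⟨f, t, rfl, rfl, rfl⟩ := h
  exact ⟨-f, -t, (zer_neg S f t).symm, (pos_neg S f t).symm, (neg_neg' S f t).symm⟩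

theorem GoodT.swap {A R Q : Finset V} (h : GoodT A R Q) : GoodT A Q R := by
  refine ⟨h.a3, h.q3, h.r3, ?_, ?_, h.aq, h.ar⟩
  · have h1 : dirs A ⊓ dirs Q ⊓ dirs R = dirs A ⊓ dirs R ⊓ dirs Q := inf_right_comm _ _ _
    rw [h1]
    exact h.arq
  · intro h1
    rw [h1]
    exact h.rq h1.symm

end FourCP
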