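import Pool.Agent.Lib.MP_e6820d_co.GenPos
import Pool.Agent.Lib.MP_e6820d_co.Perturb

/-!
The core of case alpha, and its instance with three points on the small side (MP_e6820d_co).
-/

namespace FourCP

open Module

variable {V : Type*} [AddCommGroup V] [Module ℝ V] [DecidableEq V]

/-- `A = zer S f t`, `A' = zer A g u` (three points), `X = pos A g u`, `R = pos S f t`,
`Q = neg S f t` with `dirs Q = ker f`. The triple `(A', R ∪ X, Q)` is good. -/
theorem alphaCore (hV : finrank ℝ V = 4) {S : Finset V} (G4 : Gen4 S) (h4S : 4 ≤ S.card)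
    {f g : Dual ℝ V} {t u : ℝ} (hf : f ≠ 0)
    (hQ : dirs (neg S f t) = LinearMap.ker f) (hR0 : (pos S f t).Nonempty)
    (hneg : neg (zer S f t) g u = ∅) (h3 : (zer (zer S f t) g u).card = 3)
    (hX : (pos (zer S f t) g u).Nonempty)
    (h4 : (pos S f t ∪ pos (zer S f t) g u).card ≤ 4)
    (v : V) (hv1 : v ∈ dirs (pos S f t ∪ pos (zer S f t) g u)) (hv2 : f v = 0)
    (hv3 : v ∉ dirs (zer (zer S f t) g u)) : HasGood S := by
  have hfin : FiniteDimensional ℝ V := FiniteDimensional.of_finrank_pos (by omega)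
  have hsp := split_perturb S f g t u
  rw [hneg, Finset.union_empty] at hsp
  refine ⟨_, _, _, hsp, ?_⟩
  have hA2 : finrank ℝ (dirs (zer (zer S f t) g u)) ≤ 2 := by
    have h5 := finrank_dirs_le_card_sub_one (zer (zer S f t) g u)
    omega
  have hR3 : finrank ℝ (dirs (pos S f t ∪ pos (zer S f t) g u)) ≤ 3 := by
    have h5 := finrank_dirs_le_card_sub_one (pos S f t ∪ pos (zer S f t) g u)
    omega
  have hK3 : finrank ℝ (LinearMap.ker f) = 3 := finrank_ker_eq hV hf
  obtain ⟨r, hr⟩ := hR0
  obtain ⟨x, hx⟩ := hX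
  have hrx : r - x ∈ dirs (pos S f t ∪ pos (zer S f t) g u) :=
    sub_mem_dirs (Finset.mem_union_left _ hr) (Finset.mem_union_right _ hx)
  have hfrx : f (r - x) ≠ 0 := by
    have h5 := (mem_pos.1 hr).2
    have h6 := (mem_zer.1 (mem_pos.1 hx).1).2
    rw [map_sub]
    intro h7
    linarith
  refine ⟨by omega, hR3, by rw [hQ, hK3], ?_, ?_, fun _ => hA2, fun _ => hA2⟩
  · by_contra hcon
    push Not at hcon
    have hle : dirs (zer (zer S f t) g u) ⊓ dirs (pos S f t ∪ pos (zer S f t) g u) ⊓
        dirs (neg S f t) ≤ dirs (zer (zer S f t) g u) := inf_le_left.trans inf_le_left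
    have heq := Submodule.eq_of_le_of_finrank_le hle (by omega)
    have hAR : dirs (zer (zer S f t) g u) ≤ dirs (pos S f t ∪ pos (zer S f t) g u) := by
      rw [← heq]
      exact inf_le_left.trans inf_le_right
    have hAK : dirs (zer (zer S f t) g u) ≤ LinearMap.ker f :=
      dirs_le_ker (t := t) fun y hy => (mem_zer.1 (mem_zer.1 hy).1).2
    have hA2' : 2 ≤ finrank ℝ (dirs (zer (zer S f t) g u)) := by
      have := Submodule.finrank_mono hle
      omega
    -- the sum with the line of `v` is the kernel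
    have hlt : dirs (zer (zer S f t) g u) <
        dirs (zer (zer S f t) g u) ⊔ Submodule.span ℝ {v} := by
      refine lt_of_le_of_ne le_sup_left fun h5 => hv3 ?_
      rw [h5]
      exact Submodule.mem_sup_right (Submodule.mem_span_singleton_self v)
    have h6 := Submodule.finrank_lt_finrank_of_lt hlt
    have hKle : dirs (zer (zer S f t) g u) ⊔ Submodule.span ℝ {v} ≤ LinearMap.ker f := by
      refine sup_le hAK ?_
      rw [Submodule.span_le, Set.singleton_subset_iff]
      exact hv2
    have h7 := Submodule.eq_of_le_of_finrank_le hKle (by omega)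
    have hKR : LinearMap.ker f ≤ dirs (pos S f t ∪ pos (zer S f t) g u) := by
      rw [← h7]
      refine sup_le hAR ?_
      rw [Submodule.span_le, Set.singleton_subset_iff]
      exact hv1
    have h8 := Submodule.eq_of_le_of_finrank_le hKR (by omega)
    rw [← h8] at hrx
    exact hfrx hrx
  · intro h5
    rw [h5, hQ] at hrx
    exact absurd hrx hfrx

private lemma alpha3_choose {A : Finset V} (G4 : Gen4 A) (hA : A.card = 4) {v : V} (hv : v ≠ 0)
    (hvA : v ∈ dirs A) : ∃ x ∈ A, v ∉ dirs (A.erase x) := by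
  by_contra hcon
  push Not at hcon
  have hne : A.Nonempty := Finset.card_pos.1 (by omega)
  obtain ⟨y0, hy0⟩ := hne
  unfold dirs at hvA
  rw [vectorSpan_eq_span_vsub_set_right ℝ (Finset.mem_coe.2 hy0),
    Submodule.mem_span_image_finset_iff_exists_fun] at hvA
  obtain ⟨c, hc⟩ := hvA
  apply hv
  rw [← hc]
  apply Finset.sum_eq_zero
  intro i _
  by_cases hi : (i : V) = y0
  · rw [hi, vsub_self, smul_zero]
  · obtain ⟨g, u, hg1, hg2⟩ := G4.sep subset_rfl hA i.2
    have hgv : g v = 0 := by
      have h1 : dirs (A.erase (i : V)) ≤ LinearMap.ker g := dirs_le_ker (t := u) hg1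
      exact h1 (hcon _ i.2)
    rw [← hc, map_sum] at hgv
    have hy0u : g y0 = u := hg1 y0 (Finset.mem_erase.2 ⟨fun h => hi h.symm, hy0⟩)
    rw [Finset.sum_eq_single i] at hgv
    · rw [vsub_eq_sub, map_smul, map_sub, hy0u, smul_eq_mul] at hgv
      rcases mul_eq_zero.1 hgv with h2 | h2
      · rw [h2, zero_smul]
      · exact absurd h2 (by linarith [hg2] : g (i : V) - u ≠ 0 )
    · intro j _ hji
      have h3 : g (j : V) = u := hg1 j (Finset.mem_erase.2 ⟨fun h => hji (Subtype.ext h), j.2⟩)
      rw [vsub_eq_sub, map_smul, map_sub, hy0u, h3, sub_self, smul_zero]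
    · intro h
      exact absurd (Finset.mem_univ _) h

/-- Case alpha with three points on the small side and four points on the hyperplane. -/
theorem alpha3 (hV : finrank ℝ V = 4) {S : Finset V} (G4 : Gen4 S)
    {f : Dual ℝ V} {t : ℝ} (hf : f ≠ 0)
    (hQ : dirs (neg S f t) = LinearMap.ker f)
    (hR : (pos S f t).card = 3) (hA : (zer S f t).card = 4) : HasGood S := by
  have hfin : FiniteDimensional ℝ V := FiniteDimensional.of_finrank_pos (by omega)
  have h4S : 4 ≤ S.card := by
    rw [← hA]
    exact Finset.card_le_card zer_subset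
  have hRne : (pos S f t).Nonempty := Finset.card_pos.1 (by omega)
  have hR2 : finrank ℝ (dirs (pos S f t)) = 2 := by
    have := G4.finrank_eq h4S pos_subset (by omega) hRne
    omega
  -- a nonzero vector of `dirs R` in the kernel
  obtain ⟨v, hv1, hv2, hv0⟩ : ∃ v ∈ dirs (pos S f t), f v = 0 ∧ v ≠ 0 := by
    have h1 := LinearMap.finrank_range_add_finrank_ker (f.domRestrict (dirs (pos S f t)))
    have h2 : finrank ℝ (LinearMap.range (f.domRestrict (dirs (pos S f t)))) ≤ 1 := by
      have h3 := Submodule.finrank_le (LinearMap.range (f.domRestrict (dirs (pos S f t))))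
      rwa [finrank_self] at h3
    have h3 : 0 < finrank ℝ (LinearMap.ker (f.domRestrict (dirs (pos S f t)))) := by omega
    obtain ⟨w, hw⟩ := finrank_pos_iff_exists_ne_zero.1 h3
    refine ⟨((w : dirs (pos S f t)) : V), (w : dirs (pos S f t)).2, ?_, ?_⟩
    · exact w.2
    · intro h4
      apply hw
      exact Subtype.ext (Subtype.ext h4)
  have hAK : dirs (zer S f t) = LinearMap.ker f := dirs_zer_eq_ker hV G4 hf (by omega)
  have hvA : v ∈ dirs (zer S f t) := by
    rw [hAK]
    exact hv2
  obtain ⟨x, hx, hxv⟩ := alpha3_choose (G4.mono zer_subset) hA hv0 hvA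
  obtain ⟨g, u, hg1, hg2⟩ := G4.sep zer_subset hA hx
  have hz : zer (zer S f t) g u = (zer S f t).erase x := by
    ext y
    rw [mem_zer, Finset.mem_erase]
    constructor
    · rintro ⟨h1, h2⟩
      exact ⟨fun h3 => by rw [h3] at h2; linarith, h1⟩
    · rintro ⟨h1, h2⟩
      exact ⟨h2, hg1 y (Finset.mem_erase.2 ⟨h1, h2⟩)⟩
  have hp : pos (zer S f t) g u = {x} := by
    ext y
    rw [mem_pos, Finset.mem_singleton]
    constructor
    · rintro ⟨h1, h2⟩
      by_contra h3
      have := hg1 y (Finset.mem_erase.2 ⟨h3, h1⟩)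
      linarith
    · rintro rfl
      exact ⟨hx, hg2⟩
  have hn : neg (zer S f t) g u = ∅ := by
    rw [Finset.eq_empty_iff_forall_notMem]
    intro y hy
    rw [mem_neg] at hy
    by_cases h3 : y = x
    · rw [h3] at hy
      linarith [hy.2]
    · have := hg1 y (Finset.mem_erase.2 ⟨h3, hy.1⟩)
      linarith [hy.2]
  refine alphaCore hV G4 h4S hf hQ hRne hn ?_ ?_ ?_ v ?_ hv2 ?_
  · rw [hz, Finset.card_erase_of_mem hx, hA]
  · rw [hp]
    exact Finset.singleton_nonempty x
  · rw [hp]
    refine (Finset.card_union_le _ _).trans ?_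
    rw [hR, Finset.card_singleton]
  · exact dirs_mono Finset.subset_union_left hv1
  · rw [hz]
    exact hxv

end FourCP
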