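import Pool.Agent.Lib.MP_e6820d_co.Defs

/-!
Basic facts on direction spaces, splits and good triples (MP_e6820d_co).
-/

namespace FourCP

open Module

variable {V : Type*} [AddCommGroup V] [Module ℝ V]

theorem mem_zer {S : Finset V} {f : Dual ℝ V} {t : ℝ} {x : V} : x ∈ zer S f t ↔ x ∈ S ∧ f x = t := by
  simp [zer]

theorem mem_pos {S : Finset V} {f : Dual ℝ V} {t : ℝ} {x : V} : x ∈ pos S f t ↔ x ∈ S ∧ t < f x := by
  simp [pos]

theorem mem_neg {S : Finset V} {f : Dual ℝ V} {t : ℝ} {x : V} : x ∈ neg S f t ↔ x ∈ S ∧ f x < t := by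
  simp [neg]

theorem zer_subset {S : Finset V} {f : Dual ℝ V} {t : ℝ} : zer S f t ⊆ S := fun _ h => (mem_zer.1 h).1

theorem pos_subset {S : Finset V} {f : Dual ℝ V} {t : ℝ} : pos S f t ⊆ S := fun _ h => (mem_pos.1 h).1

theorem neg_subset {S : Finset V} {f : Dual ℝ V} {t : ℝ} : neg S f t ⊆ S := fun _ h => (mem_neg.1 h).1

/-- The three parts of `S` are disjoint and exhaust `S`. -/
theorem card_split (S : Finset V) (f : Dual ℝ V) (t : ℝ) :
    (zer S f t).card + (pos S f t).card + (neg S f t).card = S.card := by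
  classical
  have h1 : Disjoint (zer S f t) (pos S f t) := by
    rw [Finset.disjoint_left]
    intro x h1 h2
    rw [mem_zer] at h1
    rw [mem_pos] at h2
    linarith [h1.2, h2.2]
  have h2 : Disjoint (zer S f t ∪ pos S f t) (neg S f t) := by
    rw [Finset.disjoint_left]
    intro x h1 h2
    rw [Finset.mem_union, mem_zer, mem_pos] at h1
    rw [mem_neg] at h2
    rcases h1 with h1 | h1 <;> linarith [h1.2, h2.2]
  have h3 : zer S f t ∪ pos S f t ∪ neg S f t = S := by
    ext x
    simp only [Finset.mem_union, mem_zer, mem_pos, mem_neg]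
    constructor
    · rintro ((h | h) | h) <;> exact h.1
    · intro h
      rcases lt_trichotomy (f x) t with h' | h' | h'
      · exact Or.inr ⟨h, h'⟩
      · exact Or.inl (Or.inl ⟨h, h'⟩)
      · exact Or.inl (Or.inr ⟨h, h'⟩)
  rw [← Finset.card_union_of_disjoint h1, ← Finset.card_union_of_disjoint h2, h3]

theorem sub_mem_dirs {X : Finset V} {x y : V} (hx : x ∈ X) (hy : y ∈ X) : x - y ∈ dirs X := by
  have := vsub_mem_vectorSpan ℝ (s := (X : Set V)) (Finset.mem_coe.2 hx) (Finset.mem_coe.2 hy)
  simpa [dirs] using this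

theorem dirs_mono {X Y : Finset V} (h : X ⊆ Y) : dirs X ≤ dirs Y :=
  vectorSpan_mono ℝ (Finset.coe_subset.2 h)

/-- `dirs X ≤ W` as soon as all points of `X` lie in one coset of `W`. -/
theorem dirs_le {X : Finset V} {W : Submodule ℝ V} (x0 : V) (h : ∀ x ∈ X, x - x0 ∈ W) :
    dirs X ≤ W := by
  unfold dirs
  rw [vectorSpan_def, Submodule.span_le]
  rintro v ⟨x, hx, y, hy, rfl⟩
  have h1 := h x (Finset.mem_coe.1 hx)
  have h2 := h y (Finset.mem_coe.1 hy)
  have h3 := W.sub_mem h1 h2
  simpa using h3

theorem dirs_le_ker {X : Finset V} {f : Dual ℝ V} {t : ℝ} (h : ∀ x ∈ X, f x = t) :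
    dirs X ≤ LinearMap.ker f := by
  unfold dirs
  rw [vectorSpan_def, Submodule.span_le]
  rintro v ⟨x, hx, y, hy, rfl⟩
  simp [h x hx, h y hy]

/-- The functional is constant on a finite set whose directions it kills. -/
theorem eq_of_dirs_le_ker {X : Finset V} {f : Dual ℝ V} (h : dirs X ≤ LinearMap.ker f) {x y : V}
    (hx : x ∈ X) (hy : y ∈ X) : f x = f y := by
  have := h (sub_mem_dirs hx hy)
  rw [LinearMap.mem_ker, map_sub] at this
  linarith

@[simp] theorem dirs_empty : dirs (∅ : Finset V) = ⊥ := by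
  simp [dirs]

@[simp] theorem dirs_singleton (x : V) : dirs ({x} : Finset V) = ⊥ := by
  simp [dirs]

instance (X : Finset V) : FiniteDimensional ℝ (dirs X) :=
  finiteDimensional_vectorSpan_of_finite ℝ X.finite_toSet

theorem finrank_dirs_add_one_le {X : Finset V} (h : X.Nonempty) :
    finrank ℝ (dirs X) + 1 ≤ X.card := by
  classical
  have hne : Nonempty X := h.to_subtype
  have h1 : Fintype.card X = (X.card - 1) + 1 := by
    have : 0 < X.card := h.card_pos
    simp
    omega
  have h2 := finrank_vectorSpan_range_le ℝ (fun x : X => (x : V)) h1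
  have h3 : Set.range (fun x : X => (x : V)) = (X : Set V) := by
    ext; simp
  rw [h3] at h2
  have : 0 < X.card := h.card_pos
  unfold dirs
  omega

theorem finrank_dirs_le_card_sub_one (X : Finset V) : finrank ℝ (dirs X) ≤ X.card - 1 := by
  rcases X.eq_empty_or_nonempty with rfl | h
  · rw [dirs_empty]; simp
  · have := finrank_dirs_add_one_le h
    omega

theorem finrank_dirs_empty : finrank ℝ (dirs (∅ : Finset V)) = 0 := by
  have := finrank_dirs_le_card_sub_one (∅ : Finset V)
  simpa using this

theorem finrank_dirs_singleton (x : V) : finrank ℝ (dirs ({x} : Finset V)) = 0 := by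
  have := finrank_dirs_le_card_sub_one ({x} : Finset V)
  simpa using this

theorem dirs_insert_le [DecidableEq V] {X : Finset V} {x x0 : V} (hx0 : x0 ∈ X) :
    dirs (insert x X) = dirs X ⊔ Submodule.span ℝ {x - x0} := by
  apply le_antisymm
  · apply dirs_le x0
    intro y hy
    rcases Finset.mem_insert.1 hy with rfl | hy
    · exact Submodule.mem_sup_right (Submodule.mem_span_singleton_self _)
    · exact Submodule.mem_sup_left (sub_mem_dirs hy hx0)
  · apply sup_le (dirs_mono (Finset.subset_insert _ _))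
    rw [Submodule.span_le, Set.singleton_subset_iff]
    exact sub_mem_dirs (Finset.mem_insert_self _ _) (Finset.mem_insert_of_mem hx0)

theorem finrank_dirs_insert_le [DecidableEq V] (X : Finset V) (x : V) :
    finrank ℝ (dirs (insert x X)) ≤ finrank ℝ (dirs X) + 1 := by
  rcases X.eq_empty_or_nonempty with rfl | ⟨x0, hx0⟩
  · rw [show (insert x (∅ : Finset V)) = {x} from rfl, dirs_singleton]
    simp
  · rw [dirs_insert_le hx0]
    calc finrank ℝ ↥(dirs X ⊔ Submodule.span ℝ {x - x0})
        ≤ finrank ℝ (dirs X) + finrank ℝ (Submodule.span ℝ {x - x0}) :=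
          Submodule.finrank_add_le_finrank_add_finrank _ _
      _ ≤ finrank ℝ (dirs X) + 1 := by
          have := finrank_span_le_card (R := ℝ) ({x - x0} : Set V)
          simp at this
          omega

end FourCP
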