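import Pool.Agent.Lib.MP_e6820d_co.GenPos
import Pool.Agent.Lib.MP_e6820d_co.Perturb
import Pool.Agent.Lib.MP_e6820d_co.D5

/-!
Case beta with three points on both sides and five points on the hyperplane (MP_e6820d_co).
-/

namespace FourCP

open Module

variable {V : Type*} [AddCommGroup V] [Module ℝ V]

/-- Two different subspaces of the same dimension `n + 1` meet in dimension at most `n`. -/
private theorem inf_finrank_le [FiniteDimensional ℝ V] {P Q : Submodule ℝ V} {n : ℕ}
    (hP : finrank ℝ P = n + 1) (hQ : finrank ℝ Q = n + 1) (h : P ≠ Q) :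
    finrank ℝ ↥(P ⊓ Q) ≤ n := by
  by_contra hc
  have h1 : finrank ℝ ↥(P ⊓ Q) ≤ n + 1 := by
    rw [← hP]
    exact Submodule.finrank_mono inf_le_left
  have h2 : finrank ℝ ↥(P ⊓ Q) = n + 1 := by omega
  have h3 : P ⊓ Q = P := Submodule.eq_of_le_of_finrank_eq inf_le_left (by rw [h2, hP])
  have h4 : P ⊓ Q = Q := Submodule.eq_of_le_of_finrank_eq inf_le_right (by rw [h2, hQ])
  exact h (h3.symm.trans h4)

private theorem beta35_pair [DecidableEq V] (hV : finrank ℝ V = 4) {S : Finset V}
    (hS : S.card = 11) (G4 : Gen4 S) {f k g : Dual ℝ V} {t k0 u : ℝ}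
    (hR : (pos S f t).card = 3) (hQ : (neg S f t).card = 3)
    (hA : (zer S f t).card = 5)
    (hW : dirs (pos S f t) = dirs (neg S f t))
    (hWA : dirs (pos S f t) ≤ LinearMap.ker f)
    (hkR : ∀ x ∈ pos S f t, k x = k0) (hkQ : ∀ x ∈ neg S f t, k x = k0)
    (hkA : ∀ x ∈ zer S f t, k0 < k x) {x y : V} (hx : x ∈ zer S f t) (hy : y ∈ zer S f t)
    (hxy : x ≠ y) (hz : zer (zer S f t) g u = zer S f t \ {x, y}) (hgx : u < g x)
    (hgy : g y < u) (hno : ¬ HasGood S) : dirs (zer S f t \ {x, y}) = dirs (pos S f t) := by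
  have : FiniteDimensional ℝ V := FiniteDimensional.of_finrank_pos (by omega)
  by_contra hne
  apply hno
  have h4S : 4 ≤ S.card := by omega
  have hpos : pos (zer S f t) g u = {x} := by
    ext v
    rw [mem_pos, Finset.mem_singleton]
    constructor
    · rintro ⟨hv, hv2⟩
      by_contra hvx
      have hvy : v ≠ y := by
        rintro rfl
        linarith
      have : v ∈ zer (zer S f t) g u := by
        rw [hz, Finset.mem_sdiff]
        exact ⟨hv, by simp [hvx, hvy]⟩
      have := (mem_zer.1 this).2
      linarith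
    · rintro rfl
      exact ⟨hx, hgx⟩
  have hneg : neg (zer S f t) g u = {y} := by
    ext v
    rw [mem_neg, Finset.mem_singleton]
    constructor
    · rintro ⟨hv, hv2⟩
      by_contra hvy
      have hvx : v ≠ x := by
        rintro rfl
        linarith
      have : v ∈ zer (zer S f t) g u := by
        rw [hz, Finset.mem_sdiff]
        exact ⟨hv, by simp [hvx, hvy]⟩
      have := (mem_zer.1 this).2
      linarith
    · rintro rfl
      exact ⟨hy, hgy⟩
  have hsp := split_perturb S f g t u
  rw [hz, hpos, hneg] at hsp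
  refine ⟨_, _, _, hsp, ?_⟩
  have hxR : x ∉ pos S f t := by
    intro h
    have h1 := (mem_pos.1 h).2
    have h2 := (mem_zer.1 hx).2
    linarith
  have hyQ : y ∉ neg S f t := by
    intro h
    have h1 := (mem_neg.1 h).2
    have h2 := (mem_zer.1 hy).2
    linarith
  have eR : pos S f t ∪ {x} = insert x (pos S f t) := by
    rw [Finset.union_comm]
    rfl
  have eQ : neg S f t ∪ {y} = insert y (neg S f t) := by
    rw [Finset.union_comm]
    rfl
  rw [eR, eQ]
  obtain ⟨r, hr⟩ : (pos S f t).Nonempty := Finset.card_pos.1 (by omega)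
  obtain ⟨q, hq⟩ : (neg S f t).Nonempty := Finset.card_pos.1 (by omega)
  have fW : finrank ℝ (dirs (pos S f t)) = 2 := by
    have := G4.finrank_eq h4S pos_subset (by omega) ⟨r, hr⟩
    omega
  have fR : finrank ℝ (dirs (insert x (pos S f t))) = 3 := by
    apply G4
    · exact Finset.insert_subset (zer_subset hx) pos_subset
    · rw [Finset.card_insert_of_notMem hxR, hR]
  have fQ : finrank ℝ (dirs (insert y (neg S f t))) = 3 := by
    apply G4
    · exact Finset.insert_subset (zer_subset hy) neg_subset
    · rw [Finset.card_insert_of_notMem hyQ, hQ]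
  have cA : (zer S f t \ {x, y}).card = 3 := by
    rw [Finset.card_sdiff_of_subset, hA, Finset.card_pair hxy]
    intro v hv
    rw [Finset.mem_insert, Finset.mem_singleton] at hv
    rcases hv with rfl | rfl
    · exact hx
    · exact hy
  have fA : finrank ℝ (dirs (zer S f t \ {x, y})) = 2 := by
    have hn : (zer S f t \ {x, y}).Nonempty := Finset.card_pos.1 (by omega)
    have := G4.finrank_eq h4S (Finset.sdiff_subset.trans zer_subset) (by omega) hn
    omega
  have hdiff : dirs (insert x (pos S f t)) ≠ dirs (insert y (neg S f t)) := by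
    intro he
    have h1 : y - q ∈ dirs (insert y (neg S f t)) :=
      sub_mem_dirs (Finset.mem_insert_self _ _) (Finset.mem_insert_of_mem hq)
    rw [← he, dirs_insert_le hr, Submodule.mem_sup] at h1
    obtain ⟨w, hw, v, hv, hwv⟩ := h1
    rw [Submodule.mem_span_singleton] at hv
    obtain ⟨s, rfl⟩ := hv
    have hkw : k w = 0 := by
      have := dirs_le_ker hkR hw
      exact this
    have hfw : f w = 0 := hWA hw
    have e1 : k w + s * (k x - k r) = k y - k q := by
      rw [← map_sub, ← smul_eq_mul, ← map_smul, ← map_add, hwv, map_sub]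
    have e2 : f w + s * (f x - f r) = f y - f q := by
      rw [← map_sub, ← smul_eq_mul, ← map_smul, ← map_add, hwv, map_sub]
    rw [hkw, hkR r hr, hkQ q hq] at e1
    rw [hfw, (mem_zer.1 hx).2, (mem_zer.1 hy).2] at e2
    have i1 := hkA x hx
    have i2 := hkA y hy
    have i3 := (mem_pos.1 hr).2
    have i4 := (mem_neg.1 hq).2
    have s1 : 0 < s := by
      by_contra hs
      nlinarith
    nlinarith
  have hint : dirs (insert x (pos S f t)) ⊓ dirs (insert y (neg S f t)) = dirs (pos S f t) := by
    symm
    apply Submodule.eq_of_le_of_finrank_le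
    · apply le_inf (dirs_mono (Finset.subset_insert _ _))
      rw [hW]
      exact dirs_mono (Finset.subset_insert _ _)
    · rw [fW]
      exact inf_finrank_le fR fQ hdiff
  refine ⟨by omega, by omega, by omega, ?_, fun h => (hdiff h).elim, fun _ => by omega,
    fun _ => by omega⟩
  rw [inf_assoc, hint]
  exact inf_finrank_le fA fW hne

theorem beta35 (hV : finrank ℝ V = 4) {S : Finset V} (hS : S.card = 11) (H6 : Hyp6 S)
    (G4 : Gen4 S) {f : Dual ℝ V} {t : ℝ} (hf : f ≠ 0)
    (hR : (pos S f t).card = 3) (hQ : (neg S f t).card = 3)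
    (hW : dirs (pos S f t) = dirs (neg S f t))
    (hWA : dirs (pos S f t) ≤ LinearMap.ker f) : HasGood S := by
  classical
  have : FiniteDimensional ℝ V := FiniteDimensional.of_finrank_pos (by omega)
  have hA : (zer S f t).card = 5 := by
    have := card_split S f t
    omega
  obtain ⟨r, hr⟩ : (pos S f t).Nonempty := Finset.card_pos.1 (by omega)
  obtain ⟨q, hq⟩ : (neg S f t).Nonempty := Finset.card_pos.1 (by omega)
  have h4S : 4 ≤ S.card := by omega
  have fW : finrank ℝ (dirs (pos S f t)) = 2 := by
    have := G4.finrank_eq h4S pos_subset (by omega) ⟨r, hr⟩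
    omega
  have hdle : dirs (pos S f t ∪ neg S f t) ≤ dirs (pos S f t) ⊔ Submodule.span ℝ {r - q} := by
    apply dirs_le q
    intro v hv
    rcases Finset.mem_union.1 hv with hv | hv
    · have : v - q = (v - r) + (r - q) := by abel
      rw [this]
      exact Submodule.add_mem_sup (sub_mem_dirs hv hr) (Submodule.mem_span_singleton_self _)
    · rw [hW]
      exact Submodule.mem_sup_left (sub_mem_dirs hv hq)
  have h3 : finrank ℝ (dirs (pos S f t ∪ neg S f t)) ≤ 3 := by
    calc _ ≤ finrank ℝ ↥(dirs (pos S f t) ⊔ Submodule.span ℝ {r - q}) :=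
          Submodule.finrank_mono hdle
      _ ≤ finrank ℝ (dirs (pos S f t)) + finrank ℝ (Submodule.span ℝ {r - q}) :=
          Submodule.finrank_add_le_finrank_add_finrank _ _
      _ ≤ 3 := by
          have := finrank_span_le_card (R := ℝ) ({r - q} : Set V)
          simp at this
          omega
  obtain ⟨k, k0, hk, hk0⟩ := exists_hyperplane hV h3
  -- the zero set of k
  have hdisj : Disjoint (pos S f t) (neg S f t) := by
    rw [Finset.disjoint_left]
    intro v h1 h2
    have h1 := (mem_pos.1 h1).2
    have h2 := (mem_neg.1 h2).2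
    linarith
  have hcRQ : (pos S f t ∪ neg S f t).card = 6 := by
    rw [Finset.card_union_of_disjoint hdisj, hR, hQ]
  have hzer : ∀ {k : Dual ℝ V} {k0 : ℝ}, k ≠ 0 → (∀ x ∈ pos S f t ∪ neg S f t, k x = k0) →
      zer S k k0 = pos S f t ∪ neg S f t := by
    intro k k0 hk hk0
    symm
    apply Finset.eq_of_subset_of_card_le
    · intro v hv
      rw [mem_zer]
      refine ⟨?_, hk0 v hv⟩
      rcases Finset.mem_union.1 hv with hv | hv
      · exact pos_subset hv
      · exact neg_subset hv
    · rw [hcRQ]
      exact H6 _ zer_subset (finrank_dirs_zer_le hV S hk k0)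
  by_cases hboth : (pos S k k0).Nonempty ∧ (neg S k k0).Nonempty
  · -- case (a)
    have hz := hzer hk hk0
    refine ⟨_, _, _, split_self S k k0, ?_⟩
    have hc := card_split S k k0
    rw [hz, hcRQ, hS] at hc
    have hp := hboth.1.card_pos
    have hn := hboth.2.card_pos
    have hsubA : ∀ v ∈ S, k v ≠ k0 → v ∈ zer S f t := by
      intro v hv hkv
      rw [mem_zer]
      refine ⟨hv, ?_⟩
      by_contra hfv
      apply hkv
      apply hk0
      rw [Finset.mem_union, mem_pos, mem_neg]
      rcases lt_or_gt_of_ne hfv with h | h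
      · exact Or.inr ⟨hv, h⟩
      · exact Or.inl ⟨hv, h⟩
    have hpA : dirs (pos S k k0) ≤ LinearMap.ker f := by
      apply dirs_le_ker (t := t)
      intro v hv
      have h1 := mem_pos.1 hv
      exact (mem_zer.1 (hsubA v h1.1 (ne_of_gt h1.2))).2
    have hnA : dirs (neg S k k0) ≤ LinearMap.ker f := by
      apply dirs_le_ker (t := t)
      intro v hv
      have h1 := mem_neg.1 hv
      exact (mem_zer.1 (hsubA v h1.1 (ne_of_lt h1.2))).2
    have hnot : ¬ dirs (zer S k k0) ≤ LinearMap.ker f := by
      intro h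
      rw [hz] at h
      have h1 : r - q ∈ dirs (pos S f t ∪ neg S f t) :=
        sub_mem_dirs (Finset.mem_union_left _ hr) (Finset.mem_union_right _ hq)
      have h2 : f (r - q) = 0 := h h1
      rw [map_sub] at h2
      have i3 := (mem_pos.1 hr).2
      have i4 := (mem_neg.1 hq).2
      linarith
    have hfp := finrank_dirs_le_card_sub_one (pos S k k0)
    have hfn := finrank_dirs_le_card_sub_one (neg S k k0)
    refine ⟨finrank_dirs_zer_le hV S hk k0, by omega, by omega, ?_, ?_, ?_, ?_⟩
    · have i1 : finrank ℝ ↥(dirs (zer S k k0) ⊓ dirs (pos S k k0) ⊓ dirs (neg S k k0)) ≤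
          finrank ℝ (dirs (neg S k k0)) := Submodule.finrank_mono inf_le_right
      have i2 : finrank ℝ ↥(dirs (zer S k k0) ⊓ dirs (pos S k k0) ⊓ dirs (neg S k k0)) ≤
          finrank ℝ (dirs (pos S k k0)) :=
        Submodule.finrank_mono (inf_le_left.trans inf_le_right)
      omega
    · intro h
      have : finrank ℝ (dirs (pos S k k0)) = finrank ℝ (dirs (neg S k k0)) := by rw [h]
      omega
    · intro h
      exact (hnot (h ▸ hpA)).elim
    · intro h
      exact (hnot (h ▸ hnA)).elim
  · -- case (b): after a change of sign all of the zero set is on the positive side of k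
    obtain ⟨k, k0, hk, hk0, hneg⟩ : ∃ (k : Dual ℝ V) (k0 : ℝ), k ≠ 0 ∧
        (∀ x ∈ pos S f t ∪ neg S f t, k x = k0) ∧ neg S k k0 = ∅ := by
      by_cases h : (neg S k k0).Nonempty
      · have h2 : pos S k k0 = ∅ := by
          by_contra h3
          exact hboth ⟨Finset.nonempty_iff_ne_empty.2 h3, h⟩
        refine ⟨-k, -k0, neg_ne_zero.2 hk, ?_, ?_⟩
        · intro x hx
          rw [LinearMap.neg_apply, hk0 x hx]
        · rw [neg_neg', h2]
      · exact ⟨k, k0, hk, hk0, Finset.not_nonempty_iff_eq_empty.1 h⟩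
    have hz := hzer hk hk0
    have hkA : ∀ x ∈ zer S f t, k0 < k x := by
      intro v hv
      have hv' := mem_zer.1 hv
      by_contra hlt
      rcases lt_or_eq_of_le (not_lt.1 hlt) with h | h
      · have : v ∈ neg S k k0 := mem_neg.2 ⟨hv'.1, h⟩
        rw [hneg] at this
        exact absurd this (Finset.notMem_empty _)
      · have : v ∈ zer S k k0 := mem_zer.2 ⟨hv'.1, h⟩
        rw [hz, Finset.mem_union, mem_pos, mem_neg] at this
        rcases this with h | h <;> linarith [h.2, hv'.2]
    have hkR : ∀ x ∈ pos S f t, k x = k0 := fun x hx => hk0 x (Finset.mem_union_left _ hx)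
    have hkQ : ∀ x ∈ neg S f t, k x = k0 := fun x hx => hk0 x (Finset.mem_union_right _ hx)
    by_contra hno
    obtain ⟨x, hx, y, hy, z, hz', hxy, hxz, hyz, ⟨g, u, hg1, hg2, hg3⟩, ⟨g', u', hg1', hg2', hg3'⟩⟩ :=
      D5' hA (G4.mono zer_subset) (finrank_dirs_zer_le hV S hf t)
    have e1 := beta35_pair hV hS G4 hR hQ hA hW hWA hkR hkQ hkA hx hy hxy hg1 hg2 hg3 hno
    have e2 := beta35_pair hV hS G4 hR hQ hA hW hWA hkR hkQ hkA hx hz' hxz hg1' hg2' hg3' hno
    have hc3 : ({x, y, z} : Finset V).card = 3 := Finset.card_eq_three.2 ⟨x, y, z, hxy, hxz, hyz, rfl⟩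
    have hsub3 : ({x, y, z} : Finset V) ⊆ zer S f t := by
      intro v hv
      simp only [Finset.mem_insert, Finset.mem_singleton] at hv
      rcases hv with rfl | rfl | rfl
      · exact hx
      · exact hy
      · exact hz'
    obtain ⟨p, hp⟩ : (zer S f t \ {x, y, z}).Nonempty := by
      apply Finset.card_pos.1
      rw [Finset.card_sdiff_of_subset hsub3, hA, hc3]
      norm_num
    rw [Finset.mem_sdiff] at hp
    simp only [Finset.mem_insert, Finset.mem_singleton, not_or] at hp
    obtain ⟨hpA, hpx, hpy, hpz⟩ := hp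
    have hle : dirs ((zer S f t).erase x) ≤ dirs (pos S f t) := by
      apply dirs_le p
      intro v hv
      rw [Finset.mem_erase] at hv
      by_cases hvy : v = y
      · rw [← e2]
        apply sub_mem_dirs
        · rw [Finset.mem_sdiff]
          refine ⟨hv.2, ?_⟩
          simp only [Finset.mem_insert, Finset.mem_singleton, not_or]
          exact ⟨hv.1, fun h => hyz (hvy ▸ h)⟩
        · rw [Finset.mem_sdiff]
          refine ⟨hpA, ?_⟩
          simp only [Finset.mem_insert, Finset.mem_singleton, not_or]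
          exact ⟨hpx, hpz⟩
      · rw [← e1]
        apply sub_mem_dirs
        · rw [Finset.mem_sdiff]
          refine ⟨hv.2, ?_⟩
          simp only [Finset.mem_insert, Finset.mem_singleton, not_or]
          exact ⟨hv.1, hvy⟩
        · rw [Finset.mem_sdiff]
          refine ⟨hpA, ?_⟩
          simp only [Finset.mem_insert, Finset.mem_singleton, not_or]
          exact ⟨hpx, hpy⟩
    have h1 : finrank ℝ (dirs ((zer S f t).erase x)) = 3 := by
      apply G4
      · exact (Finset.erase_subset _ _).trans zer_subset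
      · rw [Finset.card_erase_of_mem hx, hA]
    have h2 := Submodule.finrank_mono hle
    omega

end FourCP
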