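import Pool.Agent.Lib.MP_e6820d_co.GenPos
import Pool.Agent.Lib.MP_e6820d_co.Perturb

/-!
Case beta with four points on the hyperplane: the first reduction (MP_e6820d_co).
-/

namespace FourCP

open Module

variable {V : Type*} [AddCommGroup V] [Module ℝ V] [DecidableEq V]

private theorem b44_step (hV : finrank ℝ V = 4) {S : Finset V} (hS : S.card = 11)
    (G4 : Gen4 S) {f : Dual ℝ V} {t : ℝ}
    (hR : (pos S f t).card = 3) (hQ : (neg S f t).card = 4)
    (hA : (zer S f t).card = 4)
    (hUW : LinearMap.ker f ⊓ dirs (neg S f t) = dirs (pos S f t))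
    (hno : ¬ HasGood S) {x : V} (hx : x ∈ zer S f t) :
    (∀ r ∈ pos S f t, x - r ∈ dirs (neg S f t)) ∨
      dirs ((zer S f t).erase x) = dirs (pos S f t) := by
  have : FiniteDimensional ℝ V := FiniteDimensional.of_finrank_pos (by omega)
  by_contra hcon
  rw [not_or] at hcon
  obtain ⟨h1, h2⟩ := hcon
  apply hno
  have h4S : 4 ≤ S.card := by omega
  obtain ⟨g, u, hg, hgx⟩ := G4.sep zer_subset hA hx
  have hsp := split_perturb S f g t u
  have ez : zer (zer S f t) g u = (zer S f t).erase x := by
    ext v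
    rw [mem_zer, Finset.mem_erase]
    constructor
    · rintro ⟨hv, hv2⟩
      refine ⟨?_, hv⟩
      rintro rfl
      linarith
    · rintro ⟨hv, hv2⟩
      exact ⟨hv2, hg v (Finset.mem_erase.2 ⟨hv, hv2⟩)⟩
  have ep : pos (zer S f t) g u = {x} := by
    ext v
    rw [mem_pos, Finset.mem_singleton]
    constructor
    · rintro ⟨hv, hv2⟩
      by_contra hvx
      have := hg v (Finset.mem_erase.2 ⟨hvx, hv⟩)
      linarith
    · rintro rfl
      exact ⟨hx, hgx⟩
  have en : neg (zer S f t) g u = ∅ := by
    rw [Finset.eq_empty_iff_forall_notMem]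
    intro v hv
    rw [mem_neg] at hv
    by_cases hvx : v = x
    · subst hvx
      linarith [hv.2]
    · have := hg v (Finset.mem_erase.2 ⟨hvx, hv.1⟩)
      linarith [hv.2]
  rw [ez, ep, en, Finset.union_empty] at hsp
  have eR : pos S f t ∪ {x} = insert x (pos S f t) := by
    rw [Finset.union_comm]
    rfl
  rw [eR] at hsp
  refine ⟨_, _, _, hsp, ?_⟩
  have hxR : x ∉ pos S f t := by
    intro h
    have h1 := (mem_pos.1 h).2
    have h2 := (mem_zer.1 hx).2
    linarith
  have fA : finrank ℝ (dirs ((zer S f t).erase x)) = 2 := by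
    have hc : ((zer S f t).erase x).card = 3 := by
      rw [Finset.card_erase_of_mem hx, hA]
    have hn : ((zer S f t).erase x).Nonempty := Finset.card_pos.1 (by omega)
    have := G4.finrank_eq h4S ((Finset.erase_subset _ _).trans zer_subset) (by omega) hn
    omega
  have fR : finrank ℝ (dirs (insert x (pos S f t))) = 3 := by
    apply G4
    · exact Finset.insert_subset (zer_subset hx) pos_subset
    · rw [Finset.card_insert_of_notMem hxR, hR]
  have fQ : finrank ℝ (dirs (neg S f t)) = 3 := G4 _ neg_subset hQ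
  have fW : finrank ℝ (dirs (pos S f t)) = 2 := by
    have hn : (pos S f t).Nonempty := Finset.card_pos.1 (by omega)
    have := G4.finrank_eq h4S pos_subset (by omega) hn
    omega
  refine ⟨by omega, by omega, by omega, ?_, ?_, fun _ => by omega, fun _ => by omega⟩
  · have hle : dirs ((zer S f t).erase x) ⊓ dirs (insert x (pos S f t)) ⊓ dirs (neg S f t) ≤
        dirs (pos S f t) := by
      rw [← hUW]
      apply le_inf _ inf_le_right
      refine (inf_le_left.trans inf_le_left).trans ?_
      refine (dirs_mono (Finset.erase_subset _ _)).trans ?_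
      exact dirs_le_ker fun v hv => (mem_zer.1 hv).2
    have hle2 : dirs ((zer S f t).erase x) ⊓ dirs (insert x (pos S f t)) ⊓ dirs (neg S f t) ≤
        dirs ((zer S f t).erase x) := inf_le_left.trans inf_le_left
    by_contra hc
    apply h2
    have i1 := Submodule.eq_of_le_of_finrank_le hle (by omega)
    have i2 := Submodule.eq_of_le_of_finrank_le hle2 (by omega)
    exact i2.symm.trans i1
  · intro he
    exfalso
    apply h1
    intro r hr
    rw [← he]
    exact sub_mem_dirs (Finset.mem_insert_self _ _) (Finset.mem_insert_of_mem hr)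

theorem beta44a (hV : finrank ℝ V = 4) {S : Finset V} (hS : S.card = 11) (H6 : Hyp6 S)
    (G4 : Gen4 S) {f : Dual ℝ V} {t : ℝ} (hf : f ≠ 0)
    (hR : (pos S f t).card = 3) (hQ : (neg S f t).card = 4)
    (hU : dirs (neg S f t) ≠ LinearMap.ker f)
    (hW1 : dirs (pos S f t) ≤ LinearMap.ker f)
    (hW2 : dirs (pos S f t) ≤ dirs (neg S f t)) :
    HasGood S ∨ ∃ t1 t2 t3 t4 : V, zer S f t = {t1, t2, t3, t4} ∧
      t1 ≠ t2 ∧ t1 ≠ t3 ∧ t1 ≠ t4 ∧ t2 ≠ t3 ∧ t2 ≠ t4 ∧ t3 ≠ t4 ∧
      dirs {t1, t2, t3} = dirs (pos S f t) ∧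
      (∀ r ∈ pos S f t, t1 - r ∈ dirs (neg S f t) ∧ t2 - r ∈ dirs (neg S f t) ∧
        t3 - r ∈ dirs (neg S f t) ∧ t4 - r ∉ dirs (neg S f t)) := by
  have : FiniteDimensional ℝ V := FiniteDimensional.of_finrank_pos (by omega)
  have hA : (zer S f t).card = 4 := by
    have := card_split S f t
    omega
  have h4S : 4 ≤ S.card := by omega
  obtain ⟨r, hr⟩ : (pos S f t).Nonempty := Finset.card_pos.1 (by omega)
  have fQ : finrank ℝ (dirs (neg S f t)) = 3 := G4 _ neg_subset hQ
  have fW : finrank ℝ (dirs (pos S f t)) = 2 := by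
    have := G4.finrank_eq h4S pos_subset (by omega) ⟨r, hr⟩
    omega
  have fK := finrank_ker_eq hV hf
  have hUW : LinearMap.ker f ⊓ dirs (neg S f t) = dirs (pos S f t) := by
    symm
    apply Submodule.eq_of_le_of_finrank_le (le_inf hW1 hW2)
    rw [fW]
    by_contra hc
    have h1 : finrank ℝ ↥(LinearMap.ker f ⊓ dirs (neg S f t)) ≤ 3 := by
      rw [← fK]
      exact Submodule.finrank_mono inf_le_left
    have i1 : LinearMap.ker f ⊓ dirs (neg S f t) = LinearMap.ker f :=
      Submodule.eq_of_le_of_finrank_eq inf_le_left (by omega)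
    have i2 : LinearMap.ker f ⊓ dirs (neg S f t) = dirs (neg S f t) :=
      Submodule.eq_of_le_of_finrank_eq inf_le_right (by omega)
    exact hU (i2.symm.trans i1)
  by_cases hno : HasGood S
  · exact Or.inl hno
  right
  have step := fun (x : V) (hx : x ∈ zer S f t) =>
    b44_step hV hS G4 hR hQ hA hUW hno hx
  -- not all of the points are of type 1
  have hnot : ¬ ∀ x ∈ zer S f t, x - r ∈ dirs (neg S f t) := by
    intro hall
    have hd : Disjoint (pos S f t) (zer S f t) := by
      rw [Finset.disjoint_left]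
      intro v h1 h2
      have h1 := (mem_pos.1 h1).2
      have h2 := (mem_zer.1 h2).2
      linarith
    have := H6.coset (dirs (neg S f t)) (by omega) hV
      (X := pos S f t ∪ zer S f t) (Finset.union_subset pos_subset zer_subset) r (by
        intro v hv
        rcases Finset.mem_union.1 hv with hv | hv
        · exact hW2 (sub_mem_dirs hv hr)
        · exact hall v hv)
    rw [Finset.card_union_of_disjoint hd] at this
    omega
  push Not at hnot
  obtain ⟨t4, ht4, h4r⟩ := hnot
  have h4 : ∀ r' ∈ pos S f t, t4 - r' ∉ dirs (neg S f t) := by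
    intro r' hr' h
    apply h4r
    have : t4 - r = (t4 - r') + (r' - r) := by abel
    rw [this]
    exact Submodule.add_mem _ h (hW2 (sub_mem_dirs hr' hr))
  have hT4 : dirs ((zer S f t).erase t4) = dirs (pos S f t) := by
    rcases step t4 ht4 with h | h
    · exact (h4r (h r hr)).elim
    · exact h
  -- the others are of type 1
  have hoth : ∀ x ∈ zer S f t, x ≠ t4 → ∀ r' ∈ pos S f t, x - r' ∈ dirs (neg S f t) := by
    intro x hx hx4
    rcases step x hx with h | h
    · exact h
    · exfalso
      have hc2 : ({x, t4} : Finset V).card = 2 := Finset.card_pair hx4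
      have hsub : ({x, t4} : Finset V) ⊆ zer S f t := by
        intro v hv
        simp only [Finset.mem_insert, Finset.mem_singleton] at hv
        rcases hv with rfl | rfl
        · exact hx
        · exact ht4
      obtain ⟨p, hp⟩ : (zer S f t \ {x, t4}).Nonempty := by
        apply Finset.card_pos.1
        rw [Finset.card_sdiff_of_subset hsub, hA, hc2]
        norm_num
      rw [Finset.mem_sdiff] at hp
      simp only [Finset.mem_insert, Finset.mem_singleton, not_or] at hp
      obtain ⟨hpA, hpx, hp4⟩ := hp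
      have hle : dirs (zer S f t) ≤ dirs (pos S f t) := by
        apply dirs_le p
        intro v hv
        by_cases hvx : v = x
        · rw [← hT4]
          apply sub_mem_dirs
          · exact Finset.mem_erase.2 ⟨fun h' => hx4 (hvx ▸ h'), hv⟩
          · exact Finset.mem_erase.2 ⟨hp4, hpA⟩
        · rw [← h]
          apply sub_mem_dirs
          · exact Finset.mem_erase.2 ⟨hvx, hv⟩
          · exact Finset.mem_erase.2 ⟨hpx, hpA⟩
      have h1 := G4 _ zer_subset hA
      have h2 := Submodule.finrank_mono hle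
      omega
  have hc : ((zer S f t).erase t4).card = 3 := by
    rw [Finset.card_erase_of_mem ht4, hA]
  obtain ⟨t1, t2, t3, h12, h13, h23, he⟩ := Finset.card_eq_three.1 hc
  have m1 : t1 ∈ (zer S f t).erase t4 := by rw [he]; simp
  have m2 : t2 ∈ (zer S f t).erase t4 := by rw [he]; simp
  have m3 : t3 ∈ (zer S f t).erase t4 := by rw [he]; simp
  rw [Finset.mem_erase] at m1 m2 m3
  refine ⟨t1, t2, t3, t4, ?_, h12, h13, m1.1, h23, m2.1, m3.1, ?_, ?_⟩
  · rw [← Finset.insert_erase ht4, he]
    ext v
    simp only [Finset.mem_insert, Finset.mem_singleton]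
    tauto
  · rw [← he, hT4]
  · intro r' hr'
    exact ⟨hoth t1 m1.2 m1.1 r' hr', hoth t2 m2.2 m2.1 r' hr', hoth t3 m3.2 m3.1 r' hr',
      h4 r' hr'⟩

end FourCP
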