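import Pool.Agent.Lib.MP_e6820d_co.Basics

/-!
Rotating a hyperplane about a face of its zero set until the next points are hit (MP_e6820d_co).
-/

namespace FourCP

open Module

variable {V : Type*} [AddCommGroup V] [Module ℝ V] [DecidableEq V]

/-- Put `F = a f + g`, `T = a t + u` where `a` is the maximum over `x ∈ pos ∪ neg` of
`-(g x - u) / (f x - t)`. -/
theorem rotate (S : Finset V) (f g : Dual ℝ V) (t u : ℝ)
    (h0 : neg (zer S f t) g u = ∅) (h1 : (pos S f t ∪ neg S f t).Nonempty) :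
    ∃ (F : Dual ℝ V) (T : ℝ) (Z : Finset V), Z.Nonempty ∧ Z ⊆ pos S f t ∪ neg S f t ∧
      zer S F T = zer (zer S f t) g u ∪ Z ∧
      pos S F T = (pos S f t \ Z) ∪ pos (zer S f t) g u ∧
      neg S F T = neg S f t \ Z := by
  classical
  obtain ⟨m, hmP, hm⟩ := Finset.exists_max_image (pos S f t ∪ neg S f t)
    (fun x => -(g x - u) / (f x - t)) h1
  set a : ℝ := -(g m - u) / (f m - t) with ha
  have hF : ∀ x, (a • f + g) x - (a * t + u) = a * (f x - t) + (g x - u) := by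
    intro x
    simp only [LinearMap.add_apply, LinearMap.smul_apply, smul_eq_mul]
    ring
  have hP : ∀ x ∈ S, t < f x → a * t + u ≤ (a • f + g) x ∧
      ((a • f + g) x = a * t + u ↔ -(g x - u) / (f x - t) = a) := by
    intro x hx hfx
    have h2 : 0 < f x - t := by linarith
    have h3 : -(g x - u) / (f x - t) ≤ a :=
      hm x (Finset.mem_union_left _ (mem_pos.2 ⟨hx, hfx⟩))
    have h4 := hF x
    rw [div_le_iff₀ h2] at h3
    refine ⟨by linarith, ?_⟩
    rw [div_eq_iff h2.ne']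
    constructor
    · intro h5; linarith
    · intro h5; linarith
  have hN : ∀ x ∈ S, f x < t → (a • f + g) x ≤ a * t + u ∧
      ((a • f + g) x = a * t + u ↔ -(g x - u) / (f x - t) = a) := by
    intro x hx hfx
    have h2 : f x - t < 0 := by linarith
    have h3 : -(g x - u) / (f x - t) ≤ a :=
      hm x (Finset.mem_union_right _ (mem_neg.2 ⟨hx, hfx⟩))
    have h4 := hF x
    rw [div_le_iff_of_neg h2] at h3
    refine ⟨by linarith, ?_⟩
    rw [div_eq_iff h2.ne]
    constructor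
    · intro h5; linarith
    · intro h5; linarith
  have hZ : ∀ x ∈ S, f x = t → (a • f + g) x - (a * t + u) = g x - u ∧ u ≤ g x := by
    intro x hx hfx
    refine ⟨by rw [hF, hfx]; ring, ?_⟩
    by_contra h2
    push Not at h2
    have h3 : x ∈ neg (zer S f t) g u := mem_neg.2 ⟨mem_zer.2 ⟨hx, hfx⟩, h2⟩
    rw [h0] at h3
    exact absurd h3 (Finset.notMem_empty x)
  refine ⟨a • f + g, a * t + u, (pos S f t ∪ neg S f t).filter
    (fun x => -(g x - u) / (f x - t) = a), ⟨m, ?_⟩, Finset.filter_subset _ _, ?_, ?_, ?_⟩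
  · rw [Finset.mem_filter]
    exact ⟨hmP, rfl⟩
  · ext x
    rw [mem_zer, Finset.mem_union, mem_zer, mem_zer, Finset.mem_filter, Finset.mem_union, mem_pos,
      mem_neg]
    constructor
    · rintro ⟨hx, h2⟩
      rcases lt_trichotomy (f x) t with h3 | h3 | h3
      · exact Or.inr ⟨Or.inr ⟨hx, h3⟩, (hN x hx h3).2.1 h2⟩
      · have h4 := (hZ x hx h3).1
        exact Or.inl ⟨⟨hx, h3⟩, by linarith⟩
      · exact Or.inr ⟨Or.inl ⟨hx, h3⟩, (hP x hx h3).2.1 h2⟩
    · rintro (⟨⟨hx, h2⟩, h3⟩ | ⟨⟨hx, h2⟩ | ⟨hx, h2⟩, h3⟩)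
      · have h4 := (hZ x hx h2).1
        exact ⟨hx, by linarith⟩
      · exact ⟨hx, (hP x hx h2).2.2 h3⟩
      · exact ⟨hx, (hN x hx h2).2.2 h3⟩
  · ext x
    rw [mem_pos, Finset.mem_union, Finset.mem_sdiff, mem_pos, mem_pos, mem_zer, Finset.mem_filter,
      Finset.mem_union, mem_pos, mem_neg]
    constructor
    · rintro ⟨hx, h2⟩
      rcases lt_trichotomy (f x) t with h3 | h3 | h3
      · exact absurd h2 (not_lt.2 (hN x hx h3).1)
      · have h4 := (hZ x hx h3).1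
        exact Or.inr ⟨⟨hx, h3⟩, by linarith⟩
      · refine Or.inl ⟨⟨hx, h3⟩, fun h4 => ?_⟩
        exact h2.ne' ((hP x hx h3).2.2 h4.2)
    · rintro (⟨⟨hx, h2⟩, h3⟩ | ⟨⟨hx, h2⟩, h3⟩)
      · refine ⟨hx, lt_of_le_of_ne (hP x hx h2).1 fun h4 => h3 ⟨Or.inl ⟨hx, h2⟩, ?_⟩⟩
        exact (hP x hx h2).2.1 h4.symm
      · have h4 := (hZ x hx h2).1
        exact ⟨hx, by linarith⟩
  · ext x
    rw [mem_neg, Finset.mem_sdiff, mem_neg, Finset.mem_filter, Finset.mem_union, mem_pos, mem_neg]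
    constructor
    · rintro ⟨hx, h2⟩
      rcases lt_trichotomy (f x) t with h3 | h3 | h3
      · refine ⟨⟨hx, h3⟩, fun h4 => ?_⟩
        exact h2.ne ((hN x hx h3).2.2 h4.2)
      · obtain ⟨h4, h5⟩ := hZ x hx h3
        exact absurd h2 (not_lt.2 (by linarith))
      · exact absurd h2 (not_lt.2 (hP x hx h3).1)
    · rintro ⟨⟨hx, h2⟩, h3⟩
      refine ⟨hx, lt_of_le_of_ne (hN x hx h2).1 fun h4 => h3 ⟨Or.inr ⟨hx, h2⟩, ?_⟩⟩
      exact (hN x hx h2).2.1 h4

end FourCP
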