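import Pool.Agent.Lib.MP_e6820d_co.GenPos
import Pool.Agent.Lib.MP_e6820d_co.Perturb
import Pool.Agent.Lib.MP_e6820d_co.Rotate

/-!
Case beta with four points on the hyperplane: the rotation argument (MP_e6820d_co).
-/

namespace FourCP

open Module

variable {V : Type*} [AddCommGroup V] [Module ℝ V] [DecidableEq V]

private theorem inf_finrank [FiniteDimensional ℝ V] (hV : finrank ℝ V = 4)
    {K U : Submodule ℝ V} (hK : finrank ℝ K = 3) (hU : finrank ℝ U = 3) (h : K ≠ U) :
    finrank ℝ ↥(K ⊓ U) = 2 := by
  have h1 := Submodule.finrank_sup_add_finrank_inf_eq K U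
  have h2 : finrank ℝ ↥(K ⊔ U) ≤ 4 := hV ▸ Submodule.finrank_le _
  have h3 : ¬ finrank ℝ ↥(K ⊔ U) ≤ 3 := by
    intro h4
    apply h
    have h5 := Submodule.eq_of_le_of_finrank_le (le_sup_left : K ≤ K ⊔ U) (by omega)
    have h6 := Submodule.eq_of_le_of_finrank_le (le_sup_right : U ≤ K ⊔ U) (by omega)
    rw [h5]
    exact h6.symm
  omega

theorem beta44b (hV : finrank ℝ V = 4) {S : Finset V} (hS : S.card = 11) (H6 : Hyp6 S)
    (G4 : Gen4 S) {f : Dual ℝ V} {t : ℝ} (hf : f ≠ 0)
    (hR : (pos S f t).card = 3) (hQ : (neg S f t).card = 4)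
    (hU : dirs (neg S f t) ≠ LinearMap.ker f)
    (hW1 : dirs (pos S f t) ≤ LinearMap.ker f)
    (hW2 : dirs (pos S f t) ≤ dirs (neg S f t))
    {t1 t2 t3 t4 : V} (hA : zer S f t = {t1, t2, t3, t4})
    (h12 : t1 ≠ t2) (h13 : t1 ≠ t3) (h14 : t1 ≠ t4) (h23 : t2 ≠ t3) (h24 : t2 ≠ t4)
    (h34 : t3 ≠ t4) (hT : dirs {t1, t2, t3} = dirs (pos S f t))
    (hr : ∀ r ∈ pos S f t, t1 - r ∈ dirs (neg S f t) ∧ t2 - r ∈ dirs (neg S f t) ∧
        t3 - r ∈ dirs (neg S f t) ∧ t4 - r ∉ dirs (neg S f t)) : HasGood S := by
  haveI : FiniteDimensional ℝ V := FiniteDimensional.of_finrank_pos (by omega)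
  have hRS : pos S f t ⊆ S := pos_subset
  have hQS : neg S f t ⊆ S := neg_subset
  have hAS : zer S f t ⊆ S := zer_subset
  have h4S : 4 ≤ S.card := by omega
  have hAcard : (zer S f t).card = 4 := by
    have := card_split S f t
    omega
  have hUfin : finrank ℝ (dirs (neg S f t)) = 3 := G4 _ hQS hQ
  have ht1 : t1 ∈ zer S f t := by rw [hA]; simp
  have ht2 : t2 ∈ zer S f t := by rw [hA]; simp
  have ht3 : t3 ∈ zer S f t := by rw [hA]; simp
  have ht4 : t4 ∈ zer S f t := by rw [hA]; simp
  obtain ⟨r0, hr0⟩ : (pos S f t).Nonempty := Finset.card_pos.mp (by omega)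
  obtain ⟨hr1, hr2, hr3, hr4⟩ := hr r0 hr0
  have hdRQ : Disjoint (pos S f t) (neg S f t) := by
    rw [Finset.disjoint_left]
    intro x h1 h2
    rw [mem_pos] at h1
    rw [mem_neg] at h2
    linarith [h1.2, h2.2]
  -- no point of `Q` lies in the coset of `R`
  have hRQ : ∀ q ∈ neg S f t, q - r0 ∉ dirs (neg S f t) := by
    intro q hq hmem
    have h1 := H6.coset (dirs (neg S f t)) (by omega) hV (X := pos S f t ∪ neg S f t)
      (Finset.union_subset hRS hQS) r0 (by
        intro x hx
        rcases Finset.mem_union.mp hx with hx | hx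
        · exact hW2 (sub_mem_dirs hx hr0)
        · have h2 := (dirs (neg S f t)).add_mem (sub_mem_dirs hx hq) hmem
          rwa [sub_add_sub_cancel] at h2)
    rw [Finset.card_union_of_disjoint hdRQ] at h1
    omega
  -- the separating functional
  obtain ⟨g, u, hg1, hg2⟩ := G4.sep hAS hAcard ht3
  have hgt1 : g t1 = u := hg1 t1 (Finset.mem_erase.mpr ⟨h13, ht1⟩)
  have hgt2 : g t2 = u := hg1 t2 (Finset.mem_erase.mpr ⟨h23, ht2⟩)
  have hgt4 : g t4 = u := hg1 t4 (Finset.mem_erase.mpr ⟨h34.symm, ht4⟩)
  have hzerg : zer (zer S f t) g u = {t1, t2, t4} := by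
    ext x
    rw [mem_zer, hA]
    simp only [Finset.mem_insert, Finset.mem_singleton]
    constructor
    · rintro ⟨h | h | h | h, hx⟩
      · exact Or.inl h
      · exact Or.inr (Or.inl h)
      · exfalso
        rw [h] at hx
        linarith
      · exact Or.inr (Or.inr h)
    · rintro (h | h | h)
      · exact ⟨Or.inl h, by rw [h]; exact hgt1⟩
      · exact ⟨Or.inr (Or.inl h), by rw [h]; exact hgt2⟩
      · exact ⟨Or.inr (Or.inr (Or.inr h)), by rw [h]; exact hgt4⟩
  have hposg : pos (zer S f t) g u = {t3} := by
    ext x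
    rw [mem_pos, hA]
    simp only [Finset.mem_insert, Finset.mem_singleton]
    constructor
    · rintro ⟨h | h | h | h, hx⟩
      · exfalso
        rw [h] at hx
        linarith
      · exfalso
        rw [h] at hx
        linarith
      · exact h
      · exfalso
        rw [h] at hx
        linarith
    · intro h
      exact ⟨Or.inr (Or.inr (Or.inl h)), by rw [h]; exact hg2⟩
  have hnegg : neg (zer S f t) g u = ∅ := by
    rw [Finset.eq_empty_iff_forall_notMem]
    intro x hx
    rw [mem_neg, hA] at hx
    simp only [Finset.mem_insert, Finset.mem_singleton] at hx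
    rcases hx with ⟨h | h | h | h, hx⟩ <;> rw [h] at hx <;> linarith
  obtain ⟨F, T, Z, hZne, hZsub, hz, hp, hn⟩ :=
    rotate S f g t u hnegg ⟨r0, Finset.mem_union_left _ hr0⟩
  rw [hzerg] at hz
  rw [hposg] at hp
  have hFt1 : F t1 = T := (mem_zer.mp (show t1 ∈ zer S F T by rw [hz]; simp)).2
  have hFt2 : F t2 = T := (mem_zer.mp (show t2 ∈ zer S F T by rw [hz]; simp)).2
  have hFt4 : F t4 = T := (mem_zer.mp (show t4 ∈ zer S F T by rw [hz]; simp)).2
  have hFt3 : T < F t3 := (mem_pos.mp (show t3 ∈ pos S F T by rw [hp]; simp)).2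
  have hF0 : F ≠ 0 := by
    intro h
    rw [h] at hFt1 hFt3
    simp only [LinearMap.zero_apply] at hFt1 hFt3
    linarith
  -- points of `R ∪ Q` are not in `zer S f t`
  have hZnotA : ∀ x ∈ Z, x ∉ zer S f t := by
    intro x hx hxA
    rw [mem_zer] at hxA
    rcases Finset.mem_union.mp (hZsub hx) with h | h
    · rw [mem_pos] at h
      linarith [h.2, hxA.2]
    · rw [mem_neg] at h
      linarith [h.2, hxA.2]
  have h124card : ({t1, t2, t4} : Finset V).card = 3 := by
    rw [Finset.card_insert_of_notMem, Finset.card_insert_of_notMem, Finset.card_singleton]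
    · simpa using h24
    · simp only [Finset.mem_insert, Finset.mem_singleton, not_or]
      exact ⟨h12, h14⟩
  have hd124 : Disjoint ({t1, t2, t4} : Finset V) Z := by
    rw [Finset.disjoint_left]
    intro x hx hxZ
    apply hZnotA x hxZ
    simp only [Finset.mem_insert, Finset.mem_singleton] at hx
    rcases hx with h | h | h
    · rw [h]; exact ht1
    · rw [h]; exact ht2
    · rw [h]; exact ht4
  have hzcard : (zer S F T).card = 3 + Z.card := by
    rw [hz, Finset.card_union_of_disjoint hd124, h124card]
  have hZpos : 0 < Z.card := hZne.card_pos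
  have hdA' : dirs (zer S F T) = LinearMap.ker F := dirs_zer_eq_ker hV G4 hF0 (by omega)
  have hkF : finrank ℝ (LinearMap.ker F) = 3 := finrank_ker_eq hV hF0
  have hkFU : LinearMap.ker F ≠ dirs (neg S f t) := by
    intro h
    have h1 : t4 - t1 ∈ LinearMap.ker F := by
      rw [LinearMap.mem_ker, map_sub, hFt4, hFt1, sub_self]
    rw [h] at h1
    apply hr4
    have h2 := (dirs (neg S f t)).add_mem h1 hr1
    rwa [sub_add_sub_cancel] at h2
  have hP2 : finrank ℝ ↥(LinearMap.ker F ⊓ dirs (neg S f t)) = 2 :=
    inf_finrank hV hkF hUfin hkFU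
  have hdR' : dirs (pos S F T) ≤ dirs (neg S f t) := by
    apply dirs_le r0
    intro x hx
    rw [hp, Finset.mem_union, Finset.mem_sdiff, Finset.mem_singleton] at hx
    rcases hx with ⟨hx, _⟩ | hx
    · exact hW2 (sub_mem_dirs hx hr0)
    · rw [hx]; exact hr3
  have hdQ' : dirs (neg S F T) ≤ dirs (neg S f t) := by
    rw [hn]
    exact dirs_mono Finset.sdiff_subset
  have hR'fin : finrank ℝ (dirs (pos S F T)) ≤ 3 := hUfin ▸ Submodule.finrank_mono hdR'
  have hQ'fin : finrank ℝ (dirs (neg S F T)) ≤ 3 := hUfin ▸ Submodule.finrank_mono hdQ'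
  by_cases hgood : finrank ℝ ↥(dirs (zer S F T) ⊓ dirs (pos S F T) ⊓ dirs (neg S F T)) ≤ 1
  · -- the rotated split is good
    refine ⟨_, _, _, split_self S F T, ⟨?_, hR'fin, hQ'fin, hgood, ?_, ?_, ?_⟩⟩
    · rw [hdA', hkF]
    · intro heq
      by_contra hlt
      push Not at hlt
      have e1 := finrank_dirs_le_card_sub_one (pos S F T)
      have e2 := finrank_dirs_le_card_sub_one (neg S F T)
      rw [← heq] at e2
      have c1 : (pos S F T).card ≤ ((pos S f t) \ Z).card + 1 := by
        rw [hp]
        exact (Finset.card_union_le _ _).trans (by rw [Finset.card_singleton])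
      have c2 : (neg S F T).card = ((neg S f t) \ Z).card := by rw [hn]
      have c3 : ((pos S f t) \ Z).card + ((pos S f t) ∩ Z).card = (pos S f t).card :=
        Finset.card_sdiff_add_card_inter _ _
      have c4 : ((neg S f t) \ Z).card + ((neg S f t) ∩ Z).card = (neg S f t).card :=
        Finset.card_sdiff_add_card_inter _ _
      obtain ⟨z, hzZ⟩ := hZne
      rcases Finset.mem_union.mp (hZsub hzZ) with h | h
      · have : 0 < ((pos S f t) ∩ Z).card :=
          Finset.card_pos.mpr ⟨z, Finset.mem_inter.mpr ⟨h, hzZ⟩⟩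
        omega
      · have : 0 < ((neg S f t) ∩ Z).card :=
          Finset.card_pos.mpr ⟨z, Finset.mem_inter.mpr ⟨h, hzZ⟩⟩
        omega
    · intro heq
      exfalso
      apply hkFU
      rw [hdA'] at heq
      refine Submodule.eq_of_le_of_finrank_le ?_ (by omega)
      rw [heq]
      exact hdR'
    · intro heq
      exfalso
      apply hkFU
      rw [hdA'] at heq
      refine Submodule.eq_of_le_of_finrank_le ?_ (by omega)
      rw [heq]
      exact hdQ'
  · push Not at hgood
    have htriple : dirs (zer S F T) ⊓ dirs (pos S F T) ⊓ dirs (neg S F T) =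
        LinearMap.ker F ⊓ dirs (neg S f t) := by
      refine Submodule.eq_of_le_of_finrank_le ?_ (by omega)
      refine le_inf ?_ ?_
      · rw [← hdA']
        exact inf_le_left.trans inf_le_left
      · exact inf_le_right.trans hdQ'
    have hPR : LinearMap.ker F ⊓ dirs (neg S f t) ≤ dirs (pos S F T) := by
      rw [← htriple]
      exact inf_le_left.trans inf_le_right
    have hPQ : LinearMap.ker F ⊓ dirs (neg S f t) ≤ dirs (neg S F T) := by
      rw [← htriple]
      exact inf_le_right
    by_cases hZR : ((pos S f t) ∩ Z).Nonempty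
    · -- case (i)
      exfalso
      have c3 : ((pos S f t) \ Z).card + ((pos S f t) ∩ Z).card = (pos S f t).card :=
        Finset.card_sdiff_add_card_inter _ _
      have c5 := hZR.card_pos
      have c1 : (pos S F T).card ≤ ((pos S f t) \ Z).card + 1 := by
        rw [hp]
        exact (Finset.card_union_le _ _).trans (by rw [Finset.card_singleton])
      have e1 := finrank_dirs_le_card_sub_one (pos S F T)
      have e2 : 2 ≤ finrank ℝ (dirs (pos S F T)) := hP2 ▸ Submodule.finrank_mono hPR
      have hR'eq : LinearMap.ker F ⊓ dirs (neg S f t) = dirs (pos S F T) :=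
        Submodule.eq_of_le_of_finrank_le hPR (by omega)
      obtain ⟨x', hx', x'', hx'', hxx⟩ : ∃ x' ∈ (pos S f t) \ Z, ∃ x'' ∈ (pos S f t) \ Z,
          x' ≠ x'' := Finset.one_lt_card.mp (by omega)
      have hx'R : x' ∈ pos S f t := (Finset.mem_sdiff.mp hx').1
      have hx''R : x'' ∈ pos S f t := (Finset.mem_sdiff.mp hx'').1
      have hdk : x' - x'' ∈ LinearMap.ker F := by
        have h1 : x' - x'' ∈ dirs (pos S F T) := by
          apply sub_mem_dirs
          · rw [hp]; exact Finset.mem_union_left _ hx'
          · rw [hp]; exact Finset.mem_union_left _ hx''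
        rw [← hR'eq] at h1
        exact h1.1
      have hdW : x' - x'' ∈ dirs (pos S f t) := sub_mem_dirs hx'R hx''R
      have htW : t2 - t1 ∈ dirs (pos S f t) := by
        rw [← hT]
        exact sub_mem_dirs (by simp) (by simp)
      have ht3W : t3 - t1 ∈ dirs (pos S f t) := by
        rw [← hT]
        exact sub_mem_dirs (by simp) (by simp)
      have htk : t2 - t1 ∈ LinearMap.ker F := by
        rw [LinearMap.mem_ker, map_sub, hFt1, hFt2, sub_self]
      have hWfin : finrank ℝ (dirs (pos S f t)) ≤ 2 := by
        have := finrank_dirs_le_card_sub_one (pos S f t)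
        omega
      have hNfin : finrank ℝ ↥(dirs (pos S f t) ⊓ LinearMap.ker F) ≤ 1 := by
        by_contra hlt
        push Not at hlt
        have h1 : dirs (pos S f t) ⊓ LinearMap.ker F = dirs (pos S f t) :=
          Submodule.eq_of_le_of_finrank_le inf_le_left (by omega)
        have h2 : t3 - t1 ∈ LinearMap.ker F := by
          rw [← h1] at ht3W
          exact ht3W.2
        rw [LinearMap.mem_ker, map_sub, hFt1] at h2
        linarith
      have hx't1 : x' ≠ t1 := by
        intro h
        rw [h, mem_pos] at hx'R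
        rw [mem_zer] at ht1
        linarith [hx'R.2, ht1.2]
      have hx't2 : x' ≠ t2 := by
        intro h
        rw [h, mem_pos] at hx'R
        rw [mem_zer] at ht2
        linarith [hx'R.2, ht2.2]
      have hx''t1 : x'' ≠ t1 := by
        intro h
        rw [h, mem_pos] at hx''R
        rw [mem_zer] at ht1
        linarith [hx''R.2, ht1.2]
      have hx''t2 : x'' ≠ t2 := by
        intro h
        rw [h, mem_pos] at hx''R
        rw [mem_zer] at ht2
        linarith [hx''R.2, ht2.2]
      have hcard4 : ({x', x'', t1, t2} : Finset V).card = 4 := by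
        rw [Finset.card_insert_of_notMem, Finset.card_insert_of_notMem,
          Finset.card_insert_of_notMem, Finset.card_singleton]
        · simpa using h12
        · simp only [Finset.mem_insert, Finset.mem_singleton, not_or]
          exact ⟨hx''t1, hx''t2⟩
        · simp only [Finset.mem_insert, Finset.mem_singleton, not_or]
          exact ⟨hxx, hx't1, hx't2⟩
      have hsub4 : ({x', x'', t1, t2} : Finset V) ⊆ S := by
        intro x hx
        simp only [Finset.mem_insert, Finset.mem_singleton] at hx
        rcases hx with h | h | h | h <;> rw [h]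
        · exact hRS hx'R
        · exact hRS hx''R
        · exact hAS ht1
        · exact hAS ht2
      have h3 := G4 _ hsub4 hcard4
      have h4 : dirs ({x', x'', t1, t2} : Finset V) ≤
          (dirs (pos S f t) ⊓ LinearMap.ker F) ⊔ Submodule.span ℝ {x' - t1} := by
        apply dirs_le t1
        have hsp : x' - t1 ∈ (dirs (pos S f t) ⊓ LinearMap.ker F) ⊔
            Submodule.span ℝ {x' - t1} :=
          Submodule.mem_sup_right (Submodule.mem_span_singleton_self _)
        intro x hx
        simp only [Finset.mem_insert, Finset.mem_singleton] at hx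
        rcases hx with h | h | h | h <;> rw [h]
        · exact hsp
        · have h5 : x' - x'' ∈ (dirs (pos S f t) ⊓ LinearMap.ker F) ⊔
              Submodule.span ℝ {x' - t1} := Submodule.mem_sup_left ⟨hdW, hdk⟩
          have h6 := Submodule.sub_mem _ hsp h5
          rwa [sub_sub_sub_cancel_left] at h6
        · rw [sub_self]
          exact Submodule.zero_mem _
        · exact Submodule.mem_sup_left ⟨htW, htk⟩
      have h5 := Submodule.finrank_mono h4
      have h6 : finrank ℝ ↥((dirs (pos S f t) ⊓ LinearMap.ker F) ⊔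
          Submodule.span ℝ {x' - t1}) ≤ 2 := by
        refine (Submodule.finrank_add_le_finrank_add_finrank _ _).trans ?_
        have h7 := finrank_span_le_card (R := ℝ) ({x' - t1} : Set V)
        simp at h7
        omega
      omega
    · -- case (ii)
      rw [Finset.not_nonempty_iff_eq_empty] at hZR
      have hZQ : Z ⊆ neg S f t := by
        intro x hx
        rcases Finset.mem_union.mp (hZsub hx) with h | h
        · exfalso
          have : x ∈ (pos S f t) ∩ Z := Finset.mem_inter.mpr ⟨h, hx⟩
          rw [hZR] at this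
          simp at this
        · exact h
      have c4 : ((neg S f t) \ Z).card + ((neg S f t) ∩ Z).card = (neg S f t).card :=
        Finset.card_sdiff_add_card_inter _ _
      rw [Finset.inter_eq_right.mpr hZQ] at c4
      have c2 : (neg S F T).card = ((neg S f t) \ Z).card := by rw [hn]
      have e1 := finrank_dirs_le_card_sub_one (neg S F T)
      have e2 : 2 ≤ finrank ℝ (dirs (neg S F T)) := hP2 ▸ Submodule.finrank_mono hPQ
      have hZ1 : Z.card = 1 := by omega
      obtain ⟨q, hZq⟩ := Finset.card_eq_one.mp hZ1
      have hqQ : q ∈ neg S f t := hZQ (by rw [hZq]; simp)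
      have hA'card : (zer S F T).card = 4 := by omega
      have ht1A' : t1 ∈ zer S F T := by rw [hz]; simp
      obtain ⟨g', u', hg'1, hg'2⟩ := G4.sep (zer_subset : zer S F T ⊆ S) hA'card ht1A'
      have hsplit := split_perturb S F (-g') T (-u')
      rw [zer_neg, pos_neg, neg_neg'] at hsplit
      have hzg' : zer (zer S F T) g' u' = (zer S F T).erase t1 := by
        ext x
        rw [mem_zer, Finset.mem_erase]
        constructor
        · rintro ⟨h1, h2⟩
          refine ⟨?_, h1⟩
          intro h
          rw [h] at h2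
          linarith
        · rintro ⟨h1, h2⟩
          exact ⟨h2, hg'1 x (Finset.mem_erase.mpr ⟨h1, h2⟩)⟩
      have hng' : neg (zer S F T) g' u' = ∅ := by
        rw [Finset.eq_empty_iff_forall_notMem]
        intro x hx
        rw [mem_neg] at hx
        by_cases h : x = t1
        · rw [h] at hx
          linarith [hx.2]
        · have := hg'1 x (Finset.mem_erase.mpr ⟨h, hx.1⟩)
          linarith [hx.2]
      have hpg' : pos (zer S F T) g' u' = {t1} := by
        ext x
        rw [mem_pos, Finset.mem_singleton]
        constructor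
        · rintro ⟨h1, h2⟩
          by_contra h
          have := hg'1 x (Finset.mem_erase.mpr ⟨h, h1⟩)
          linarith
        · intro h
          rw [h]
          exact ⟨ht1A', hg'2⟩
      rw [hzg', hng', hpg', Finset.union_empty] at hsplit
      have hA''card : ((zer S F T).erase t1).card = 3 := by
        rw [Finset.card_erase_of_mem ht1A', hA'card]
      have hA''fin : finrank ℝ (dirs ((zer S F T).erase t1)) ≤ 2 := by
        have := finrank_dirs_le_card_sub_one ((zer S F T).erase t1)
        omega
      have hQ''fin : finrank ℝ (dirs (neg S F T ∪ {t1})) ≤ 3 := by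
        have h1 := finrank_dirs_le_card_sub_one (neg S F T ∪ {t1})
        have h2 := Finset.card_union_le (neg S F T) {t1}
        rw [Finset.card_singleton] at h2
        omega
      refine ⟨_, _, _, hsplit, ⟨by omega, hR'fin, hQ''fin, ?_, ?_, fun _ => hA''fin,
        fun _ => hA''fin⟩⟩
      · -- the triple intersection
        by_contra hlt
        push Not at hlt
        have h1 : dirs ((zer S F T).erase t1) ⊓ dirs (pos S F T) ⊓
            dirs (neg S F T ∪ {t1}) = dirs ((zer S F T).erase t1) :=
          Submodule.eq_of_le_of_finrank_le (inf_le_left.trans inf_le_left) (by omega)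
        have h2 : t2 - q ∈ dirs ((zer S F T).erase t1) := by
          apply sub_mem_dirs
          · rw [Finset.mem_erase, hz]
            exact ⟨h12.symm, by simp⟩
          · rw [Finset.mem_erase, hz, hZq]
            refine ⟨?_, by simp⟩
            intro h
            rw [h] at hqQ
            rw [mem_neg] at hqQ
            rw [mem_zer] at ht1
            linarith [hqQ.2, ht1.2]
        rw [← h1] at h2
        have h3 : t2 - q ∈ dirs (neg S f t) := hdR' h2.1.2
        apply hRQ q hqQ
        have h4 := (dirs (neg S f t)).sub_mem hr2 h3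
        rwa [sub_sub_sub_cancel_left] at h4
      · intro heq
        exfalso
        obtain ⟨q', hq'⟩ : (neg S F T).Nonempty := Finset.card_pos.mp (by omega)
        have h1 : t1 - q' ∈ dirs (neg S F T ∪ {t1}) :=
          sub_mem_dirs (by simp) (Finset.mem_union_left _ hq')
        rw [← heq] at h1
        have h2 : t1 - q' ∈ dirs (neg S f t) := hdR' h1
        have hq'Q : q' ∈ neg S f t := by
          rw [hn] at hq'
          exact (Finset.mem_sdiff.mp hq').1
        apply hRQ q' hq'Q
        have h4 := (dirs (neg S f t)).sub_mem hr1 h2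
        rwa [sub_sub_sub_cancel_left] at h4

end FourCP
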