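import Mathlib

/-!
Centerpole sets and the numbers `c_k(G)` (MP_e6820d_co).
-/

namespace FourCP

/-- `C` is a `k`-centerpole subset of the abelian group `G`: for every colouring of `G` with `k`
colours there are `c ∈ C` and an infinite set `S`, symmetric with respect to `c`
(`S - c = c - S`), on which the colouring is constant. -/
def Centerpole (k : ℕ) {G : Type*} [AddCommGroup G] (C : Set G) : Prop :=
  ∀ χ : G → Fin k, ∃ c ∈ C, ∃ S : Set G, S.Infinite ∧
    (fun x => x - c) '' S = (fun x => c - x) '' S ∧ ∃ i : Fin k, ∀ x ∈ S, χ x = i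

/-- `c_k(G)`: the least cardinality of a `k`-centerpole subset of `G` (`⊤` if there is none). -/
noncomputable def centerNum (k : ℕ) (G : Type*) [AddCommGroup G] : ℕ∞ :=
  ⨅ (C : Set G) (_ : Centerpole k C), C.encard

end FourCP
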