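import Pool.Agent.Lib.MP_e6820d_co.CDefs

/-!
Definitions for the lower bound `12 ≤ c_4(ℤ^n)` (MP_e6820d_co).
-/

namespace FourCP

open Module

/-- The inclusion of the integer lattice in the real space. -/
def emb {m : ℕ} (u : Fin m → ℤ) : Fin m → ℝ := fun i => (u i : ℝ)

section real

variable {V : Type*} [AddCommGroup V] [Module ℝ V]

/-- The direction space of the affine hull of a finite set. -/
noncomputable def dirs (X : Finset V) : Submodule ℝ V := vectorSpan ℝ (X : Set V)

open Classical in
/-- The points of `S` on the hyperplane `f = t`. -/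
noncomputable def zer (S : Finset V) (f : Dual ℝ V) (t : ℝ) : Finset V := S.filter (fun x => f x = t)

open Classical in
/-- The points of `S` with `f > t`. -/
noncomputable def pos (S : Finset V) (f : Dual ℝ V) (t : ℝ) : Finset V := S.filter (fun x => t < f x)

open Classical in
/-- The points of `S` with `f < t`. -/
noncomputable def neg (S : Finset V) (f : Dual ℝ V) (t : ℝ) : Finset V := S.filter (fun x => f x < t)

/-- `(A, R, Q)` is the partition of `S` given by a functional and a threshold. -/
def Split (S A R Q : Finset V) : Prop :=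
  ∃ (f : Dual ℝ V) (t : ℝ), A = zer S f t ∧ R = pos S f t ∧ Q = neg S f t

/-- The dimension conditions under which the fan colouring exists. -/
structure GoodT (A R Q : Finset V) : Prop where
  a3 : finrank ℝ (dirs A) ≤ 3
  r3 : finrank ℝ (dirs R) ≤ 3
  q3 : finrank ℝ (dirs Q) ≤ 3
  arq : finrank ℝ ↥(dirs A ⊓ dirs R ⊓ dirs Q) ≤ 1
  rq : dirs R = dirs Q → finrank ℝ (dirs R) ≤ 2
  ar : dirs A = dirs R → finrank ℝ (dirs A) ≤ 2
  aq : dirs A = dirs Q → finrank ℝ (dirs A) ≤ 2

/-- Some split of `S` is good. -/
def HasGood (S : Finset V) : Prop := ∃ A R Q : Finset V, Split S A R Q ∧ GoodT A R Q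

/-- Every hyperplane contains at most six points of `S` (for `S` in dimension four). -/
def Hyp6 (S : Finset V) : Prop := ∀ X ⊆ S, finrank ℝ (dirs X) ≤ 3 → X.card ≤ 6

/-- Every four points of `S` are affinely independent. -/
def Gen4 (S : Finset V) : Prop := ∀ X ⊆ S, X.card = 4 → finrank ℝ (dirs X) = 3

end real

end FourCP
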