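import Pool.Agent.Lib.MP_e6820d_co.Tie

/-!
The fan colouring (MP_e6820d_co).
-/

namespace FourCP

open Module

/-- The real functionals used by the fan colouring. -/
structure FanData {m : ℕ} (A R Q : Finset (Fin m → ℝ)) where
  lam : Dual ℝ (Fin m → ℝ)
  mu : Dual ℝ (Fin m → ℝ)
  mu' : Dual ℝ (Fin m → ℝ)
  τ : ℝ
  c : ℝ
  c' : ℝ
  lamA : ∀ x ∈ A, lam x = τ
  lamR : ∀ x ∈ R, τ < lam x
  lamQ : ∀ x ∈ Q, lam x < τ
  muR : ∀ x ∈ R, mu x = c
  muQ : ∀ x ∈ Q, mu' x = c'
  tA : ∀ u : Fin m → ℤ, lam (emb u) = τ → ∃ a ∈ A, emb u - a ∈ dirs A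
  tR : ∀ u : Fin m → ℤ, mu (emb u) = c → ∃ r ∈ R, emb u - r ∈ dirs R
  tQ : ∀ u : Fin m → ℤ, mu' (emb u) = c' → ∃ q ∈ Q, emb u - q ∈ dirs Q
  dA : finrank ℝ ↥(dirs A ⊓ LinearMap.ker mu ⊓ LinearMap.ker mu') ≤ 1
  dR : finrank ℝ ↥(dirs R ⊓ LinearMap.ker lam ⊓ LinearMap.ker mu') ≤ 1
  dQ : finrank ℝ ↥(dirs Q ⊓ LinearMap.ker lam ⊓ LinearMap.ker mu) ≤ 1

/-- The points of the positive side. -/
private def FanData.Plus {m : ℕ} {A R Q : Finset (Fin m → ℝ)} (D : FanData A R Q)
    (kap : Dual ℝ (Fin m → ℝ)) (u : Fin m → ℤ) : Prop :=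
  D.τ < D.lam (emb u) ∨ (D.lam (emb u) = D.τ ∧
    |D.mu' (emb u) - D.c'| - |D.mu (emb u) - D.c| < kap (emb u))

open Classical in
/-- The colouring. -/
private noncomputable def FanData.col {m : ℕ} {A R Q : Finset (Fin m → ℝ)} (D : FanData A R Q)
    (kap : Dual ℝ (Fin m → ℝ)) (p p' : (Fin m → ℤ) → Fin 3) (u : Fin m → ℤ) : Fin 4 :=
  if D.Plus kap u then
    (if D.c < D.mu (emb u) then 0 else if D.mu (emb u) < D.c then 1
      else if p u = 0 then 0 else if p u = 1 then 1 else 3)
  else
    (if D.c' < D.mu' (emb u) then 2 else if D.mu' (emb u) < D.c' then 3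
      else if p' u = 0 then 2 else if p' u = 1 then 3 else 1)

private theorem fin3_cases (x : Fin 3) (h0 : x ≠ 0) (h1 : x ≠ 1) : x = 2 := by
  fin_cases x
  · exact absurd rfl h0
  · exact absurd rfl h1
  · rfl

private theorem FanData.col_plus {m : ℕ} {A R Q : Finset (Fin m → ℝ)} (D : FanData A R Q)
    (kap : Dual ℝ (Fin m → ℝ)) (p p' : (Fin m → ℤ) → Fin 3) (u : Fin m → ℤ)
    (h : D.Plus kap u) :
    (D.col kap p p' u = 0 ∧ D.c ≤ D.mu (emb u) ∧ (D.mu (emb u) = D.c → p u = 0)) ∨
    (D.col kap p p' u = 1 ∧ D.mu (emb u) ≤ D.c ∧ (D.mu (emb u) = D.c → p u = 1)) ∨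
    (D.col kap p p' u = 3 ∧ D.mu (emb u) = D.c ∧ p u = 2) := by
  have e : D.col kap p p' u = if D.c < D.mu (emb u) then 0 else if D.mu (emb u) < D.c then 1
      else if p u = 0 then 0 else if p u = 1 then 1 else 3 := if_pos h
  by_cases h1 : D.c < D.mu (emb u)
  · refine Or.inl ⟨e.trans (if_pos h1), h1.le, fun h2 => ?_⟩
    rw [h2] at h1
    exact absurd h1 (lt_irrefl _)
  · rw [if_neg h1] at e
    by_cases h2 : D.mu (emb u) < D.c
    · refine Or.inr (Or.inl ⟨e.trans (if_pos h2), h2.le, fun h3 => ?_⟩)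
      rw [h3] at h2
      exact absurd h2 (lt_irrefl _)
    · rw [if_neg h2] at e
      have h3 : D.mu (emb u) = D.c := le_antisymm (not_lt.mp h1) (not_lt.mp h2)
      by_cases h4 : p u = 0
      · exact Or.inl ⟨e.trans (if_pos h4), h3.ge, fun _ => h4⟩
      · rw [if_neg h4] at e
        by_cases h5 : p u = 1
        · exact Or.inr (Or.inl ⟨e.trans (if_pos h5), h3.le, fun _ => h5⟩)
        · rw [if_neg h5] at e
          exact Or.inr (Or.inr ⟨e, h3, fin3_cases _ h4 h5⟩)

private theorem FanData.col_minus {m : ℕ} {A R Q : Finset (Fin m → ℝ)} (D : FanData A R Q)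
    (kap : Dual ℝ (Fin m → ℝ)) (p p' : (Fin m → ℤ) → Fin 3) (u : Fin m → ℤ)
    (h : ¬ D.Plus kap u) :
    (D.col kap p p' u = 2 ∧ D.c' ≤ D.mu' (emb u) ∧ (D.mu' (emb u) = D.c' → p' u = 0)) ∨
    (D.col kap p p' u = 3 ∧ D.mu' (emb u) ≤ D.c' ∧ (D.mu' (emb u) = D.c' → p' u = 1)) ∨
    (D.col kap p p' u = 1 ∧ D.mu' (emb u) = D.c' ∧ p' u = 2) := by
  have e : D.col kap p p' u = if D.c' < D.mu' (emb u) then 2 else if D.mu' (emb u) < D.c' then 3
      else if p' u = 0 then 2 else if p' u = 1 then 3 else 1 := if_neg h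
  by_cases h1 : D.c' < D.mu' (emb u)
  · refine Or.inl ⟨e.trans (if_pos h1), h1.le, fun h2 => ?_⟩
    rw [h2] at h1
    exact absurd h1 (lt_irrefl _)
  · rw [if_neg h1] at e
    by_cases h2 : D.mu' (emb u) < D.c'
    · refine Or.inr (Or.inl ⟨e.trans (if_pos h2), h2.le, fun h3 => ?_⟩)
      rw [h3] at h2
      exact absurd h2 (lt_irrefl _)
    · rw [if_neg h2] at e
      have h3 : D.mu' (emb u) = D.c' := le_antisymm (not_lt.mp h1) (not_lt.mp h2)
      by_cases h4 : p' u = 0
      · exact Or.inl ⟨e.trans (if_pos h4), h3.ge, fun _ => h4⟩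
      · rw [if_neg h4] at e
        by_cases h5 : p' u = 1
        · exact Or.inr (Or.inl ⟨e.trans (if_pos h5), h3.le, fun _ => h5⟩)
        · rw [if_neg h5] at e
          exact Or.inr (Or.inr ⟨e, h3, fin3_cases _ h4 h5⟩)

private theorem FanData.plus_le {m : ℕ} {A R Q : Finset (Fin m → ℝ)} (D : FanData A R Q)
    (kap : Dual ℝ (Fin m → ℝ)) (u : Fin m → ℤ) (h : D.Plus kap u) :
    D.τ ≤ D.lam (emb u) := by
  rcases h with h | h
  · exact h.le
  · exact h.1.ge

private theorem FanData.minus_le {m : ℕ} {A R Q : Finset (Fin m → ℝ)} (D : FanData A R Q)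
    (kap : Dual ℝ (Fin m → ℝ)) (u : Fin m → ℤ) (h : ¬ D.Plus kap u) :
    D.lam (emb u) ≤ D.τ ∧ (D.lam (emb u) = D.τ →
      kap (emb u) ≤ |D.mu' (emb u) - D.c'| - |D.mu (emb u) - D.c|) := by
  unfold FanData.Plus at h
  push Not at h
  exact ⟨h.1, h.2⟩

/-- Points on the wall with bounded functionals. -/
private theorem FanData.finA {m : ℕ} {A R Q : Finset (Fin m → ℝ)} (D : FanData A R Q)
    (kap : Dual ℝ (Fin m → ℝ))
    (hkap : dirs A ⊓ LinearMap.ker D.mu ⊓ LinearMap.ker D.mu' ⊓ LinearMap.ker kap = ⊥)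
    (s : Fin m → ℤ) (hs : emb s ∈ A) (T : Set (Fin m → ℤ)) (B : ℝ)
    (hB : ∀ u ∈ T, D.lam (emb u) = D.τ ∧ |D.mu (emb u)| ≤ B ∧ |D.mu' (emb u)| ≤ B ∧
      |kap (emb u)| ≤ B) : T.Finite := by
  refine (finite_three (dirs A) (emb s) D.mu D.mu' kap hkap B).subset ?_
  intro u hu
  obtain ⟨h1, h2, h3, h4⟩ := hB u hu
  obtain ⟨a, ha, h5⟩ := D.tA u h1
  refine ⟨?_, h2, h3, h4⟩
  have h6 := (dirs A).add_mem h5 (sub_mem_dirs ha hs)
  rw [sub_add_sub_cancel] at h6
  exact h6

private theorem refl_refl {m : ℕ} (s u : Fin m → ℤ) : s + s - (s + s - u) = u := by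
  abel

theorem fanColour {m : ℕ} {A R Q : Finset (Fin m → ℝ)} (D : FanData A R Q) :
    ∃ χ : (Fin m → ℤ) → Fin 4, ∀ s : Fin m → ℤ, (emb s ∈ A ∨ emb s ∈ R ∨ emb s ∈ Q) →
      {u : Fin m → ℤ | χ u = χ (s + s - u)}.Finite := by
  obtain ⟨kap, hkap⟩ := exists_dual_of_finrank_le_one _ D.dA
  obtain ⟨p, P1, P2, P3⟩ := tie R D.lam D.mu D.mu' D.τ D.c D.tR D.dR
  have hkn : LinearMap.ker (-D.lam) = LinearMap.ker D.lam := by
    ext x
    rw [LinearMap.mem_ker, LinearMap.mem_ker, LinearMap.neg_apply, neg_eq_zero]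
  have hd' : finrank ℝ ↥(dirs Q ⊓ LinearMap.ker (-D.lam) ⊓ LinearMap.ker D.mu) ≤ 1 := by
    rw [hkn]
    exact D.dQ
  obtain ⟨p', P1', P2', P3'⟩ := tie Q (-D.lam) D.mu' D.mu (-D.τ) D.c' D.tQ hd'
  refine ⟨D.col kap p p', fun s hs => ?_⟩
  -- the two mixed cases
  have mix : {u : Fin m → ℤ | D.Plus kap u ∧ ¬ D.Plus kap (s + s - u) ∧
      D.col kap p p' u = D.col kap p p' (s + s - u)}.Finite := by
    have f1 := P2 s D.c'
    have f2 := (P2' s D.c).preimage (f := fun u => s + s - u)
      (sub_right_injective.injOn)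
    refine (f1.union f2).subset ?_
    rintro u ⟨h1, h2, h3⟩
    have l1 := D.plus_le kap u h1
    have l2 := (D.minus_le kap _ h2).1
    rcases D.col_plus kap p p' u h1 with a | a | a
    · exfalso
      rw [a.1] at h3
      rcases D.col_minus kap p p' _ h2 with b | b | b
      · rw [b.1] at h3
        exact absurd h3 (by decide)
      · rw [b.1] at h3
        exact absurd h3 (by decide)
      · rw [b.1] at h3
        exact absurd h3 (by decide)
    · rw [a.1] at h3
      rcases D.col_minus kap p p' _ h2 with b | b | b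
      · rw [b.1] at h3
        exact absurd h3 (by decide)
      · rw [b.1] at h3
        exact absurd h3 (by decide)
      · refine Or.inr ?_
        refine ⟨b.2.1, ?_, b.2.2, ?_⟩
        · rw [LinearMap.neg_apply]
          exact neg_le_neg l2
        · rw [refl_refl]
          exact a.2.1
    · rw [a.1] at h3
      rcases D.col_minus kap p p' _ h2 with b | b | b
      · rw [b.1] at h3
        exact absurd h3 (by decide)
      · exact Or.inl ⟨a.2.1, l1, a.2.2, b.2.1⟩
      · rw [b.1] at h3
        exact absurd h3 (by decide)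
  have mix' : {u : Fin m → ℤ | ¬ D.Plus kap u ∧ D.Plus kap (s + s - u) ∧
      D.col kap p p' u = D.col kap p p' (s + s - u)}.Finite := by
    refine (mix.preimage (f := fun u => s + s - u) (sub_right_injective.injOn)).subset ?_
    rintro u ⟨h1, h2, h3⟩
    refine ⟨h2, ?_, ?_⟩
    · rw [refl_refl]
      exact h1
    · rw [refl_refl]
      exact h3.symm
  -- the pure cases
  have pp : {u : Fin m → ℤ | D.Plus kap u ∧ D.Plus kap (s + s - u) ∧
      D.col kap p p' u = D.col kap p p' (s + s - u)}.Finite := by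
    rcases hs with hs | hs | hs
    · -- `s ∈ A`
      have f1 := P3 s
      let T : Set (Fin m → ℤ) := {u | D.Plus kap u ∧ D.Plus kap (s + s - u) ∧
        |D.mu (emb u) - D.c| ≤ |2 * D.mu (emb s) - 2 * D.c| ∧
        |D.mu (emb (s + s - u)) - D.c| ≤ |2 * D.mu (emb s) - 2 * D.c|}
      have f2 : T.Finite := by
        refine D.finA kap hkap s hs T (|D.c| + |D.c'| + 2 * |kap (emb s)| +
          2 * |2 * D.mu (emb s) - 2 * D.c|) ?_
        rintro u ⟨h1, h2, h3, h4⟩
        have l1 := D.plus_le kap u h1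
        have l2 := D.plus_le kap _ h2
        have l3 := D.lamA _ hs
        have l4 := dual_refl D.lam s u
        have l5 : D.lam (emb u) = D.τ := by linarith
        have l6 : D.lam (emb (s + s - u)) = D.τ := by linarith
        have k1 : |D.mu' (emb u) - D.c'| - |D.mu (emb u) - D.c| < kap (emb u) := by
          rcases h1 with h1 | h1
          · rw [l5] at h1
            exact absurd h1 (lt_irrefl _)
          · exact h1.2
        have k2 : |D.mu' (emb (s + s - u)) - D.c'| - |D.mu (emb (s + s - u)) - D.c| <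
            kap (emb (s + s - u)) := by
          rcases h2 with h2 | h2
          · rw [l6] at h2
            exact absurd h2 (lt_irrefl _)
          · exact h2.2
        have k3 := dual_refl kap s u
        have a1 := abs_nonneg (D.mu' (emb u) - D.c')
        have a2 := abs_nonneg (D.mu' (emb (s + s - u)) - D.c')
        have a3 := le_abs_self (kap (emb s))
        have a4 := neg_abs_le (kap (emb s))
        have a5 := le_abs_self (D.mu (emb u) - D.c)
        have a6 := neg_abs_le (D.mu (emb u) - D.c)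
        have a7 := le_abs_self (D.mu' (emb u) - D.c')
        have a8 := neg_abs_le (D.mu' (emb u) - D.c')
        have a9 := le_abs_self D.c
        have a10 := neg_abs_le D.c
        have a11 := le_abs_self D.c'
        have a12 := neg_abs_le D.c'
        have a13 := abs_nonneg (2 * D.mu (emb s) - 2 * D.c)
        have a14 := abs_nonneg D.c
        have a15 := abs_nonneg D.c'
        have a16 := abs_nonneg (kap (emb s))
        refine ⟨l5, abs_le.mpr ⟨by linarith, by linarith⟩, abs_le.mpr ⟨by linarith, by linarith⟩,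
          abs_le.mpr ⟨by linarith, by linarith⟩⟩
      refine (f1.union f2).subset ?_
      rintro u ⟨h1, h2, h3⟩
      have l1 := D.plus_le kap u h1
      have m1 := dual_refl D.mu s u
      have a1 := le_abs_self (2 * D.mu (emb s) - 2 * D.c)
      have a2 := neg_abs_le (2 * D.mu (emb s) - 2 * D.c)
      have a3 := abs_nonneg (2 * D.mu (emb s) - 2 * D.c)
      rcases D.col_plus kap p p' u h1 with a | a | a
      · rcases D.col_plus kap p p' _ h2 with b | b | b
        · refine Or.inr ⟨h1, h2, abs_le.mpr ⟨by linarith [a.2.1], by linarith [b.2.1]⟩,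
            abs_le.mpr ⟨by linarith [b.2.1], by linarith [a.2.1]⟩⟩
        · rw [a.1, b.1] at h3
          exact absurd h3 (by decide)
        · rw [a.1, b.1] at h3
          exact absurd h3 (by decide)
      · rcases D.col_plus kap p p' _ h2 with b | b | b
        · rw [a.1, b.1] at h3
          exact absurd h3 (by decide)
        · refine Or.inr ⟨h1, h2, abs_le.mpr ⟨by linarith [b.2.1], by linarith [a.2.1]⟩,
            abs_le.mpr ⟨by linarith [a.2.1], by linarith [b.2.1]⟩⟩
        · rw [a.1, b.1] at h3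
          exact absurd h3 (by decide)
      · rcases D.col_plus kap p p' _ h2 with b | b | b
        · rw [a.1, b.1] at h3
          exact absurd h3 (by decide)
        · rw [a.1, b.1] at h3
          exact absurd h3 (by decide)
        · exact Or.inl ⟨a.2.1, l1, a.2.2, b.2.2⟩
    · -- `s ∈ R`
      refine (P1 s hs).subset ?_
      rintro u ⟨h1, h2, h3⟩
      have l1 := D.plus_le kap u h1
      have l2 := D.plus_le kap _ h2
      have m1 := dual_refl D.mu s u
      have m2 := D.muR _ hs
      rcases D.col_plus kap p p' u h1 with a | a | a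
      · rcases D.col_plus kap p p' _ h2 with b | b | b
        · have e1 : D.mu (emb u) = D.c := by linarith [a.2.1, b.2.1]
          have e2 : D.mu (emb (s + s - u)) = D.c := by linarith [a.2.1, b.2.1]
          exact ⟨e1, l1, l2, (a.2.2 e1).trans (b.2.2 e2).symm⟩
        · rw [a.1, b.1] at h3
          exact absurd h3 (by decide)
        · rw [a.1, b.1] at h3
          exact absurd h3 (by decide)
      · rcases D.col_plus kap p p' _ h2 with b | b | b
        · rw [a.1, b.1] at h3
          exact absurd h3 (by decide)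
        · have e1 : D.mu (emb u) = D.c := by linarith [a.2.1, b.2.1]
          have e2 : D.mu (emb (s + s - u)) = D.c := by linarith [a.2.1, b.2.1]
          exact ⟨e1, l1, l2, (a.2.2 e1).trans (b.2.2 e2).symm⟩
        · rw [a.1, b.1] at h3
          exact absurd h3 (by decide)
      · rcases D.col_plus kap p p' _ h2 with b | b | b
        · rw [a.1, b.1] at h3
          exact absurd h3 (by decide)
        · rw [a.1, b.1] at h3
          exact absurd h3 (by decide)
        · exact ⟨a.2.1, l1, l2, a.2.2.trans b.2.2.symm⟩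
    · -- `s ∈ Q`
      refine Set.finite_empty.subset ?_
      rintro u ⟨h1, h2, -⟩
      have l1 := D.plus_le kap u h1
      have l2 := D.plus_le kap _ h2
      have l3 := D.lamQ _ hs
      have l4 := dual_refl D.lam s u
      exfalso
      linarith
  have mm : {u : Fin m → ℤ | ¬ D.Plus kap u ∧ ¬ D.Plus kap (s + s - u) ∧
      D.col kap p p' u = D.col kap p p' (s + s - u)}.Finite := by
    rcases hs with hs | hs | hs
    · -- `s ∈ A`
      have f1 := P3' s
      let T : Set (Fin m → ℤ) := {u | ¬ D.Plus kap u ∧ ¬ D.Plus kap (s + s - u) ∧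
        |D.mu' (emb u) - D.c'| ≤ |2 * D.mu' (emb s) - 2 * D.c'| ∧
        |D.mu' (emb (s + s - u)) - D.c'| ≤ |2 * D.mu' (emb s) - 2 * D.c'|}
      have f2 : T.Finite := by
        refine D.finA kap hkap s hs T (|D.c| + |D.c'| + 2 * |kap (emb s)| +
          2 * |2 * D.mu' (emb s) - 2 * D.c'|) ?_
        rintro u ⟨h1, h2, h3, h4⟩
        obtain ⟨l1, k1⟩ := D.minus_le kap u h1
        obtain ⟨l2, k2⟩ := D.minus_le kap _ h2
        have l3 := D.lamA _ hs
        have l4 := dual_refl D.lam s u
        have l5 : D.lam (emb u) = D.τ := by linarith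
        have l6 : D.lam (emb (s + s - u)) = D.τ := by linarith
        have k1' := k1 l5
        have k2' := k2 l6
        have k3 := dual_refl kap s u
        have a1 := abs_nonneg (D.mu (emb u) - D.c)
        have a2 := abs_nonneg (D.mu (emb (s + s - u)) - D.c)
        have a3 := le_abs_self (kap (emb s))
        have a4 := neg_abs_le (kap (emb s))
        have a5 := le_abs_self (D.mu (emb u) - D.c)
        have a6 := neg_abs_le (D.mu (emb u) - D.c)
        have a7 := le_abs_self (D.mu' (emb u) - D.c')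
        have a8 := neg_abs_le (D.mu' (emb u) - D.c')
        have a9 := le_abs_self D.c
        have a10 := neg_abs_le D.c
        have a11 := le_abs_self D.c'
        have a12 := neg_abs_le D.c'
        have a13 := abs_nonneg (2 * D.mu' (emb s) - 2 * D.c')
        have a14 := abs_nonneg D.c
        have a15 := abs_nonneg D.c'
        have a16 := abs_nonneg (kap (emb s))
        refine ⟨l5, abs_le.mpr ⟨by linarith, by linarith⟩, abs_le.mpr ⟨by linarith, by linarith⟩,
          abs_le.mpr ⟨by linarith, by linarith⟩⟩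
      refine (f1.union f2).subset ?_
      rintro u ⟨h1, h2, h3⟩
      have l1 := (D.minus_le kap u h1).1
      have m1 := dual_refl D.mu' s u
      have a1 := le_abs_self (2 * D.mu' (emb s) - 2 * D.c')
      have a2 := neg_abs_le (2 * D.mu' (emb s) - 2 * D.c')
      have a3 := abs_nonneg (2 * D.mu' (emb s) - 2 * D.c')
      rcases D.col_minus kap p p' u h1 with a | a | a
      · rcases D.col_minus kap p p' _ h2 with b | b | b
        · refine Or.inr ⟨h1, h2, abs_le.mpr ⟨by linarith [a.2.1], by linarith [b.2.1]⟩,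
            abs_le.mpr ⟨by linarith [b.2.1], by linarith [a.2.1]⟩⟩
        · rw [a.1, b.1] at h3
          exact absurd h3 (by decide)
        · rw [a.1, b.1] at h3
          exact absurd h3 (by decide)
      · rcases D.col_minus kap p p' _ h2 with b | b | b
        · rw [a.1, b.1] at h3
          exact absurd h3 (by decide)
        · refine Or.inr ⟨h1, h2, abs_le.mpr ⟨by linarith [b.2.1], by linarith [a.2.1]⟩,
            abs_le.mpr ⟨by linarith [a.2.1], by linarith [b.2.1]⟩⟩
        · rw [a.1, b.1] at h3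
          exact absurd h3 (by decide)
      · rcases D.col_minus kap p p' _ h2 with b | b | b
        · rw [a.1, b.1] at h3
          exact absurd h3 (by decide)
        · rw [a.1, b.1] at h3
          exact absurd h3 (by decide)
        · refine Or.inl ⟨a.2.1, ?_, a.2.2, b.2.2⟩
          rw [LinearMap.neg_apply]
          exact neg_le_neg l1
    · -- `s ∈ R`
      refine Set.finite_empty.subset ?_
      rintro u ⟨h1, h2, -⟩
      have l1 := (D.minus_le kap u h1).1
      have l2 := (D.minus_le kap _ h2).1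
      have l3 := D.lamR _ hs
      have l4 := dual_refl D.lam s u
      exfalso
      linarith
    · -- `s ∈ Q`
      refine (P1' s hs).subset ?_
      rintro u ⟨h1, h2, h3⟩
      have l1 := (D.minus_le kap u h1).1
      have l2 := (D.minus_le kap _ h2).1
      have m1 := dual_refl D.mu' s u
      have m2 := D.muQ _ hs
      have l1' : -D.τ ≤ (-D.lam) (emb u) := by
        rw [LinearMap.neg_apply]
        exact neg_le_neg l1
      have l2' : -D.τ ≤ (-D.lam) (emb (s + s - u)) := by
        rw [LinearMap.neg_apply]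
        exact neg_le_neg l2
      rcases D.col_minus kap p p' u h1 with a | a | a
      · rcases D.col_minus kap p p' _ h2 with b | b | b
        · have e1 : D.mu' (emb u) = D.c' := by linarith [a.2.1, b.2.1]
          have e2 : D.mu' (emb (s + s - u)) = D.c' := by linarith [a.2.1, b.2.1]
          exact ⟨e1, l1', l2', (a.2.2 e1).trans (b.2.2 e2).symm⟩
        · rw [a.1, b.1] at h3
          exact absurd h3 (by decide)
        · rw [a.1, b.1] at h3
          exact absurd h3 (by decide)
      · rcases D.col_minus kap p p' _ h2 with b | b | b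
        · rw [a.1, b.1] at h3
          exact absurd h3 (by decide)
        · have e1 : D.mu' (emb u) = D.c' := by linarith [a.2.1, b.2.1]
          have e2 : D.mu' (emb (s + s - u)) = D.c' := by linarith [a.2.1, b.2.1]
          exact ⟨e1, l1', l2', (a.2.2 e1).trans (b.2.2 e2).symm⟩
        · rw [a.1, b.1] at h3
          exact absurd h3 (by decide)
      · rcases D.col_minus kap p p' _ h2 with b | b | b
        · rw [a.1, b.1] at h3
          exact absurd h3 (by decide)
        · rw [a.1, b.1] at h3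
          exact absurd h3 (by decide)
        · exact ⟨a.2.1, l1', l2', a.2.2.trans b.2.2.symm⟩
  refine ((pp.union mm).union (mix.union mix')).subset ?_
  intro u hu
  by_cases h1 : D.Plus kap u
  · by_cases h2 : D.Plus kap (s + s - u)
    · exact Or.inl (Or.inl ⟨h1, h2, hu⟩)
    · exact Or.inr (Or.inl ⟨h1, h2, hu⟩)
  · by_cases h2 : D.Plus kap (s + s - u)
    · exact Or.inr (Or.inr ⟨h1, h2, hu⟩)
    · exact Or.inl (Or.inr ⟨h1, h2, hu⟩)

end FourCP
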