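import Pool.Agent.Lib.MP_e6820d_co.Defs

/-!
Finiteness of the set of lattice points in a coset of a subspace on which three separating
functionals are bounded (MP_e6820d_co).
-/

namespace FourCP

open Module

theorem finite_three {m : ℕ} (W : Submodule ℝ (Fin m → ℝ)) (a : Fin m → ℝ)
    (f g h : Dual ℝ (Fin m → ℝ))
    (hW : W ⊓ LinearMap.ker f ⊓ LinearMap.ker g ⊓ LinearMap.ker h = ⊥) (B : ℝ) :
    {u : Fin m → ℤ | emb u - a ∈ W ∧ |f (emb u)| ≤ B ∧ |g (emb u)| ≤ B ∧
      |h (emb u)| ≤ B}.Finite := by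
  let φ : W →ₗ[ℝ] (ℝ × ℝ × ℝ) := ((f.prod (g.prod h)).comp W.subtype)
  have hφ : LinearMap.ker φ = ⊥ := by
    rw [LinearMap.ker_eq_bot']
    intro w hw
    have h1 : f (w : Fin m → ℝ) = 0 := congrArg Prod.fst hw
    have h2 : g (w : Fin m → ℝ) = 0 := congrArg (fun z => z.2.1) hw
    have h3 : h (w : Fin m → ℝ) = 0 := congrArg (fun z => z.2.2) hw
    have h4 : (w : Fin m → ℝ) ∈ W ⊓ LinearMap.ker f ⊓ LinearMap.ker g ⊓ LinearMap.ker h :=
      ⟨⟨⟨w.2, h1⟩, h2⟩, h3⟩
    rw [hW, Submodule.mem_bot] at h4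
    exact Subtype.ext h4
  obtain ⟨K, hK, hanti⟩ := LinearMap.exists_antilipschitzWith φ hφ
  let C : ℝ := B + (|f a| + |g a| + |h a|)
  let N : ℝ := K * C + ‖a‖
  refine (Set.finite_Icc (fun _ : Fin m => -(⌈N⌉ : ℤ)) (fun _ => ⌈N⌉)).subset ?_
  rintro u ⟨hu, hf, hg, hh⟩
  have hn : ‖emb u - a‖ ≤ K * C := by
    have h1 := hanti.le_mul_dist ⟨emb u - a, hu⟩ 0
    rw [map_zero, dist_zero_right, dist_zero_right] at h1
    refine h1.trans ?_
    refine mul_le_mul_of_nonneg_left ?_ K.2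
    have hfa := abs_nonneg (f a)
    have hga := abs_nonneg (g a)
    have hha := abs_nonneg (h a)
    have e1 : ‖f (emb u - a)‖ ≤ C := by
      rw [map_sub, Real.norm_eq_abs]
      have := abs_sub (f (emb u)) (f a)
      change _ ≤ B + (|f a| + |g a| + |h a|)
      linarith
    have e2 : ‖g (emb u - a)‖ ≤ C := by
      rw [map_sub, Real.norm_eq_abs]
      have := abs_sub (g (emb u)) (g a)
      change _ ≤ B + (|f a| + |g a| + |h a|)
      linarith
    have e3 : ‖h (emb u - a)‖ ≤ C := by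
      rw [map_sub, Real.norm_eq_abs]
      have := abs_sub (h (emb u)) (h a)
      change _ ≤ B + (|f a| + |g a| + |h a|)
      linarith
    exact max_le e1 (max_le e2 e3)
  have hb : ∀ i, |(u i : ℝ)| ≤ N := by
    intro i
    have h1 : |(emb u - a) i| ≤ K * C := (norm_le_pi_norm (emb u - a) i).trans hn
    have h2 : |a i| ≤ ‖a‖ := norm_le_pi_norm a i
    have h3 : (u i : ℝ) = (emb u - a) i + a i := by
      rw [Pi.sub_apply, sub_add_cancel]
      rfl
    rw [h3]
    exact (abs_add_le _ _).trans (add_le_add h1 h2)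
  constructor
  · intro i
    have h1 := (abs_le.mp (hb i)).1
    have h2 : (-(⌈N⌉ : ℤ) : ℝ) ≤ (u i : ℝ) := by
      have := Int.le_ceil N
      linarith
    exact_mod_cast h2
  · intro i
    have h1 := (abs_le.mp (hb i)).2
    have h2 : (u i : ℝ) ≤ ((⌈N⌉ : ℤ) : ℝ) := h1.trans (Int.le_ceil N)
    exact_mod_cast h2

/-- A subspace of dimension at most one is separated by one functional. -/
theorem exists_dual_of_finrank_le_one {V : Type*} [AddCommGroup V] [Module ℝ V]
    [FiniteDimensional ℝ V] (W : Submodule ℝ V) (hW : finrank ℝ W ≤ 1) :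
    ∃ f : Dual ℝ V, W ⊓ LinearMap.ker f = ⊥ := by
  obtain ⟨w, hw⟩ := finrank_le_one_iff.1 hW
  by_cases h0 : (w : V) = 0
  · refine ⟨0, ?_⟩
    rw [eq_bot_iff]
    rintro x ⟨hx, -⟩
    obtain ⟨c, hc⟩ := hw ⟨x, hx⟩
    have h1 : c • (w : V) = x := congrArg Subtype.val hc
    rw [h0, smul_zero] at h1
    exact h1.symm
  · obtain ⟨f, hf⟩ : ∃ f : Dual ℝ V, f (w : V) ≠ 0 := by
      by_contra hne
      push Not at hne
      exact h0 ((Module.forall_dual_apply_eq_zero_iff ℝ (w : V)).mp hne)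
    refine ⟨f, ?_⟩
    rw [eq_bot_iff]
    rintro x ⟨hx, hx'⟩
    obtain ⟨c, hc⟩ := hw ⟨x, hx⟩
    have h1 : c • (w : V) = x := congrArg Subtype.val hc
    have h2 : f x = 0 := hx'
    rw [← h1, map_smul, smul_eq_mul] at h2
    rcases mul_eq_zero.mp h2 with h3 | h3
    · rw [h3, zero_smul] at h1
      exact h1.symm
    · exact absurd h3 hf

end FourCP
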