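import Pool.Agent.Lib.MP_e6820d_co.Main

/-!
The numbers `c_4(ℤ^n)` and `c_4(ℤ^ω)` (MP_e6820d_co).
-/

namespace FourCP

open Module

/-- The image of a centerpole set under an injective homomorphism is centerpole. -/
theorem Centerpole.map {k : ℕ} {G H : Type*} [AddCommGroup G] [AddCommGroup H] (j : G →+ H)
    (hj : Function.Injective j) {C : Set G} (hC : Centerpole k C) : Centerpole k (j '' C) := by
  intro χ
  obtain ⟨c, hc, S, hS, hsym, i, hi⟩ := hC (fun g => χ (j g))
  refine ⟨j c, ⟨c, hc, rfl⟩, j '' S, hS.image hj.injOn, ?_, i, ?_⟩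
  · have h1 : (fun x => x - j c) '' (j '' S) = j '' ((fun x => x - c) '' S) := by
      rw [Set.image_image, Set.image_image]
      simp only [map_sub]
    have h2 : (fun x => j c - x) '' (j '' S) = j '' ((fun x => c - x) '' S) := by
      rw [Set.image_image, Set.image_image]
      simp only [map_sub]
    rw [h1, h2, hsym]
  · rintro _ ⟨x, hx, rfl⟩
    exact hi x hx

/-- `c_k` does not increase along injective homomorphisms. -/
theorem centerNum_le_of_injective {k : ℕ} {G H : Type*} [AddCommGroup G] [AddCommGroup H]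
    (j : G →+ H) (hj : Function.Injective j) : centerNum k H ≤ centerNum k G := by
  unfold centerNum
  refine le_iInf₂ fun C hC => ?_
  refine (iInf₂_le (j '' C) (hC.map j hj)).trans ?_
  rw [hj.encard_image]

/-- In `ℤ^m` a set with at most eleven points is not 4-centerpole. -/
theorem twelve_le_of_centerpole {m : ℕ} {C : Set (Fin m → ℤ)} (hC : Centerpole 4 C) :
    (12 : ℕ∞) ≤ C.encard := by
  by_contra h
  have h1 : C.encard < 12 := not_le.1 h
  have h2 : C.Finite := by
    rw [← Set.encard_lt_top_iff]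
    exact h1.trans (by decide)
  have h3 : h2.toFinset.card ≤ 11 := by
    rw [h2.encard_eq_coe_toFinset_card] at h1
    have : h2.toFinset.card < 12 := by exact_mod_cast h1
    omega
  obtain ⟨χ, hχ⟩ := colour h2.toFinset h3
  refine not_centerpole_of_colouring χ (fun s hs => hχ s ?_) hC
  exact h2.mem_toFinset.2 hs

/-- A choice of sign on the nonzero elements of a group without elements of order two. -/
theorem exists_antisymm (G : Type*) [AddCommGroup G] (hG : ∀ w : G, w ≠ 0 → -w ≠ w) :
    ∃ σ : G → Fin 4, ∀ w : G, w ≠ 0 → σ w ≠ σ (-w) := by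
  classical
  refine ⟨fun w => if WellOrderingRel w (-w) then 0 else 1, fun w hw => ?_⟩
  have h1 := hG w hw
  simp only [neg_neg]
  rcases trichotomous_of WellOrderingRel w (-w) with h | h | h
  · have h2 : ¬ WellOrderingRel (-w) w := asymm_of WellOrderingRel h
    simp [h, h2]
  · exact absurd h.symm h1
  · have h2 : ¬ WellOrderingRel w (-w) := asymm_of WellOrderingRel h
    simp [h, h2]

/-- In a free abelian group of any rank a set with at most eleven points is not 4-centerpole. -/
theorem twelve_le_of_centerpole_finsupp {ι : Type*} {C : Set (ι →₀ ℤ)} (hC : Centerpole 4 C) :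
    (12 : ℕ∞) ≤ C.encard := by
  classical
  by_contra h
  have h1 : C.encard < 12 := not_le.1 h
  have h2 : C.Finite := by
    rw [← Set.encard_lt_top_iff]
    exact h1.trans (by decide)
  have h3 : h2.toFinset.card ≤ 11 := by
    rw [h2.encard_eq_coe_toFinset_card] at h1
    have : h2.toFinset.card < 12 := by exact_mod_cast h1
    omega
  -- the finitely many coordinates that occur
  set F : Finset ι := h2.toFinset.biUnion (fun c => c.support) with hF
  have hsupp : ∀ c ∈ C, ∀ i, i ∉ F → c i = 0 := by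
    intro c hc i hi
    by_contra hne
    exact hi (Finset.mem_biUnion.2 ⟨c, h2.mem_toFinset.2 hc, Finsupp.mem_support_iff.2 hne⟩)
  set e := F.equivFin with he
  let ρ : (ι →₀ ℤ) → (Fin F.card → ℤ) := fun u i => u (e.symm i)
  let w : (ι →₀ ℤ) → (ι →₀ ℤ) := fun u => u.filter (fun i => i ∉ F)
  have hw : ∀ s ∈ C, ∀ u, w (s + s - u) = - w u := by
    intro s hs u
    ext i
    by_cases hi : i ∈ F
    · simp [w, Finsupp.filter_apply, hi]
    · simp [w, Finsupp.filter_apply, hi, hsupp s hs i hi]
  have hρ : ∀ s u, ρ (s + s - u) = ρ s + ρ s - ρ u := by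
    intro s u
    ext i
    simp [ρ]
  have hinj : ∀ u v, w u = 0 → w v = 0 → ρ u = ρ v → u = v := by
    intro u v hu hv huv
    ext i
    by_cases hi : i ∈ F
    · have := congrFun huv (e ⟨i, hi⟩)
      simpa [ρ] using this
    · have h4 := DFunLike.congr_fun hu i
      have h5 := DFunLike.congr_fun hv i
      simp only [w, Finsupp.filter_apply, hi, not_false_eq_true, if_true,
        Finsupp.coe_zero, Pi.zero_apply] at h4 h5
      rw [h4, h5]
  obtain ⟨χ₀, hχ₀⟩ := colour (h2.toFinset.image ρ) (Finset.card_image_le.trans h3)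
  have hanti : ∀ w : ι →₀ ℤ, w ≠ 0 → -w ≠ w := by
    intro w hw h
    apply hw
    ext i
    have := DFunLike.congr_fun h i
    simp only [Finsupp.coe_neg, Pi.neg_apply] at this
    simp only [Finsupp.coe_zero, Pi.zero_apply]
    omega
  obtain ⟨σ, hσ⟩ := exists_antisymm (ι →₀ ℤ) hanti
  refine not_centerpole_of_colouring (fun u => if w u = 0 then χ₀ (ρ u) else σ (w u)) ?_ hC
  intro s hs
  have hs' : ρ s ∈ h2.toFinset.image ρ := Finset.mem_image_of_mem _ (h2.mem_toFinset.2 hs)
  have hfin := hχ₀ _ hs'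
  refine Set.Finite.of_finite_image (f := ρ) (hfin.subset ?_) ?_
  · rintro _ ⟨u, hu, rfl⟩
    simp only [Set.mem_setOf_eq] at hu ⊢
    rw [hw s hs u] at hu
    by_cases h0 : w u = 0
    · simp only [h0, neg_zero, if_true] at hu
      rw [hρ] at hu
      exact hu
    · exfalso
      have h00 : - w u ≠ 0 := neg_ne_zero.2 h0
      simp only [h0, h00, if_false] at hu
      exact hσ _ h0 hu
  · intro u hu v hv huv
    have key : ∀ u, u ∈ {u : ι →₀ ℤ | (fun u => if w u = 0 then χ₀ (ρ u) else σ (w u)) u =
        (fun u => if w u = 0 then χ₀ (ρ u) else σ (w u)) (s + s - u)} → w u = 0 := by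
      intro u hu
      by_contra h0
      have h00 : - w u ≠ 0 := neg_ne_zero.2 h0
      simp only [Set.mem_setOf_eq] at hu
      rw [hw s hs u] at hu
      simp only [h0, h00, if_false] at hu
      exact hσ _ h0 hu
    exact hinj u v (key u hu) (key v hv) huv

/-- `12 ≤ c_4(ℤ^n)` for every `n`. -/
theorem twelve_le_centerNum (n : ℕ) : (12 : ℕ∞) ≤ centerNum 4 (Fin n → ℤ) :=
  le_iInf₂ fun _ hC => twelve_le_of_centerpole hC

/-- `12 ≤ c_4(ℤ^(ι))` for every `ι`. -/
theorem twelve_le_centerNum_finsupp (ι : Type*) : (12 : ℕ∞) ≤ centerNum 4 (ι →₀ ℤ) :=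
  le_iInf₂ fun _ hC => twelve_le_of_centerpole_finsupp hC

/-- The coordinate embedding of `ℤ^m` in `ℤ^n`. -/
noncomputable def extendHom {m n : ℕ} (h : m ≤ n) : (Fin m → ℤ) →+ (Fin n → ℤ) where
  toFun u := fun i => if hi : (i : ℕ) < m then u ⟨i, hi⟩ else 0
  map_zero' := by
    ext i
    by_cases hi : (i : ℕ) < m <;> simp [hi]
  map_add' u v := by
    ext i
    by_cases hi : (i : ℕ) < m <;> simp [hi]

theorem extendHom_injective {m n : ℕ} (h : m ≤ n) : Function.Injective (extendHom h) := by
  intro u v huv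
  ext i
  have := congrFun huv ⟨i, i.2.trans_le h⟩
  simpa [extendHom] using this

/-- The coordinate embedding of `ℤ^m` in `ℤ^ω`. -/
noncomputable def finsuppHom (m : ℕ) : (Fin m → ℤ) →+ (ℕ →₀ ℤ) :=
  (Finsupp.mapDomain.addMonoidHom (M := ℤ) (fun i : Fin m => (i : ℕ))).comp
    (Finsupp.linearEquivFunOnFinite ℤ ℤ (Fin m)).symm.toAddEquiv.toAddMonoidHom

theorem finsuppHom_injective (m : ℕ) : Function.Injective (finsuppHom m) := by
  intro u v huv
  have h1 : Function.Injective (fun i : Fin m => (i : ℕ)) := Fin.val_injective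
  have h2 := Finsupp.mapDomain_injective (M := ℤ) h1
  apply (Finsupp.linearEquivFunOnFinite ℤ ℤ (Fin m)).symm.injective
  exact h2 huv

end FourCP
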