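import Pool.Agent.Lib.MP_e6820d_co.Basics

/-!
The halving member of a pencil of hyperplanes (MP_e6820d_co).
-/

namespace FourCP

open Module

variable {V : Type*} [AddCommGroup V] [Module ℝ V]

/-- One variable form of the halving statement: `k` is the slope of a point and `s` its
orientation. -/
private theorem half_aux {ι : Type*} (P : Finset ι) (hP : P.Nonempty) (k s : ι → ℝ)
    (hs : ∀ p ∈ P, s p ≠ 0)
    (hm : (P.filter (fun p => s p < 0)).card ≤ (P.filter (fun p => 0 < s p)).card) :
    ∃ p₀ ∈ P, 2 * (P.filter (fun p => 0 < s p * (k p - k p₀))).card ≤ P.card ∧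
      2 * (P.filter (fun p => s p * (k p - k p₀) < 0)).card ≤ P.card := by
  classical
  have hsum : (P.filter (fun p => s p < 0)).card + (P.filter (fun p => 0 < s p)).card =
      P.card := by
    rw [← Finset.card_union_of_disjoint]
    · congr 1
      ext p
      simp only [Finset.mem_union, Finset.mem_filter]
      constructor
      · rintro (h | h) <;> exact h.1
      · intro h
        rcases lt_or_gt_of_ne (hs p h) with h' | h'
        · exact Or.inl ⟨h, h'⟩
        · exact Or.inr ⟨h, h'⟩
    · rw [Finset.disjoint_left]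
      intro p h1 h2
      rw [Finset.mem_filter] at h1 h2
      linarith [h1.2, h2.2]
  set good : ι → Prop := fun q =>
    2 * (P.filter (fun p => (0 < s p ∧ k q < k p) ∨ (s p < 0 ∧ k p ≤ k q))).card ≤ P.card
    with hgood
  have hne : (P.filter good).Nonempty := by
    obtain ⟨q, hq, hmax⟩ := P.exists_max_image k hP
    refine ⟨q, Finset.mem_filter.mpr ⟨hq, ?_⟩⟩
    have hsub : (P.filter (fun p => (0 < s p ∧ k q < k p) ∨ (s p < 0 ∧ k p ≤ k q))) ⊆
        P.filter (fun p => s p < 0) := by
      intro p hp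
      rw [Finset.mem_filter] at hp ⊢
      rcases hp.2 with h | h
      · exact absurd (hmax p hp.1) (not_le.mpr h.2)
      · exact ⟨hp.1, h.1⟩
    have := Finset.card_le_card hsub
    rw [hgood]
    omega
  obtain ⟨p₀, hp₀, hmin⟩ := (P.filter good).exists_min_image k hne
  rw [Finset.mem_filter] at hp₀
  refine ⟨p₀, hp₀.1, ?_, ?_⟩
  · have hsub : (P.filter (fun p => 0 < s p * (k p - k p₀))) ⊆
        (P.filter (fun p => (0 < s p ∧ k p₀ < k p) ∨ (s p < 0 ∧ k p ≤ k p₀))) := by
      intro p hp
      rw [Finset.mem_filter] at hp ⊢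
      refine ⟨hp.1, ?_⟩
      rcases pos_and_pos_or_neg_and_neg_of_mul_pos hp.2 with h | h
      · exact Or.inl ⟨h.1, by linarith [h.2]⟩
      · exact Or.inr ⟨h.1, by linarith [h.2]⟩
    have h1 := Finset.card_le_card hsub
    have h2 := hp₀.2
    have h3 : 2 * (P.filter (fun p => (0 < s p ∧ k p₀ < k p) ∨ (s p < 0 ∧ k p ≤ k p₀))).card ≤
        P.card := h2
    omega
  · by_cases hex : (P.filter (fun p => k p < k p₀)).Nonempty
    · obtain ⟨p₁, hp₁, hmax⟩ := (P.filter (fun p => k p < k p₀)).exists_max_image k hex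
      rw [Finset.mem_filter] at hp₁
      have hnot : ¬ good p₁ := by
        intro h
        have := hmin p₁ (Finset.mem_filter.mpr ⟨hp₁.1, h⟩)
        linarith [hp₁.2]
      have hnot' : ¬ 2 * (P.filter (fun p => (0 < s p ∧ k p₁ < k p) ∨
          (s p < 0 ∧ k p ≤ k p₁))).card ≤ P.card := hnot
      have hdisj : Disjoint (P.filter (fun p => s p * (k p - k p₀) < 0))
          (P.filter (fun p => (0 < s p ∧ k p₁ < k p) ∨ (s p < 0 ∧ k p ≤ k p₁))) := by
        rw [Finset.disjoint_left]
        intro p h1 h2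
        rw [Finset.mem_filter] at h1 h2
        rcases h2.2 with h | h
        · have h3 : k p < k p₀ := by
            by_contra h4
            push Not at h4
            have : 0 ≤ s p * (k p - k p₀) := mul_nonneg h.1.le (by linarith)
            linarith [h1.2]
          have h5 := hmax p (Finset.mem_filter.mpr ⟨h1.1, h3⟩)
          linarith [h.2]
        · have : 0 < s p * (k p - k p₀) :=
            mul_pos_of_neg_of_neg h.1 (by linarith [h.2, hp₁.2])
          linarith [h1.2]
      have hle : (P.filter (fun p => s p * (k p - k p₀) < 0)) ∪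
          (P.filter (fun p => (0 < s p ∧ k p₁ < k p) ∨ (s p < 0 ∧ k p ≤ k p₁))) ⊆ P :=
        Finset.union_subset (Finset.filter_subset _ _) (Finset.filter_subset _ _)
      have h6 := Finset.card_le_card hle
      rw [Finset.card_union_of_disjoint hdisj] at h6
      omega
    · have hno : ∀ p ∈ P, k p₀ ≤ k p := by
        intro p hp
        by_contra h
        push Not at h
        exact hex ⟨p, Finset.mem_filter.mpr ⟨hp, h⟩⟩
      have hsub : (P.filter (fun p => s p * (k p - k p₀) < 0)) ⊆
          P.filter (fun p => s p < 0) := by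
        intro p hp
        rw [Finset.mem_filter] at hp ⊢
        refine ⟨hp.1, ?_⟩
        by_contra h
        push Not at h
        have : 0 ≤ s p * (k p - k p₀) := mul_nonneg h (by linarith [hno p hp.1])
        linarith [hp.2]
      have := Finset.card_le_card hsub
      omega

private theorem half {ι : Type*} (P : Finset ι) (hP : P.Nonempty) (k s : ι → ℝ)
    (hs : ∀ p ∈ P, s p ≠ 0) :
    ∃ p₀ ∈ P, 2 * (P.filter (fun p => 0 < s p * (k p - k p₀))).card ≤ P.card ∧
      2 * (P.filter (fun p => s p * (k p - k p₀) < 0)).card ≤ P.card := by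
  rcases le_total (P.filter (fun p => s p < 0)).card (P.filter (fun p => 0 < s p)).card
    with hm | hm
  · exact half_aux P hP k s hs hm
  · obtain ⟨p₀, hp₀, h1, h2⟩ := half_aux P hP k (fun p => - s p)
      (fun p hp => neg_ne_zero.mpr (hs p hp)) (by simpa using hm)
    refine ⟨p₀, hp₀, ?_, ?_⟩
    · simpa [neg_mul] using h2
    · simpa [neg_mul] using h1

/-- A pencil of hyperplanes `x α + y β = x a + y b`; no point of `P` lies on all of them. Some
member contains a point of `P` and has at most half of the points of `P` on each side. -/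
theorem pencil (P : Finset V) (hP : P.Nonempty) (α β : Dual ℝ V) (a b : ℝ)
    (h : ∀ p ∈ P, α p = a → β p ≠ b) :
    ∃ x y : ℝ, (x ≠ 0 ∨ y ≠ 0) ∧ (zer P (x • α + y • β) (x * a + y * b)).Nonempty ∧
      2 * (pos P (x • α + y • β) (x * a + y * b)).card ≤ P.card ∧
      2 * (neg P (x • α + y • β) (x * a + y * b)).card ≤ P.card := by
  classical
  obtain ⟨y₀, hy₀⟩ := Infinite.exists_notMem_finset
    (P.image (fun p => -(α p - a) / (β p - b)))
  have hs : ∀ p ∈ P, (α p - a) + y₀ * (β p - b) ≠ 0 := by
    intro p hp h0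
    by_cases hb : β p - b = 0
    · rw [hb, mul_zero, add_zero] at h0
      exact h p hp (by linarith) (by linarith)
    · apply hy₀
      rw [Finset.mem_image]
      refine ⟨p, hp, ?_⟩
      rw [div_eq_iff hb]
      linarith
  obtain ⟨p₀, hp₀, h1, h2⟩ := half P hP
    (fun p => (y₀ * (α p - a) - (β p - b)) / ((α p - a) + y₀ * (β p - b)))
    (fun p => (α p - a) + y₀ * (β p - b)) hs
  set c : ℝ := (y₀ * (α p₀ - a) - (β p₀ - b)) / ((α p₀ - a) + y₀ * (β p₀ - b)) with hc
  have key : ∀ p ∈ P, ((α p - a) + y₀ * (β p - b)) *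
      ((y₀ * (α p - a) - (β p - b)) / ((α p - a) + y₀ * (β p - b)) - c) =
      ((y₀ - c) • α + (-1 - c * y₀) • β) p - ((y₀ - c) * a + (-1 - c * y₀) * b) := by
    intro p hp
    rw [mul_sub, mul_div_cancel₀ _ (hs p hp)]
    simp only [LinearMap.add_apply, LinearMap.smul_apply, smul_eq_mul]
    ring
  refine ⟨y₀ - c, -1 - c * y₀, ?_, ?_, ?_, ?_⟩
  · by_contra h0
    push Not at h0
    have e1 : c = y₀ := by linarith [h0.1]
    have e2 := h0.2
    rw [e1] at e2
    nlinarith [mul_self_nonneg y₀]
  · refine ⟨p₀, mem_zer.mpr ⟨hp₀, ?_⟩⟩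
    have := key p₀ hp₀
    rw [← hc, sub_self, mul_zero] at this
    linarith
  · have e : pos P ((y₀ - c) • α + (-1 - c * y₀) • β) ((y₀ - c) * a + (-1 - c * y₀) * b) =
        P.filter (fun p => 0 < ((α p - a) + y₀ * (β p - b)) *
          ((y₀ * (α p - a) - (β p - b)) / ((α p - a) + y₀ * (β p - b)) - c)) := by
      ext p
      rw [mem_pos, Finset.mem_filter]
      constructor
      · rintro ⟨hp, hlt⟩
        rw [key p hp]
        exact ⟨hp, by linarith⟩
      · rintro ⟨hp, hlt⟩
        rw [key p hp] at hlt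
        exact ⟨hp, by linarith⟩
    rw [e]
    exact h1
  · have e : neg P ((y₀ - c) • α + (-1 - c * y₀) • β) ((y₀ - c) * a + (-1 - c * y₀) * b) =
        P.filter (fun p => ((α p - a) + y₀ * (β p - b)) *
          ((y₀ * (α p - a) - (β p - b)) / ((α p - a) + y₀ * (β p - b)) - c) < 0) := by
      ext p
      rw [mem_neg, Finset.mem_filter]
      constructor
      · rintro ⟨hp, hlt⟩
        rw [key p hp]
        exact ⟨hp, by linarith⟩
      · rintro ⟨hp, hlt⟩
        rw [key p hp] at hlt
        exact ⟨hp, by linarith⟩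
    rw [e]
    exact h2

end FourCP
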