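import Pool.Agent.Lib.MP_e6820d_co.GenPos
import Pool.Agent.Lib.MP_e6820d_co.Pencil

/-!
A halving hyperplane through given points spanning at most a plane (MP_e6820d_co).
-/

namespace FourCP

open Module

variable {V : Type*} [AddCommGroup V] [Module ℝ V]

private theorem fl_two (hV : finrank ℝ V = 4) (W : Submodule ℝ V) (h2 : finrank ℝ W ≤ 2) :
    ∃ (α β : Dual ℝ V) (v : V), α ≠ 0 ∧ W ≤ LinearMap.ker α ∧ W ≤ LinearMap.ker β ∧ α v = 0 ∧
      β v ≠ 0 ∧ finrank ℝ ↥(LinearMap.ker α ⊓ LinearMap.ker β) ≤ 2 := by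
  classical
  have hfd : FiniteDimensional ℝ V := FiniteDimensional.of_finrank_pos (by omega)
  have h1 : W ≠ ⊤ := by
    intro h
    rw [h, finrank_top] at h2
    omega
  obtain ⟨v1, -, hv1⟩ := SetLike.exists_of_lt (lt_top_iff_ne_top.2 h1)
  obtain ⟨α, hα, hαW⟩ := Submodule.exists_le_ker_of_notMem (K := ℝ) hv1
  have hα0 : α ≠ 0 := by
    intro h
    rw [h] at hα
    exact hα rfl
  have hk := finrank_ker_eq hV hα0
  have h3 : ¬ LinearMap.ker α ≤ W := by
    intro h
    have := Submodule.finrank_mono h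
    omega
  obtain ⟨v, hv, hvW⟩ := SetLike.not_le_iff_exists.1 h3
  obtain ⟨β, hβ, hβW⟩ := Submodule.exists_le_ker_of_notMem (K := ℝ) hvW
  refine ⟨α, β, v, hα0, hαW, hβW, LinearMap.mem_ker.1 hv, hβ, ?_⟩
  have h4 : LinearMap.ker α ⊓ LinearMap.ker β < LinearMap.ker α := by
    refine lt_of_le_of_ne inf_le_left ?_
    intro h
    have : v ∈ LinearMap.ker α ⊓ LinearMap.ker β := by rw [h]; exact hv
    exact hβ (LinearMap.mem_ker.1 this.2)
  have := Submodule.finrank_lt_finrank_of_lt h4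
  omega

/-- `A = zer S f t` is a hyperplane section, `L = zer A g u` is the set of all points of `S` in some
plane containing `X`; `A` has a point outside `L`, and the two open sides of `A` have at most half of
the points of `S` outside `L`. -/
theorem flag (hV : finrank ℝ V = 4) {S X : Finset V} (hS : 7 ≤ S.card) (H6 : Hyp6 S) (hX : X ⊆ S)
    (hXn : X.Nonempty) (h2 : finrank ℝ (dirs X) ≤ 2) :
    ∃ (f g : Dual ℝ V) (t u : ℝ), f ≠ 0 ∧ X ⊆ zer (zer S f t) g u ∧
      finrank ℝ (dirs (zer (zer S f t) g u)) ≤ 2 ∧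
      (zer (zer S f t) g u).card < (zer S f t).card ∧
      2 * (pos S f t).card + (zer (zer S f t) g u).card ≤ S.card ∧
      2 * (neg S f t).card + (zer (zer S f t) g u).card ≤ S.card := by
  classical
  have hfd : FiniteDimensional ℝ V := FiniteDimensional.of_finrank_pos (by omega)
  obtain ⟨α, β, v, hα0, hαX, hβX, hαv, hβv, hk⟩ := fl_two hV (dirs X) h2
  obtain ⟨x0, hx0⟩ := hXn
  set a := α x0 with ha
  set b := β x0 with hb
  set L : Finset V := S.filter (fun s => α s = a ∧ β s = b) with hL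
  have hLS : L ⊆ S := Finset.filter_subset _ _
  have memL : ∀ s, s ∈ L ↔ s ∈ S ∧ α s = a ∧ β s = b := fun s => by rw [hL, Finset.mem_filter]
  have hXL : X ⊆ L := by
    intro x hx
    rw [memL]
    exact ⟨hX hx, eq_of_dirs_le_ker hαX hx hx0, eq_of_dirs_le_ker hβX hx hx0⟩
  have hdL : finrank ℝ (dirs L) ≤ 2 := by
    refine le_trans (Submodule.finrank_mono (le_inf ?_ ?_)) hk
    · exact dirs_le_ker (t := a) fun x hx => ((memL x).1 hx).2.1
    · exact dirs_le_ker (t := b) fun x hx => ((memL x).1 hx).2.2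
  have hLc : L.card ≤ 6 := H6 L hLS (by omega)
  set P : Finset V := S \ L with hP
  have memP : ∀ s, s ∈ P ↔ s ∈ S ∧ ¬ (α s = a ∧ β s = b) := by
    intro s
    rw [hP, Finset.mem_sdiff, memL]
    tauto
  have hPc : P.card + L.card = S.card := Finset.card_sdiff_add_card_eq_card hLS
  have hPn : P.Nonempty := Finset.card_pos.1 (by omega)
  obtain ⟨x, y, hxy, hz, hp, hn⟩ := pencil P hPn α β a b
    (fun p hp h1 h2 => ((memP p).1 hp).2 ⟨h1, h2⟩)
  set F : Dual ℝ V := x • α + y • β with hF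
  have hFs : ∀ s, F s = x * α s + y * β s := fun s => by
    rw [hF, LinearMap.add_apply, LinearMap.smul_apply, LinearMap.smul_apply, smul_eq_mul,
      smul_eq_mul]
  have hF0 : F ≠ 0 := by
    intro h
    have h1 : x * α v + y * β v = 0 := by rw [← hFs, h]; rfl
    rw [hαv, mul_zero, zero_add] at h1
    have hy : y = 0 := (mul_eq_zero.1 h1).resolve_right hβv
    have hx : x ≠ 0 := hxy.resolve_right (by rw [hy]; simp)
    refine hα0 (LinearMap.ext fun s => ?_)
    have h2 : x * α s + y * β s = 0 := by rw [← hFs, h]; rfl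
    rw [hy, zero_mul, add_zero] at h2
    exact (mul_eq_zero.1 h2).resolve_left hx
  set g : Dual ℝ V := y • α - x • β with hg
  have hgs : ∀ s, g s = y * α s - x * β s := fun s => by
    rw [hg, LinearMap.sub_apply, LinearMap.smul_apply, LinearMap.smul_apply, smul_eq_mul,
      smul_eq_mul]
  have hxy2 : 0 < x ^ 2 + y ^ 2 := by
    rcases hxy with h | h
    · have := pow_pos (abs_pos.2 h) 2
      rw [sq_abs] at this
      positivity
    · have := pow_pos (abs_pos.2 h) 2
      rw [sq_abs] at this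
      positivity
  have hzz : zer (zer S F (x * a + y * b)) g (y * a - x * b) = L := by
    ext s
    rw [mem_zer, mem_zer, memL, hFs, hgs]
    constructor
    · rintro ⟨⟨h1, h2⟩, h3⟩
      refine ⟨h1, ?_, ?_⟩
      · have : (x ^ 2 + y ^ 2) * (α s - a) = 0 := by linear_combination x * h2 + y * h3
        have := (mul_eq_zero.1 this).resolve_left hxy2.ne'
        linarith
      · have : (x ^ 2 + y ^ 2) * (β s - b) = 0 := by linear_combination y * h2 - x * h3
        have := (mul_eq_zero.1 this).resolve_left hxy2.ne'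
        linarith
    · rintro ⟨h1, h2, h3⟩
      rw [h2, h3]
      exact ⟨⟨h1, rfl⟩, rfl⟩
  have hpos : pos S F (x * a + y * b) = pos P F (x * a + y * b) := by
    ext s
    rw [mem_pos, mem_pos, memP]
    constructor
    · rintro ⟨h1, h2⟩
      refine ⟨⟨h1, ?_⟩, h2⟩
      rintro ⟨h3, h4⟩
      rw [hFs, h3, h4] at h2
      exact lt_irrefl _ h2
    · rintro ⟨⟨h1, -⟩, h2⟩
      exact ⟨h1, h2⟩
  have hneg : neg S F (x * a + y * b) = neg P F (x * a + y * b) := by
    ext s
    rw [mem_neg, mem_neg, memP]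
    constructor
    · rintro ⟨h1, h2⟩
      refine ⟨⟨h1, ?_⟩, h2⟩
      rintro ⟨h3, h4⟩
      rw [hFs, h3, h4] at h2
      exact lt_irrefl _ h2
    · rintro ⟨⟨h1, -⟩, h2⟩
      exact ⟨h1, h2⟩
  refine ⟨F, g, x * a + y * b, y * a - x * b, hF0, ?_, ?_, ?_, ?_, ?_⟩
  · rw [hzz]; exact hXL
  · rw [hzz]; exact hdL
  · obtain ⟨p, hp'⟩ := hz
    rw [mem_zer, memP] at hp'
    refine Finset.card_lt_card ⟨zer_subset, fun hsub => ?_⟩
    have h1 : p ∈ zer (zer S F (x * a + y * b)) g (y * a - x * b) :=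
      hsub (mem_zer.2 ⟨hp'.1.1, hp'.2⟩)
    rw [hzz, memL] at h1
    exact hp'.1.2 h1.2
  · rw [hzz, hpos]; omega
  · rw [hzz, hneg]; omega

end FourCP
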