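import Pool.Agent.Lib.MP_e6820d_co.Basics

/-!
Consequences of `Gen4` (every four points affinely independent) and of `Hyp6` (MP_e6820d_co).
-/

namespace FourCP

open Module

variable {V : Type*} [AddCommGroup V] [Module ℝ V] [DecidableEq V]

theorem Gen4.mono {S T : Finset V} (h : Gen4 S) (hT : T ⊆ S) : Gen4 T :=
  fun X hX hc => h X (hX.trans hT) hc

theorem Hyp6.mono {S T : Finset V} (h : Hyp6 S) (hT : T ⊆ S) : Hyp6 T :=
  fun X hX hc => h X (hX.trans hT) hc

theorem finrank_dirs_union_le (X Z : Finset V) :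
    finrank ℝ (dirs (X ∪ Z)) ≤ finrank ℝ (dirs X) + Z.card := by
  induction Z using Finset.induction_on with
  | empty => rw [Finset.union_empty, Finset.card_empty, add_zero]
  | insert z Z hz ih =>
    rw [Finset.union_insert, Finset.card_insert_of_notMem hz]
    have := finrank_dirs_insert_le (X ∪ Z) z
    omega

/-- At most four points (not none) of `S` are affinely independent. -/
theorem Gen4.finrank_eq {S : Finset V} (h : Gen4 S) (h4 : 4 ≤ S.card) {X : Finset V} (hX : X ⊆ S)
    (hX4 : X.card ≤ 4) (hXn : X.Nonempty) : finrank ℝ (dirs X) + 1 = X.card := by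
  obtain ⟨Y, hXY, hYS, hY4⟩ := Finset.exists_subsuperset_card_eq hX hX4 h4
  have h1 := h Y hYS hY4
  have h2 := finrank_dirs_union_le X (Y \ X)
  rw [Finset.union_sdiff_of_subset hXY, h1, Finset.card_sdiff_of_subset hXY, hY4] at h2
  have h3 := finrank_dirs_add_one_le hXn
  omega

/-- Four or more points of `S` span at least dimension three. -/
theorem Gen4.three_le {S : Finset V} (h : Gen4 S) {X : Finset V} (hX : X ⊆ S)
    (hX4 : 4 ≤ X.card) : 3 ≤ finrank ℝ (dirs X) := by
  obtain ⟨Y, hYX, hY4⟩ := Finset.exists_subset_card_eq hX4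
  rw [← h Y (hYX.trans hX) hY4]
  exact Submodule.finrank_mono (dirs_mono hYX)

/-- A point of a four point subset can be separated from the other three. -/
theorem Gen4.sep {S : Finset V} (h : Gen4 S) {X : Finset V} (hX : X ⊆ S) (hX4 : X.card = 4)
    {x : V} (hx : x ∈ X) :
    ∃ (g : Dual ℝ V) (u : ℝ), (∀ y ∈ X.erase x, g y = u) ∧ u < g x := by
  have hc : (X.erase x).card = 3 := by
    rw [Finset.card_erase_of_mem hx, hX4]
  obtain ⟨y0, hy0⟩ : (X.erase x).Nonempty := by
    rw [← Finset.card_pos, hc]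
    norm_num
  have hnot : x - y0 ∉ dirs (X.erase x) := by
    intro hmem
    have h1 : dirs X = dirs (X.erase x) := by
      conv_lhs => rw [← Finset.insert_erase hx]
      rw [dirs_insert_le hy0, sup_eq_left, Submodule.span_le, Set.singleton_subset_iff]
      exact hmem
    have h2 := h X hX hX4
    have h3 := finrank_dirs_le_card_sub_one (X.erase x)
    rw [← h1, h2, hc] at h3
    omega
  obtain ⟨f, hf1, hf2⟩ := Submodule.exists_le_ker_of_notMem hnot
  rw [map_sub] at hf1
  rcases lt_or_gt_of_ne (sub_ne_zero.1 hf1) with hlt | hgt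
  · refine ⟨-f, -(f y0), fun y hy => ?_, ?_⟩
    · rw [LinearMap.neg_apply, eq_of_dirs_le_ker hf2 hy hy0]
    · rw [LinearMap.neg_apply]
      linarith
  · exact ⟨f, f y0, fun y hy => eq_of_dirs_le_ker hf2 hy hy0, hgt⟩

theorem finrank_ker_eq (hV : finrank ℝ V = 4) {f : Dual ℝ V} (hf : f ≠ 0) :
    finrank ℝ (LinearMap.ker f) = 3 := by
  have hfd : FiniteDimensional ℝ V := Module.finite_of_finrank_pos (by omega)
  have h1 := Module.Dual.finrank_ker_add_one_of_ne_zero hf
  omega

/-- The zero set of a nonzero functional has directions of dimension at most three. -/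
theorem finrank_dirs_zer_le (hV : finrank ℝ V = 4) (S : Finset V) {f : Dual ℝ V} (hf : f ≠ 0)
    (t : ℝ) : finrank ℝ (dirs (zer S f t)) ≤ 3 := by
  have hfd : FiniteDimensional ℝ V := Module.finite_of_finrank_pos (by omega)
  rw [← finrank_ker_eq hV hf]
  exact Submodule.finrank_mono (dirs_le_ker fun x hx => (mem_zer.1 hx).2)

/-- `Hyp6` for the points of `S` in a coset of a subspace of dimension at most three. -/
theorem Hyp6.coset {S : Finset V} (h : Hyp6 S) (U : Submodule ℝ V) (hU : finrank ℝ U ≤ 3)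
    (hV : finrank ℝ V = 4) {X : Finset V} (hX : X ⊆ S) (p : V) (hp : ∀ x ∈ X, x - p ∈ U) :
    X.card ≤ 6 := by
  have hfd : FiniteDimensional ℝ V := Module.finite_of_finrank_pos (by omega)
  exact h X hX ((Submodule.finrank_mono (dirs_le p hp)).trans hU)

/-- A finite set whose directions have dimension at most three lies on a hyperplane. -/
theorem exists_hyperplane (hV : finrank ℝ V = 4) {X : Finset V} (h : finrank ℝ (dirs X) ≤ 3) :
    ∃ (f : Dual ℝ V) (t : ℝ), f ≠ 0 ∧ ∀ x ∈ X, f x = t := by
  have hne : dirs X ≠ ⊤ := by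
    intro ht
    rw [ht, finrank_top, hV] at h
    omega
  obtain ⟨f, hf, hle⟩ := Submodule.exists_le_ker_of_lt_top _ (lt_top_iff_ne_top.2 hne)
  rcases X.eq_empty_or_nonempty with rfl | ⟨x0, hx0⟩
  · exact ⟨f, 0, hf, fun x hx => absurd hx (Finset.notMem_empty x)⟩
  · exact ⟨f, f x0, hf, fun x hx => eq_of_dirs_le_ker hle hx hx0⟩

/-- Directions of the zero set when it has at least four points in general position. -/
theorem dirs_zer_eq_ker (hV : finrank ℝ V = 4) {S : Finset V} (h : Gen4 S) {f : Dual ℝ V}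
    (hf : f ≠ 0) {t : ℝ} (h4 : 4 ≤ (zer S f t).card) : dirs (zer S f t) = LinearMap.ker f := by
  have hfd : FiniteDimensional ℝ V := Module.finite_of_finrank_pos (by omega)
  refine Submodule.eq_of_le_of_finrank_le (dirs_le_ker fun x hx => (mem_zer.1 hx).2) ?_
  rw [finrank_ker_eq hV hf]
  exact h.three_le zer_subset h4

end FourCP
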