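import Pool.Agent.Lib.MP_e6820d_co.Basics

/-!
Generic functionals, constant on a given finite set, close to a given functional (MP_e6820d_co).
-/

namespace FourCP

open Module

variable {V : Type*} [AddCommGroup V] [Module ℝ V] [FiniteDimensional ℝ V]

open Polynomial in
/-- A functional in the annihilator of `W`, close to `f`, not vanishing on a countable set of
vectors outside `W`. -/
theorem generic_lin (W : Submodule ℝ V) (f : Dual ℝ V) (hf : W ≤ LinearMap.ker f)
    (D : Set V) (hD : D.Countable) (hDW : ∀ d ∈ D, d ∉ W) (F : Finset V) :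
    ∃ g : Dual ℝ V, W ≤ LinearMap.ker g ∧ (∀ d ∈ D, g d ≠ 0) ∧ (∀ x ∈ F, 0 < f x → 0 < g x) := by
  classical
  -- generators of the annihilator
  obtain ⟨B, hB⟩ : (W.dualAnnihilator).FG := IsNoetherian.noetherian _
  set r := B.card with hr
  let G : Fin r → Dual ℝ V := fun i => ((B.equivFin.symm i : B) : Dual ℝ V)
  have hGW : ∀ i, W ≤ LinearMap.ker (G i) := by
    intro i w hw
    rw [LinearMap.mem_ker]
    have h1 : G i ∈ W.dualAnnihilator := by
      rw [← hB]
      exact Submodule.subset_span (B.equivFin.symm i).2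
    exact (Submodule.mem_dualAnnihilator (G i)).mp h1 w hw
  have hex : ∀ d, d ∉ W → ∃ i, G i d ≠ 0 := by
    intro d hd
    obtain ⟨φ, hφd, hφW⟩ := Submodule.exists_le_ker_of_notMem hd
    by_contra hall
    push Not at hall
    apply hφd
    have hφ : φ ∈ W.dualAnnihilator := by
      rw [Submodule.mem_dualAnnihilator]
      intro w hw
      exact LinearMap.mem_ker.mp (hφW hw)
    rw [← hB] at hφ
    refine Submodule.span_induction (p := fun φ _ => φ d = 0) ?_ ?_ ?_ ?_ hφ
    · intro g hg
      have h1 := hall (B.equivFin ⟨g, hg⟩)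
      simpa [G] using h1
    · rfl
    · intro g g' _ _ h1 h2
      rw [LinearMap.add_apply, h1, h2, add_zero]
    · intro c g _ h1
      rw [LinearMap.smul_apply, h1, smul_zero]
  -- the polynomial attached to a vector
  let pol : V → ℝ[X] := fun v => C (f v) + ∑ i : Fin r, C (G i v) * X ^ (i.val + 1)
  have hpolne : ∀ d ∈ D, pol d ≠ 0 := by
    intro d hd h0
    obtain ⟨i, hi⟩ := hex d (hDW d hd)
    apply hi
    have h1 : (pol d).coeff (i.val + 1) = G i d := by
      change (C (f d) + ∑ j : Fin r, C (G j d) * X ^ (j.val + 1)).coeff (i.val + 1) = G i d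
      rw [coeff_add, coeff_C_succ, zero_add, finsetSum_coeff]
      rw [Finset.sum_eq_single i]
      · rw [coeff_C_mul_X_pow, if_pos rfl]
      · intro j _ hj
        rw [coeff_C_mul_X_pow, if_neg]
        intro h
        apply hj
        ext
        omega
      · intro h
        exact absurd (Finset.mem_univ i) h
    rw [← h1, h0, coeff_zero]
  have hcount : (⋃ d ∈ D, {s : ℝ | (pol d).IsRoot s}).Countable := by
    refine hD.biUnion (fun d hd => ?_)
    exact (Polynomial.finite_setOfPred_isRoot (hpolne d hd)).countable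
  have hnh : ∀ᶠ s : ℝ in nhds 0, ∀ x ∈ F, 0 < f x → 0 < (pol x).eval s := by
    rw [Finset.eventually_all]
    intro x _
    by_cases hx : 0 < f x
    · have h1 : (pol x).eval 0 = f x := by
        change (C (f x) + ∑ j : Fin r, C (G j x) * X ^ (j.val + 1)).eval 0 = f x
        rw [eval_add, eval_C, eval_finsetSum]
        simp
      have h2 : Filter.Tendsto (fun s => (pol x).eval s) (nhds 0) (nhds ((pol x).eval 0)) :=
        (pol x).continuous.continuousAt
      have h3 := h2.eventually (lt_mem_nhds (show 0 < (pol x).eval 0 by rw [h1]; exact hx))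
      filter_upwards [h3] with s hs _
      exact hs
    · exact Filter.Eventually.of_forall (fun s h => absurd h hx)
  obtain ⟨s, hs1, hs2⟩ := (hcount.dense_compl ℝ).inter_nhds_nonempty hnh
  have heval : ∀ v, (f + ∑ i : Fin r, s ^ (i.val + 1) • G i) v = (pol v).eval s := by
    intro v
    change _ = (C (f v) + ∑ j : Fin r, C (G j v) * X ^ (j.val + 1)).eval s
    rw [eval_add, eval_C, eval_finsetSum, LinearMap.add_apply, LinearMap.sum_apply]
    congr 1
    refine Finset.sum_congr rfl (fun i _ => ?_)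
    rw [LinearMap.smul_apply, smul_eq_mul, eval_mul, eval_C, eval_pow, eval_X]
    ring
  refine ⟨f + ∑ i : Fin r, s ^ (i.val + 1) • G i, ?_, ?_, ?_⟩
  · intro w hw
    rw [LinearMap.mem_ker, LinearMap.add_apply, LinearMap.mem_ker.mp (hf hw), zero_add,
      LinearMap.sum_apply]
    apply Finset.sum_eq_zero
    intro i _
    rw [LinearMap.smul_apply, LinearMap.mem_ker.mp (hGW i hw), smul_zero]
  · intro d hd h0
    rw [heval] at h0
    apply hs1
    simp only [Set.mem_iUnion]
    exact ⟨d, hd, h0⟩
  · intro x hx hfx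
    rw [heval]
    exact hs2 x hx hfx

/-- The affine version; `A` may be empty. -/
theorem generic_aff (A : Finset V) (f : Dual ℝ V) (t : ℝ) (hf : ∀ a ∈ A, f a = t)
    (D : Set V) (hD : D.Countable) (W : Set V) (hWc : W.Countable) (hW : ∀ w ∈ W, w ∉ dirs A)
    (F : Finset V) :
    ∃ (g : Dual ℝ V) (s : ℝ), (∀ a ∈ A, g a = s) ∧
      (∀ u ∈ D, g u = s → ∃ a ∈ A, u - a ∈ dirs A) ∧ (∀ w ∈ W, g w ≠ 0) ∧
      (∀ x ∈ F, t < f x → s < g x) ∧ (∀ x ∈ F, f x < t → g x < s) := by
  classical
  rcases A.eq_empty_or_nonempty with rfl | ⟨a₀, ha₀⟩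
  · let f' : Dual ℝ (V × ℝ) := f.comp (LinearMap.fst ℝ V ℝ) - t • (LinearMap.snd ℝ V ℝ)
    have hf' : ∀ v r, f' (v, r) = f v - t * r := by
      intro v r
      simp [f']
    obtain ⟨g', _, h2, h3⟩ := generic_lin (V := V × ℝ) ⊥ f' bot_le
      ((fun u => ((u, 1) : V × ℝ)) '' D ∪ (fun w => ((w, 0) : V × ℝ)) '' W)
      ((hD.image _).union (hWc.image _))
      (by
        rintro d (⟨u, _, rfl⟩ | ⟨w, hw, rfl⟩) h
        · rw [Submodule.mem_bot] at h
          have := congrArg Prod.snd h
          simp at this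
        · rw [Submodule.mem_bot] at h
          have h4 := congrArg Prod.fst h
          apply hW w hw
          rw [dirs_empty, Submodule.mem_bot]
          exact h4)
      (F.image (fun x => ((x, 1) : V × ℝ)) ∪ F.image (fun x => ((-x, -1) : V × ℝ)))
    have hg : ∀ v r, g' (v, r) = g' (v, 0) + r * g' (0, 1) := by
      intro v r
      have : ((v, r) : V × ℝ) = (v, 0) + r • (0, 1) := by
        ext <;> simp
      rw [this, map_add, map_smul, smul_eq_mul]
    refine ⟨g'.comp (LinearMap.inl ℝ V ℝ), -g' (0, 1), ?_, ?_, ?_, ?_, ?_⟩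
    · intro a ha
      simp at ha
    · intro u hu h
      exfalso
      apply h2 (u, 1) (Or.inl ⟨u, hu, rfl⟩)
      rw [hg]
      rw [LinearMap.comp_apply, LinearMap.inl_apply] at h
      rw [h]
      ring
    · intro w hw h
      exact h2 (w, 0) (Or.inr ⟨w, hw, rfl⟩) h
    · intro x hx h
      have h4 := h3 (x, 1) (Finset.mem_union_left _ (Finset.mem_image_of_mem _ hx))
        (by rw [hf']; linarith)
      rw [hg] at h4
      rw [LinearMap.comp_apply, LinearMap.inl_apply]
      linarith
    · intro x hx h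
      have h4 := h3 (-x, -1) (Finset.mem_union_right _
        (Finset.mem_image.mpr ⟨x, hx, rfl⟩)) (by rw [hf', map_neg]; linarith)
      have h5 : ((-x, -1) : V × ℝ) = -(x, 1) := by simp
      rw [h5, map_neg, hg] at h4
      rw [LinearMap.comp_apply, LinearMap.inl_apply]
      linarith
  · obtain ⟨g, h1, h2, h3⟩ := generic_lin (dirs A) f (dirs_le_ker hf)
      ({d | d ∈ (fun u => u - a₀) '' D ∧ d ∉ dirs A} ∪ W)
      (((hD.image _).mono (fun d hd => hd.1)).union hWc)
      (by
        rintro d (hd | hd)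
        · exact hd.2
        · exact hW d hd)
      (F.image (fun x => x - a₀) ∪ F.image (fun x => a₀ - x))
    refine ⟨g, g a₀, ?_, ?_, ?_, ?_, ?_⟩
    · intro a ha
      exact eq_of_dirs_le_ker h1 ha ha₀
    · intro u hu h
      refine ⟨a₀, ha₀, ?_⟩
      by_contra h4
      apply h2 (u - a₀) (Or.inl ⟨⟨u, hu, rfl⟩, h4⟩)
      rw [map_sub, h, sub_self]
    · intro w hw
      exact h2 w (Or.inr hw)
    · intro x hx h
      have h4 := h3 (x - a₀) (Finset.mem_union_left _ (Finset.mem_image.mpr ⟨x, hx, rfl⟩))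
        (by rw [map_sub, hf a₀ ha₀]; linarith)
      rw [map_sub] at h4
      linarith
    · intro x hx h
      have h4 := h3 (a₀ - x) (Finset.mem_union_right _ (Finset.mem_image.mpr ⟨x, hx, rfl⟩))
        (by rw [map_sub, hf a₀ ha₀]; linarith)
      rw [map_sub] at h4
      linarith

end FourCP
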