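import Mathlib

/-!
A dimension count for three subspaces of dimension at most three (MP_e6820d_co).
-/

namespace FourCP

open Module

theorem threeSub {V : Type*} [AddCommGroup V] [Module ℝ V] [FiniteDimensional ℝ V]
    (X Y Z : Submodule ℝ V) (α β : Dual ℝ V)
    (hX : finrank ℝ X ≤ 3) (hY : finrank ℝ Y ≤ 3) (hZ : finrank ℝ Z ≤ 3)
    (hXY : X = Y → finrank ℝ X ≤ 2) (hXZ : X = Z → finrank ℝ X ≤ 2)
    (h3 : finrank ℝ ↥(X ⊓ Y ⊓ Z) ≤ 1)
    (h1 : ¬ X ≤ Y → ¬ X ≤ LinearMap.ker α)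
    (h2 : ¬ X ⊓ Z ≤ Y → ¬ X ⊓ Z ≤ LinearMap.ker α)
    (h4 : ¬ X ⊓ LinearMap.ker α ≤ Z → ¬ X ⊓ LinearMap.ker α ≤ LinearMap.ker β) :
    finrank ℝ ↥(X ⊓ LinearMap.ker α ⊓ LinearMap.ker β) ≤ 1 := by
  -- the two intersections are monotone
  have hm1 : finrank ℝ ↥(X ⊓ LinearMap.ker α) ≤ finrank ℝ X := Submodule.finrank_mono inf_le_left
  have hm2 : finrank ℝ ↥(X ⊓ LinearMap.ker α ⊓ LinearMap.ker β) ≤
      finrank ℝ ↥(X ⊓ LinearMap.ker α) := Submodule.finrank_mono inf_le_left
  -- strict drop in the second step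
  have hlt2 : ¬ X ⊓ LinearMap.ker α ≤ Z →
      finrank ℝ ↥(X ⊓ LinearMap.ker α ⊓ LinearMap.ker β) <
        finrank ℝ ↥(X ⊓ LinearMap.ker α) := by
    intro h
    apply Submodule.finrank_lt_finrank_of_lt
    refine lt_of_le_of_ne inf_le_left ?_
    intro he
    exact h4 h (inf_eq_left.1 he)
  by_cases hXleY : X ≤ Y
  · have hX2 : finrank ℝ X ≤ 2 := by
      by_contra hc
      have : X = Y := Submodule.eq_of_le_of_finrank_le hXleY (by omega)
      exact hc (hXY this)
    by_cases hk : X ⊓ LinearMap.ker α ≤ Z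
    · have h5 : X ⊓ LinearMap.ker α ≤ X ⊓ Y ⊓ Z :=
        le_inf (le_inf inf_le_left (inf_le_left.trans hXleY)) hk
      have := Submodule.finrank_mono h5
      omega
    · have := hlt2 hk
      omega
  · have hlt1 : finrank ℝ ↥(X ⊓ LinearMap.ker α) < finrank ℝ X := by
      apply Submodule.finrank_lt_finrank_of_lt
      refine lt_of_le_of_ne inf_le_left ?_
      intro he
      exact h1 hXleY (inf_eq_left.1 he)
    by_cases hk : X ⊓ LinearMap.ker α ≤ Z
    · by_contra hc
      have h5 : finrank ℝ ↥(X ⊓ LinearMap.ker α) = 2 := by omega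
      have h6 : finrank ℝ X = 3 := by omega
      have hXnZ : ¬ X ≤ Z := by
        intro h
        have : X = Z := Submodule.eq_of_le_of_finrank_le h (by omega)
        have := hXZ this
        omega
      have h7 : finrank ℝ ↥(X ⊓ Z) < finrank ℝ X := by
        apply Submodule.finrank_lt_finrank_of_lt
        refine lt_of_le_of_ne inf_le_left ?_
        intro he
        exact hXnZ (inf_eq_left.1 he)
      have h8 : X ⊓ LinearMap.ker α ≤ X ⊓ Z := le_inf inf_le_left hk
      have h9 : X ⊓ LinearMap.ker α = X ⊓ Z :=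
        Submodule.eq_of_le_of_finrank_le h8 (by omega)
      have h10 : X ⊓ Z ≤ Y := by
        by_contra h
        exact h2 h (h9 ▸ inf_le_right)
      have h11 : X ⊓ Z ≤ X ⊓ Y ⊓ Z := le_inf (le_inf inf_le_left h10) inf_le_right
      have h12 := Submodule.finrank_mono h11
      rw [← h9] at h12
      omega
    · have := hlt2 hk
      omega

end FourCP
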