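import Pool.Agent.Lib.MP_e6820d_co.FanColour
import Pool.Agent.Lib.MP_e6820d_co.Generic
import Pool.Agent.Lib.MP_e6820d_co.ThreeSub

/-!
Fan data from a good split (MP_e6820d_co).
-/

namespace FourCP

open Module

private theorem rz_wit {V : Type*} [AddCommGroup V] [Module ℝ V] (X Y : Submodule ℝ V) :
    ∃ W : Set V, W.Countable ∧ (∀ w ∈ W, w ∉ Y) ∧
      ∀ g : Dual ℝ V, (∀ w ∈ W, g w ≠ 0) → ¬ X ≤ Y → ¬ X ≤ LinearMap.ker g := by
  by_cases h : X ≤ Y
  · exact ⟨∅, Set.countable_empty, fun w hw => hw.elim, fun g _ h' => absurd h h'⟩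
  · obtain ⟨x, hx, hy⟩ := SetLike.not_le_iff_exists.1 h
    refine ⟨{x}, Set.countable_singleton x, ?_, ?_⟩
    · intro w hw
      rw [Set.mem_singleton_iff.1 hw]
      exact hy
    · intro g hg _ hle
      exact hg x (Set.mem_singleton x) (LinearMap.mem_ker.1 (hle hx))

theorem realize {m : ℕ} {S A R Q : Finset (Fin m → ℝ)} (hs : Split S A R Q) (hg : GoodT A R Q) :
    Nonempty (FanData A R Q) := by
  obtain ⟨f, t, hA, hR, hQ⟩ := hs
  have hD : (Set.range (emb : (Fin m → ℤ) → (Fin m → ℝ))).Countable := Set.countable_range _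
  -- the functional of the split
  obtain ⟨W1, c1, n1, k1⟩ := rz_wit (dirs R) (dirs A)
  obtain ⟨W2, c2, n2, k2⟩ := rz_wit (dirs Q) (dirs A)
  obtain ⟨W3, c3, n3, k3⟩ := rz_wit (dirs R ⊓ dirs Q) (dirs A)
  obtain ⟨lam, τ, lA, lT, lW, lR, lQ⟩ := generic_aff A f t
    (fun a ha => by rw [hA] at ha; exact (mem_zer.1 ha).2) _ hD (W1 ∪ W2 ∪ W3)
    ((c1.union c2).union c3)
    (by
      rintro w ((hw | hw) | hw)
      · exact n1 w hw
      · exact n2 w hw
      · exact n3 w hw) S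
  have l1 := k1 lam fun w hw => lW w (Or.inl (Or.inl hw))
  have l2 := k2 lam fun w hw => lW w (Or.inl (Or.inr hw))
  have l3 := k3 lam fun w hw => lW w (Or.inr hw)
  -- the first side
  obtain ⟨U1, d1, o1, j1⟩ := rz_wit (dirs A) (dirs R)
  obtain ⟨U2, d2, o2, j2⟩ := rz_wit (dirs Q ⊓ LinearMap.ker lam) (dirs R)
  obtain ⟨U3, d3, o3, j3⟩ := rz_wit (dirs A ⊓ dirs Q) (dirs R)
  obtain ⟨mu, c, mR, mT, mW, -, -⟩ := generic_aff R 0 0 (fun a _ => rfl) _ hD (U1 ∪ U2 ∪ U3)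
    ((d1.union d2).union d3)
    (by
      rintro w ((hw | hw) | hw)
      · exact o1 w hw
      · exact o2 w hw
      · exact o3 w hw) ∅
  have m1 := j1 mu fun w hw => mW w (Or.inl (Or.inl hw))
  have m2 := j2 mu fun w hw => mW w (Or.inl (Or.inr hw))
  have m3 := j3 mu fun w hw => mW w (Or.inr hw)
  -- the second side
  obtain ⟨T1, e1, p1, i1⟩ := rz_wit (dirs A ⊓ LinearMap.ker mu) (dirs Q)
  obtain ⟨T2, e2, p2, i2⟩ := rz_wit (dirs R ⊓ LinearMap.ker lam) (dirs Q)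
  obtain ⟨mu', c', qQ, qT, qW, -, -⟩ := generic_aff Q 0 0 (fun a _ => rfl) _ hD (T1 ∪ T2)
    (e1.union e2)
    (by
      rintro w (hw | hw)
      · exact p1 w hw
      · exact p2 w hw) ∅
  have q1 := i1 mu' fun w hw => qW w (Or.inl hw)
  have q2 := i2 mu' fun w hw => qW w (Or.inr hw)
  refine ⟨⟨lam, mu, mu', τ, c, c', lA, ?_, ?_, mR, qQ, ?_, ?_, ?_, ?_, ?_, ?_⟩⟩
  · intro x hx
    rw [hR, mem_pos] at hx
    exact lR x hx.1 hx.2
  · intro x hx
    rw [hQ, mem_neg] at hx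
    exact lQ x hx.1 hx.2
  · intro u hu
    exact lT _ (Set.mem_range_self u) hu
  · intro u hu
    exact mT _ (Set.mem_range_self u) hu
  · intro u hu
    exact qT _ (Set.mem_range_self u) hu
  · exact threeSub (dirs A) (dirs R) (dirs Q) mu mu' hg.a3 hg.r3 hg.q3 hg.ar hg.aq hg.arq
      m1 m3 q1
  · refine threeSub (dirs R) (dirs A) (dirs Q) lam mu' hg.r3 hg.a3 hg.q3 ?_ hg.rq ?_ l1 l3 q2
    · intro h
      rw [h]
      exact hg.ar h.symm
    · rw [inf_comm (dirs R) (dirs A)]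
      exact hg.arq
  · refine threeSub (dirs Q) (dirs A) (dirs R) lam mu hg.q3 hg.a3 hg.r3 ?_ ?_ ?_ l2 ?_ m2
    · intro h
      rw [h]
      exact hg.aq h.symm
    · intro h
      rw [h]
      exact hg.rq h.symm
    · have h : dirs Q ⊓ dirs A ⊓ dirs R = dirs A ⊓ dirs R ⊓ dirs Q := by
        rw [inf_comm (dirs Q) (dirs A), inf_assoc, inf_assoc, inf_comm (dirs Q) (dirs R)]
      rw [h]
      exact hg.arq
    · rw [inf_comm (dirs Q) (dirs R)]
      exact l3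

end FourCP
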