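import Pool.Agent.Lib.MP_e6820d_co.Select
import Pool.Agent.Lib.MP_e6820d_co.Realize

/-!
The lower bound `12 ≤ c_4(ℤ^n)` for all `n`, also for the free abelian groups of infinite rank
(MP_e6820d_co).
-/

namespace FourCP

open Module

theorem emb_injective {m : ℕ} : Function.Injective (emb (m := m)) := by
  intro u v h
  funext i
  have := congrFun h i
  simpa [emb] using this

/-- The colouring for eleven points. -/
theorem colour11 {m : ℕ} (C : Finset (Fin m → ℤ)) (hC : C.card = 11) :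
    ∃ χ : (Fin m → ℤ) → Fin 4, ∀ s ∈ C, {u : Fin m → ℤ | χ u = χ (s + s - u)}.Finite := by
  classical
  have h1 : (C.image emb).card = 11 := by
    rw [Finset.card_image_of_injective _ emb_injective, hC]
  obtain ⟨A, R, Q, hs, hg⟩ := select h1
  obtain ⟨D⟩ := realize hs hg
  obtain ⟨χ, hχ⟩ := fanColour D
  refine ⟨χ, fun s hsC => hχ s ?_⟩
  obtain ⟨f, t, rfl, rfl, rfl⟩ := hs
  have h2 : emb s ∈ C.image emb := Finset.mem_image_of_mem _ hsC
  rcases lt_trichotomy (f (emb s)) t with h | h | h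
  · exact Or.inr (Or.inr (mem_neg.2 ⟨h2, h⟩))
  · exact Or.inl (mem_zer.2 ⟨h2, h⟩)
  · exact Or.inr (Or.inl (mem_pos.2 ⟨h2, h⟩))

/-- The colouring for at most eleven points. -/
theorem colour {m : ℕ} (C : Finset (Fin m → ℤ)) (hC : C.card ≤ 11) :
    ∃ χ : (Fin m → ℤ) → Fin 4, ∀ s ∈ C, {u : Fin m → ℤ | χ u = χ (s + s - u)}.Finite := by
  classical
  rcases Nat.eq_zero_or_pos m with rfl | hm
  · exact ⟨fun _ => 0, fun s _ => Set.toFinite _⟩
  · haveI : Nonempty (Fin m) := ⟨⟨0, hm⟩⟩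
    obtain ⟨C', hC', h11⟩ := Infinite.exists_superset_card_eq C 11 hC
    obtain ⟨χ, hχ⟩ := colour11 C' h11
    exact ⟨χ, fun s hs => hχ s (hC' hs)⟩

/-- A colouring whose bad sets are finite shows that `C` is not centerpole. -/
theorem not_centerpole_of_colouring {k : ℕ} {G : Type*} [AddCommGroup G] {C : Set G}
    (χ : G → Fin k) (h : ∀ s ∈ C, {u : G | χ u = χ (s + s - u)}.Finite) :
    ¬ Centerpole k C := by
  intro hC
  obtain ⟨c, hc, S, hS, hsym, i, hi⟩ := hC χ
  refine hS ((h c hc).subset ?_)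
  intro x hx
  have h1 : x - c ∈ (fun x => x - c) '' S := ⟨x, hx, rfl⟩
  rw [hsym] at h1
  obtain ⟨y, hy, hyx⟩ := h1
  have h2 : y = c + c - x := by
    have : c - y = x - c := hyx
    rw [sub_eq_sub_iff_add_eq_add] at this
    rw [eq_sub_iff_add_eq, add_comm, ← this]
  rw [Set.mem_setOf_eq, ← h2, hi x hx, hi y hy]

end FourCP
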