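import Pool.Agent.Lib.MP_e6820d_co.Basics

/-!
Passing to a quotient by a generic vector (MP_e6820d_co).
-/

namespace FourCP

open Module

variable {V : Type*} [AddCommGroup V] [Module ℝ V] [FiniteDimensional ℝ V] [DecidableEq V]

/-- A nonzero vector outside all proper direction spaces of subsets of `S`. -/
theorem exists_generic_vec (S : Finset V) (h : 0 < finrank ℝ V) :
    ∃ v : V, v ≠ 0 ∧ ∀ X ⊆ S, dirs X ≠ ⊤ → v ∉ dirs X := by
  classical
  have hnt : Nontrivial V := Module.nontrivial_of_finrank_pos h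
  set s : Finset (Submodule ℝ V) := insert ⊥ ((S.powerset.image dirs).filter (· ≠ ⊤)) with hs
  have htop : (⊤ : Submodule ℝ V) ∉ s := by
    rw [hs, Finset.mem_insert, not_or]
    refine ⟨?_, fun h' => (Finset.mem_filter.1 h').2 rfl⟩
    exact fun h' => bot_ne_top h'.symm
  have hne := Subspace.biUnion_ne_univ_of_top_notMem htop
  obtain ⟨v, hv⟩ := (Set.ne_univ_iff_exists_notMem _).1 hne
  have hv' : ∀ p ∈ s, v ∉ p := by
    intro p hp hvp
    exact hv (Set.mem_iUnion₂.2 ⟨p, hp, hvp⟩)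
  refine ⟨v, ?_, ?_⟩
  · intro h0
    exact hv' ⊥ (Finset.mem_insert_self _ _) (by rw [h0]; exact Submodule.zero_mem _)
  · intro X hX hXt
    apply hv'
    rw [hs, Finset.mem_insert, Finset.mem_filter, Finset.mem_image]
    exact Or.inr ⟨⟨X, Finset.mem_powerset.2 hX, rfl⟩, hXt⟩

/-- The quotient map is injective on `S`. -/
theorem card_image_quot (S : Finset V) (v : V) (h5 : 5 ≤ finrank ℝ V)
    (hgen : ∀ X ⊆ S, dirs X ≠ ⊤ → v ∉ dirs X)
    [DecidableEq (V ⧸ Submodule.span ℝ {v})] :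
    (S.image (Submodule.span ℝ {v}).mkQ).card = S.card := by
  apply Finset.card_image_of_injOn
  intro x hx y hy hxy
  by_contra hne
  have h1 : x - y ∈ Submodule.span ℝ {v} := by
    have := (Submodule.Quotient.eq (Submodule.span ℝ {v})).1 hxy
    exact this
  obtain ⟨c, hc⟩ := Submodule.mem_span_singleton.1 h1
  have hc0 : c ≠ 0 := by
    rintro rfl
    rw [zero_smul] at hc
    exact hne (sub_eq_zero.1 hc.symm)
  have hsub : ({x, y} : Finset V) ⊆ S := by
    intro z hz
    rcases Finset.mem_insert.1 hz with rfl | hz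
    · exact hx
    · rw [Finset.mem_singleton.1 hz]; exact hy
  have hfr : finrank ℝ (dirs ({x, y} : Finset V)) ≤ 1 := by
    have := finrank_dirs_le_card_sub_one ({x, y} : Finset V)
    have h2 : ({x, y} : Finset V).card ≤ 2 := Finset.card_le_two
    omega
  have htop : dirs ({x, y} : Finset V) ≠ ⊤ := by
    intro ht
    rw [ht, finrank_top] at hfr
    omega
  refine hgen _ hsub htop ?_
  have h3 : x - y ∈ dirs ({x, y} : Finset V) := sub_mem_dirs (by simp) (by simp)
  rw [← hc] at h3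
  have := (dirs ({x, y} : Finset V)).smul_mem c⁻¹ h3
  rwa [smul_smul, inv_mul_cancel₀ hc0, one_smul] at this

omit [FiniteDimensional ℝ V] [DecidableEq V] in
private theorem dirs_image_map {V' : Type*} [AddCommGroup V'] [Module ℝ V'] [DecidableEq V']
    (φ : V →ₗ[ℝ] V') (X : Finset V) : dirs (X.image φ) = (dirs X).map φ := by
  apply le_antisymm
  · unfold dirs
    rw [vectorSpan_def, Submodule.span_le]
    rintro w ⟨a, ha, b, hb, rfl⟩
    obtain ⟨x, hx, rfl⟩ := Finset.mem_image.1 (Finset.mem_coe.1 ha)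
    obtain ⟨y, hy, rfl⟩ := Finset.mem_image.1 (Finset.mem_coe.1 hb)
    exact ⟨x - y, sub_mem_dirs hx hy, by simp⟩
  · rw [Submodule.map_le_iff_le_comap]
    unfold dirs
    rw [vectorSpan_def, Submodule.span_le]
    rintro w ⟨x, hx, y, hy, rfl⟩
    change φ (x - y) ∈ dirs (X.image φ)
    rw [map_sub]
    exact sub_mem_dirs (Finset.mem_image_of_mem φ hx) (Finset.mem_image_of_mem φ hy)

omit [DecidableEq V] in
private theorem finrank_map_quot {v : V} {W : Submodule ℝ V} (hvW : v ∉ W) :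
    finrank ℝ (W.map (Submodule.span ℝ {v}).mkQ) = finrank ℝ W := by
  have hinj : Function.Injective ((Submodule.span ℝ {v}).mkQ.domRestrict W) := by
    rw [← LinearMap.ker_eq_bot, LinearMap.ker_eq_bot']
    rintro ⟨x, hx⟩ h0
    have h1 : x ∈ Submodule.span ℝ {v} := by
      have : (Submodule.span ℝ {v}).mkQ x = 0 := h0
      rwa [Submodule.mkQ_apply, Submodule.Quotient.mk_eq_zero] at this
    obtain ⟨c, rfl⟩ := Submodule.mem_span_singleton.1 h1
    by_cases hc : c = 0
    · subst hc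
      ext
      simp
    · exfalso
      apply hvW
      have := W.smul_mem c⁻¹ hx
      rwa [smul_smul, inv_mul_cancel₀ hc, one_smul] at this
  have h2 := LinearMap.finrank_range_of_inj hinj
  rw [LinearMap.range_domRestrict] at h2
  exact h2

theorem hasGood_of_quot (S : Finset V) (v : V) (hv : v ≠ 0) (h5 : 5 ≤ finrank ℝ V)
    (hgen : ∀ X ⊆ S, dirs X ≠ ⊤ → v ∉ dirs X)
    [DecidableEq (V ⧸ Submodule.span ℝ {v})]
    (hq : HasGood (S.image (Submodule.span ℝ {v}).mkQ)) : HasGood S := by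
  obtain ⟨A', R', Q', ⟨f', t, rfl, rfl, rfl⟩, hg⟩ := hq
  set π := (Submodule.span ℝ {v}).mkQ with hπ
  set f : Dual ℝ V := f'.comp π with hf
  have hfx : ∀ x, f x = f' (π x) := fun x => rfl
  have hA : zer (S.image π) f' t = (zer S f t).image π := by
    ext y
    simp only [mem_zer, Finset.mem_image]
    constructor
    · rintro ⟨⟨x, hx, rfl⟩, h⟩
      exact ⟨x, ⟨hx, h⟩, rfl⟩
    · rintro ⟨x, ⟨hx, h⟩, rfl⟩
      exact ⟨⟨x, hx, rfl⟩, h⟩
  have hR : pos (S.image π) f' t = (pos S f t).image π := by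
    ext y
    simp only [mem_pos, Finset.mem_image]
    constructor
    · rintro ⟨⟨x, hx, rfl⟩, h⟩
      exact ⟨x, ⟨hx, h⟩, rfl⟩
    · rintro ⟨x, ⟨hx, h⟩, rfl⟩
      exact ⟨⟨x, hx, rfl⟩, h⟩
  have hQ : neg (S.image π) f' t = (neg S f t).image π := by
    ext y
    simp only [mem_neg, Finset.mem_image]
    constructor
    · rintro ⟨⟨x, hx, rfl⟩, h⟩
      exact ⟨x, ⟨hx, h⟩, rfl⟩
    · rintro ⟨x, ⟨hx, h⟩, rfl⟩
      exact ⟨⟨x, hx, rfl⟩, h⟩
  rw [hA, hR, hQ] at hg
  have htop : ∀ X : Finset V, dirs X = ⊤ → 4 ≤ finrank ℝ (dirs (X.image π)) := by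
    intro X hX
    rw [dirs_image_map, hX, Submodule.map_top, hπ, Submodule.range_mkQ, finrank_top]
    have h1 := Submodule.finrank_quotient_add_finrank (Submodule.span ℝ {v})
    have h2 := finrank_span_singleton (K := ℝ) hv
    omega
  have key : ∀ X ⊆ S, finrank ℝ (dirs (X.image π)) ≤ 3 →
      dirs X ≠ ⊤ ∧ v ∉ dirs X ∧ finrank ℝ (dirs (X.image π)) = finrank ℝ (dirs X) := by
    intro X hX h3
    have h1 : dirs X ≠ ⊤ := by
      intro h
      have := htop X h
      omega
    have h2 := hgen X hX h1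
    refine ⟨h1, h2, ?_⟩
    rw [dirs_image_map]
    exact finrank_map_quot h2
  obtain ⟨hAt, hAv, hAf⟩ := key _ (zer_subset (f := f) (t := t)) hg.a3
  obtain ⟨hRt, hRv, hRf⟩ := key _ (pos_subset (f := f) (t := t)) hg.r3
  obtain ⟨hQt, hQv, hQf⟩ := key _ (neg_subset (f := f) (t := t)) hg.q3
  refine ⟨_, _, _, ⟨f, t, rfl, rfl, rfl⟩, ?_⟩
  refine ⟨hAf ▸ hg.a3, hRf ▸ hg.r3, hQf ▸ hg.q3, ?_, ?_, ?_, ?_⟩
  · have hvW : v ∉ dirs (zer S f t) ⊓ dirs (pos S f t) ⊓ dirs (neg S f t) :=
      fun h => hAv h.1.1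
    rw [← finrank_map_quot hvW]
    refine le_trans (Submodule.finrank_mono ?_) hg.arq
    rw [dirs_image_map, dirs_image_map, dirs_image_map]
    refine le_inf (le_inf ?_ ?_) ?_
    · exact Submodule.map_mono (inf_le_left.trans inf_le_left)
    · exact Submodule.map_mono (inf_le_left.trans inf_le_right)
    · exact Submodule.map_mono inf_le_right
  · intro h
    rw [← hRf]
    exact hg.rq (by rw [dirs_image_map, dirs_image_map, h])
  · intro h
    rw [← hAf]
    exact hg.ar (by rw [dirs_image_map, dirs_image_map, h])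
  · intro h
    rw [← hAf]
    exact hg.aq (by rw [dirs_image_map, dirs_image_map, h])

end FourCP
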