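import Pool.Agent.Lib.MP_e6820d_co.Select4
import Pool.Agent.Lib.MP_e6820d_co.Quot

/-!
Selection of a good split for eleven points in any finite dimension (MP_e6820d_co).
-/

namespace FourCP

open Module

theorem select_small {V : Type*} [AddCommGroup V] [Module ℝ V] [FiniteDimensional ℝ V]
    (h : finrank ℝ V ≤ 3) (S : Finset V) : HasGood S := by
  have h1 : zer S (0 : Dual ℝ V) (-1) = ∅ := by
    ext x; simp [mem_zer]
  have h2 : neg S (0 : Dual ℝ V) (-1) = ∅ := by
    ext x
    rw [mem_neg]
    simp only [LinearMap.zero_apply, Finset.notMem_empty, iff_false, not_and, not_lt]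
    intro _
    norm_num
  refine ⟨_, _, _, ⟨0, -1, rfl, rfl, rfl⟩, ?_⟩
  have h3 : finrank ℝ (dirs (pos S (0 : Dual ℝ V) (-1))) ≤ 3 :=
    (Submodule.finrank_le _).trans h
  rw [h1, h2]
  have h5 : finrank ℝ (dirs (∅ : Finset V)) = 0 := finrank_dirs_empty
  refine ⟨by omega, h3, by omega, ?_, ?_, fun _ => by omega, fun _ => by omega⟩
  · have h6 : dirs (∅ : Finset V) ⊓ dirs (pos S (0 : Dual ℝ V) (-1)) ⊓ dirs (∅ : Finset V) ≤
        dirs (∅ : Finset V) := inf_le_right
    have h7 := Submodule.finrank_mono h6
    omega
  · intro h4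
    rw [h4]
    omega

theorem select_aux (n : ℕ) : ∀ {V : Type*} [AddCommGroup V] [Module ℝ V] [FiniteDimensional ℝ V],
    finrank ℝ V = n → ∀ S : Finset V, S.card = 11 → HasGood S := by
  induction n with
  | zero =>
    intro V _ _ _ hn S hS
    exact select_small (by omega) S
  | succ n ih =>
    intro V _ _ _ hn S hS
    classical
    rcases Nat.lt_or_ge n 3 with h3 | h3
    · exact select_small (by omega) S
    rcases Nat.lt_or_ge n 4 with h4 | h4
    · exact select4 (by omega) hS
    · obtain ⟨v, hv, hgen⟩ := exists_generic_vec S (by omega)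
      refine hasGood_of_quot S v hv (by omega) hgen ?_
      apply ih
      · have h1 := Submodule.finrank_quotient_add_finrank (Submodule.span ℝ {v})
        have h2 := finrank_span_singleton (K := ℝ) hv
        omega
      · rw [card_image_quot S v (by omega) hgen, hS]

theorem select {V : Type*} [AddCommGroup V] [Module ℝ V] [FiniteDimensional ℝ V]
    {S : Finset V} (hS : S.card = 11) : HasGood S := select_aux _ rfl S hS

end FourCP
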