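import Pool.Agent.Lib.MP_e6820d_co.Flag
import Pool.Agent.Lib.MP_e6820d_co.Perturb

/-!
Step 1: every hyperplane has at most six points, some four points are coplanar (MP_e6820d_co).
-/

namespace FourCP

open Module

variable {V : Type*} [AddCommGroup V] [Module ℝ V]

private theorem step1_sub {S A R Q : Finset V} (h : Split S A R Q) :
    A ⊆ S ∧ R ⊆ S ∧ Q ⊆ S ∧ Disjoint A R ∧ Disjoint A Q := by
  obtain ⟨f, t, rfl, rfl, rfl⟩ := h
  refine ⟨zer_subset, pos_subset, neg_subset, ?_, ?_⟩
  · rw [Finset.disjoint_left]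
    intro x h1 h2
    rw [mem_zer] at h1
    rw [mem_pos] at h2
    linarith [h1.2, h2.2]
  · rw [Finset.disjoint_left]
    intro x h1 h2
    rw [mem_zer] at h1
    rw [mem_neg] at h2
    linarith [h1.2, h2.2]

private theorem step1_core {S L R Q : Finset V} (H6 : Hyp6 S) (hLS : L ⊆ S) (hRS : R ⊆ S)
    (hd : Disjoint L R) (hL : finrank ℝ (dirs L) ≤ 2) (hL4 : 4 ≤ L.card) (hR : R.card ≤ 3)
    (hQ : Q.card ≤ 4) : GoodT L R Q := by
  classical
  have hR2 : finrank ℝ (dirs R) ≤ 2 := by
    have := finrank_dirs_le_card_sub_one R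
    omega
  have hQ3 : finrank ℝ (dirs Q) ≤ 3 := by
    have := finrank_dirs_le_card_sub_one Q
    omega
  refine ⟨by omega, by omega, hQ3, ?_, fun _ => hR2, fun _ => hL, fun _ => hL⟩
  by_contra hcon
  push Not at hcon
  set W := dirs L ⊓ dirs R ⊓ dirs Q with hW
  have hWL : W ≤ dirs L := inf_le_left.trans inf_le_left
  have hWR : W ≤ dirs R := inf_le_left.trans inf_le_right
  have e1 : W = dirs L := Submodule.eq_of_le_of_finrank_le hWL (by omega)
  have e2 : W = dirs R := Submodule.eq_of_le_of_finrank_le hWR (by omega)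
  have hW2 : finrank ℝ W ≤ 2 := by rw [e1]; exact hL
  have hR3 : R.card = 3 := by
    have h1 := finrank_dirs_le_card_sub_one R
    rw [← e2] at h1
    omega
  obtain ⟨r, hr⟩ : R.Nonempty := by rw [← Finset.card_pos]; omega
  obtain ⟨l, hl⟩ : L.Nonempty := by rw [← Finset.card_pos]; omega
  have hU : dirs (L ∪ R) ≤ W ⊔ Submodule.span ℝ {r - l} := by
    apply dirs_le l
    intro x hx
    rcases Finset.mem_union.1 hx with hx | hx
    · apply Submodule.mem_sup_left
      rw [e1]
      exact sub_mem_dirs hx hl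
    · have h1 : x - r ∈ W := by
        rw [e2]
        exact sub_mem_dirs hx hr
      have h2 : x - l = (x - r) + (r - l) := by abel
      rw [h2]
      exact Submodule.add_mem _ (Submodule.mem_sup_left h1)
        (Submodule.mem_sup_right (Submodule.mem_span_singleton_self _))
  have hWf : FiniteDimensional ℝ W := by rw [e1]; infer_instance
  have h3 : finrank ℝ (dirs (L ∪ R)) ≤ 3 := by
    calc finrank ℝ (dirs (L ∪ R)) ≤ finrank ℝ ↥(W ⊔ Submodule.span ℝ {r - l}) :=
          Submodule.finrank_mono hU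
      _ ≤ finrank ℝ W + finrank ℝ (Submodule.span ℝ {r - l}) :=
          Submodule.finrank_add_le_finrank_add_finrank _ _
      _ ≤ 3 := by
          have := finrank_span_le_card (R := ℝ) ({r - l} : Set V)
          simp at this
          omega
  have h4 := H6 (L ∪ R) (Finset.union_subset hLS hRS) h3
  rw [Finset.card_union_of_disjoint hd] at h4
  omega

private theorem step1_fin {S L R Q : Finset V} (H6 : Hyp6 S) (h : Split S L R Q)
    (hL : finrank ℝ (dirs L) ≤ 2) (hL4 : 4 ≤ L.card)
    (hc : (R.card ≤ 3 ∧ Q.card ≤ 4) ∨ (R.card ≤ 4 ∧ Q.card ≤ 3)) : HasGood S := by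
  classical
  obtain ⟨h1, h2, h3, h4, h5⟩ := step1_sub h
  rcases hc with ⟨c1, c2⟩ | ⟨c1, c2⟩
  · exact ⟨L, R, Q, h, step1_core H6 h1 h2 h4 hL hL4 c1 c2⟩
  · exact ⟨L, Q, R, h.swap, step1_core H6 h1 h3 h5 hL hL4 c2 c1⟩

theorem step1 (hV : finrank ℝ V = 4) {S : Finset V} (hS : S.card = 11) (H6 : Hyp6 S)
    (hG : ¬ Gen4 S) : HasGood S := by
  classical
  unfold Gen4 at hG
  push Not at hG
  obtain ⟨X, hX, hX4, hXr⟩ := hG
  have hXn : X.Nonempty := by rw [← Finset.card_pos]; omega
  have h2 : finrank ℝ (dirs X) ≤ 2 := by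
    have := finrank_dirs_le_card_sub_one X
    omega
  obtain ⟨f, g, t, u, hf, hXL, hL2, hLA, hp, hn⟩ := flag hV (by omega) H6 hX hXn h2
  have hA6 : (zer S f t).card ≤ 6 := H6 _ zer_subset (finrank_dirs_zer_le hV S hf t)
  have hL4 : 4 ≤ (zer (zer S f t) g u).card := hX4 ▸ Finset.card_le_card hXL
  have hAc := card_split (zer S f t) g u
  have hSc := card_split S f t
  have k : ((pos S f t).card + (pos (zer S f t) g u).card ≤ 3 ∧
        (neg S f t).card + (neg (zer S f t) g u).card ≤ 4) ∨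
      ((pos S f t).card + (pos (zer S f t) g u).card ≤ 4 ∧
        (neg S f t).card + (neg (zer S f t) g u).card ≤ 3) ∨
      ((pos S f t).card + (neg (zer S f t) g u).card ≤ 3 ∧
        (neg S f t).card + (pos (zer S f t) g u).card ≤ 4) ∨
      ((pos S f t).card + (neg (zer S f t) g u).card ≤ 4 ∧
        (neg S f t).card + (pos (zer S f t) g u).card ≤ 3) := by
    omega
  have s1 := split_perturb S f g t u
  have s2 := split_perturb S f (-g) t (-u)
  rw [zer_neg, pos_neg, neg_neg'] at s2
  have c1 := Finset.card_union_le (pos S f t) (pos (zer S f t) g u)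
  have c2 := Finset.card_union_le (neg S f t) (neg (zer S f t) g u)
  have c3 := Finset.card_union_le (pos S f t) (neg (zer S f t) g u)
  have c4 := Finset.card_union_le (neg S f t) (pos (zer S f t) g u)
  rcases k with k | k | k | k
  · exact step1_fin H6 s1 hL2 hL4 (Or.inl ⟨by omega, by omega⟩)
  · exact step1_fin H6 s1 hL2 hL4 (Or.inr ⟨by omega, by omega⟩)
  · exact step1_fin H6 s2 hL2 hL4 (Or.inl ⟨by omega, by omega⟩)
  · exact step1_fin H6 s2 hL2 hL4 (Or.inr ⟨by omega, by omega⟩)

end FourCP
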