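import Pool.Agent.Lib.MP_e6820d_co.Step0
import Pool.Agent.Lib.MP_e6820d_co.Step1
import Pool.Agent.Lib.MP_e6820d_co.Alpha
import Pool.Agent.Lib.MP_e6820d_co.Beta35
import Pool.Agent.Lib.MP_e6820d_co.Beta44a
import Pool.Agent.Lib.MP_e6820d_co.Beta44b

/-!
Selection of a good split for eleven points in dimension four (MP_e6820d_co).
-/

namespace FourCP

open Module

variable {V : Type*} [AddCommGroup V] [Module ℝ V]

/-- The last step for a hyperplane with the smaller side above it. -/
theorem step2_aux (hV : finrank ℝ V = 4) {S : Finset V} (hS : S.card = 11) (H6 : Hyp6 S)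
    (G4 : Gen4 S) {f : Dual ℝ V} {t : ℝ} (hf : f ≠ 0) (hA : 4 ≤ (zer S f t).card)
    (hle : (pos S f t).card ≤ (neg S f t).card) (hQ : (neg S f t).card ≤ 4) : HasGood S := by
  classical
  have hc := card_split S f t
  have hAk := dirs_zer_eq_ker hV G4 hf hA
  have hA6 : (zer S f t).card ≤ 6 := H6 _ zer_subset (finrank_dirs_zer_le hV S hf t)
  have hS4 : 4 ≤ S.card := by omega
  have hR3 : (pos S f t).card ≤ 3 := by omega
  have hRn : (pos S f t).Nonempty := by
    rw [← Finset.card_pos]; omega
  have hQn : (neg S f t).Nonempty := by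
    rw [← Finset.card_pos]; omega
  have hkf := finrank_ker_eq hV hf
  have hRf := finrank_dirs_add_one_le hRn
  have hQf := finrank_dirs_add_one_le hQn
  by_cases hg : GoodT (zer S f t) (pos S f t) (neg S f t)
  · exact ⟨_, _, _, split_self S f t, hg⟩
  by_cases hQA : dirs (neg S f t) = LinearMap.ker f
  · -- case alpha
    have h4 : (neg S f t).card = 4 := by
      rw [hQA, hkf] at hQf
      omega
    exact alpha hV hS G4 hf h4 hQA hRn hR3
  · have hbeta : (pos S f t).card = 3 ∧ dirs (pos S f t) ≤ LinearMap.ker f ∧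
        dirs (pos S f t) ≤ dirs (neg S f t) := by
      have h1 : ¬ finrank ℝ ↥(dirs (zer S f t) ⊓ dirs (pos S f t) ⊓ dirs (neg S f t)) ≤ 1 := by
        intro h1
        apply hg
        refine ⟨?_, ?_, ?_, h1, ?_, ?_, ?_⟩
        · rw [hAk, hkf]
        · omega
        · omega
        · intro _; omega
        · intro h; rw [h]; omega
        · intro h; rw [hAk] at h; exact absurd h.symm hQA
      have h2 : dirs (zer S f t) ⊓ dirs (pos S f t) ⊓ dirs (neg S f t) ≤ dirs (pos S f t) :=
        inf_le_left.trans inf_le_right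
      have h3 := Submodule.finrank_mono h2
      have h4 : (pos S f t).card = 3 := by omega
      have h5 : dirs (zer S f t) ⊓ dirs (pos S f t) ⊓ dirs (neg S f t) = dirs (pos S f t) :=
        Submodule.eq_of_le_of_finrank_le h2 (by omega)
      refine ⟨h4, ?_, ?_⟩
      · rw [← hAk, ← h5]
        exact inf_le_left.trans inf_le_left
      · conv_lhs => rw [← h5]
        exact inf_le_right
    obtain ⟨hb1, hb2, hb3⟩ := hbeta
    rcases Nat.lt_or_ge (neg S f t).card 4 with h4 | h4
    · have hq3 : (neg S f t).card = 3 := by omega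
      refine beta35 hV hS H6 G4 hf hb1 hq3 ?_ hb2
      apply Submodule.eq_of_le_of_finrank_le hb3
      have := G4.finrank_eq hS4 (pos_subset (f := f) (t := t)) (by omega) hRn
      omega
    · have hq4 : (neg S f t).card = 4 := by omega
      rcases beta44a hV hS H6 G4 hf hb1 hq4 hQA hb2 hb3 with h | ⟨t1, t2, t3, t4, h1, h2, h3, h4, h5,
        h6, h7, h8, h9⟩
      · exact h
      · exact beta44b hV hS H6 G4 hf hb1 hq4 hQA hb2 hb3 h1 h2 h3 h4 h5 h6 h7 h8 h9

theorem step2 (hV : finrank ℝ V = 4) {S : Finset V} (hS : S.card = 11) (H6 : Hyp6 S)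
    (G4 : Gen4 S) : HasGood S := by
  classical
  obtain ⟨X, hX, hX3⟩ := Finset.exists_subset_card_eq (s := S) (n := 3) (by omega)
  have hXn : X.Nonempty := by rw [← Finset.card_pos]; omega
  have h1 := finrank_dirs_add_one_le hXn
  obtain ⟨f, g, t, u, hf, h2, h3, h4, h5, h6⟩ := flag hV (by omega) H6 hX hXn (by omega)
  have hL3 : 3 ≤ (zer (zer S f t) g u).card := by
    rw [← hX3]; exact Finset.card_le_card h2
  have hA4 : 4 ≤ (zer S f t).card := by omega
  rcases le_total (pos S f t).card (neg S f t).card with h | h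
  · exact step2_aux hV hS H6 G4 hf hA4 h (by omega)
  · refine step2_aux (f := -f) (t := -t) hV hS H6 G4 (neg_ne_zero.2 hf) ?_ ?_ ?_
    · rw [zer_neg]; exact hA4
    · rw [pos_neg, neg_neg']; exact h
    · rw [neg_neg']; omega

theorem select4 (hV : finrank ℝ V = 4) {S : Finset V} (hS : S.card = 11) : HasGood S := by
  by_cases H6 : Hyp6 S
  · by_cases G4 : Gen4 S
    · exact step2 hV hS H6 G4
    · exact step1 hV hS H6 G4
  · exact step0 hV hS H6

end FourCP
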