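import Pool.Agent.Lib.MP_e6820d_co.GenPos
import Pool.Agent.Lib.MP_e6820d_co.Perturb

/-!
Step 0: some hyperplane contains at least seven of the eleven points (MP_e6820d_co).
-/

namespace FourCP

open Module

variable {V : Type*} [AddCommGroup V] [Module ℝ V]

/-- A point outside the affine span can be put strictly below the other points. -/
private theorem s0_sep {Q : Finset V} [DecidableEq V] (hQ : Q.card = 4)
    (h3 : 2 < finrank ℝ (dirs Q)) {q : V} (hq : q ∈ Q) :
    ∃ (g : Dual ℝ V) (u : ℝ), (∀ y ∈ Q.erase q, g y = u) ∧ g q < u := by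
  have hc : (Q.erase q).card = 3 := by rw [Finset.card_erase_of_mem hq]; omega
  obtain ⟨q0, hq0⟩ : (Q.erase q).Nonempty := Finset.card_pos.1 (by omega)
  have h2 : finrank ℝ (dirs (Q.erase q)) ≤ 2 := by
    have := finrank_dirs_le_card_sub_one (Q.erase q)
    omega
  have hnot : q - q0 ∉ dirs (Q.erase q) := by
    intro h
    have h1 := dirs_insert_le (x := q) hq0
    rw [Finset.insert_erase hq] at h1
    have h4 : dirs (Q.erase q) ⊔ Submodule.span ℝ {q - q0} = dirs (Q.erase q) := by
      rw [sup_eq_left, Submodule.span_le, Set.singleton_subset_iff]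
      exact h
    rw [h1, h4] at h3
    omega
  obtain ⟨g, hg, hgk⟩ := Submodule.exists_le_ker_of_notMem (K := ℝ) hnot
  rw [map_sub] at hg
  rcases lt_or_gt_of_ne hg with h | h
  · exact ⟨g, g q0, fun y hy => eq_of_dirs_le_ker hgk hy hq0, by linarith⟩
  · refine ⟨-g, -(g q0), fun y hy => ?_, ?_⟩
    · rw [LinearMap.neg_apply, eq_of_dirs_le_ker hgk hy hq0]
    · rw [LinearMap.neg_apply]; linarith

private theorem s0_core (hV : finrank ℝ V = 4) {S : Finset V} (hS : S.card = 11)
    {f : Dual ℝ V} (hf : f ≠ 0) (t : ℝ) (h7 : 7 ≤ (zer S f t).card)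
    (hle : (pos S f t).card ≤ (neg S f t).card) : HasGood S := by
  classical
  have hfd : FiniteDimensional ℝ V := FiniteDimensional.of_finrank_pos (by omega)
  have hc := card_split S f t
  have hA3 := finrank_dirs_zer_le hV S hf t
  have hR1 : finrank ℝ (dirs (pos S f t)) ≤ 1 := by
    have := finrank_dirs_le_card_sub_one (pos S f t)
    omega
  have hQ3 : finrank ℝ (dirs (neg S f t)) ≤ 3 := by
    have := finrank_dirs_le_card_sub_one (neg S f t)
    omega
  by_cases hbad : dirs (zer S f t) = dirs (neg S f t) ∧ 2 < finrank ℝ (dirs (zer S f t))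
  · obtain ⟨heq, hgt⟩ := hbad
    have hgt' : 2 < finrank ℝ (dirs (neg S f t)) := by rw [← heq]; exact hgt
    have hQ4 : (neg S f t).card = 4 := by
      have := finrank_dirs_le_card_sub_one (neg S f t)
      omega
    have hR0 : pos S f t = ∅ := Finset.card_eq_zero.1 (by omega)
    obtain ⟨q, hq⟩ : (neg S f t).Nonempty := Finset.card_pos.1 (by omega)
    have hker : dirs (neg S f t) ≤ LinearMap.ker f := by
      rw [← heq]
      exact dirs_le_ker (t := t) fun x hx => (mem_zer.1 hx).2
    have hfq : ∀ x ∈ neg S f t, f x = f q := fun x hx => eq_of_dirs_le_ker hker hx hq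
    have hqt : f q < t := (mem_neg.1 hq).2
    have hnp : ∀ x ∈ S, ¬ t < f x := by
      intro x hx h
      have : x ∈ pos S f t := mem_pos.2 ⟨hx, h⟩
      rw [hR0] at this
      exact absurd this (Finset.notMem_empty x)
    have hz : zer S f (f q) = neg S f t := by
      ext x
      rw [mem_zer, mem_neg]
      constructor
      · rintro ⟨h1, h2⟩
        exact ⟨h1, by rw [h2]; exact hqt⟩
      · rintro ⟨h1, h2⟩
        exact ⟨h1, hfq x (mem_neg.2 ⟨h1, h2⟩)⟩
    have hp : pos S f (f q) = zer S f t := by
      ext x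
      rw [mem_pos, mem_zer]
      constructor
      · rintro ⟨h1, h2⟩
        refine ⟨h1, ?_⟩
        rcases lt_trichotomy (f x) t with h | h | h
        · have := hfq x (mem_neg.2 ⟨h1, h⟩)
          linarith
        · exact h
        · exact absurd h (hnp x h1)
      · rintro ⟨h1, h2⟩
        exact ⟨h1, by rw [h2]; exact hqt⟩
    have hn : neg S f (f q) = ∅ := by
      rw [Finset.eq_empty_iff_forall_notMem]
      intro x hx
      rw [mem_neg] at hx
      have := hfq x (mem_neg.2 ⟨hx.1, by linarith [hx.2]⟩)
      linarith [hx.2]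
    obtain ⟨g, u, hgu, hgq⟩ := s0_sep hQ4 hgt' hq
    have hsp := split_perturb S f g (f q) u
    rw [hz, hp, hn, Finset.empty_union] at hsp
    have e1 : zer (neg S f t) g u = (neg S f t).erase q := by
      ext x
      rw [mem_zer, Finset.mem_erase]
      constructor
      · rintro ⟨h1, h2⟩
        refine ⟨?_, h1⟩
        intro h
        rw [h] at h2
        linarith
      · rintro ⟨h1, h2⟩
        exact ⟨h2, hgu x (Finset.mem_erase.2 ⟨h1, h2⟩)⟩
    have e2 : pos (neg S f t) g u = ∅ := by
      rw [Finset.eq_empty_iff_forall_notMem]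
      intro x hx
      rw [mem_pos] at hx
      by_cases h : x = q
      · rw [h] at hx; linarith [hx.2]
      · have := hgu x (Finset.mem_erase.2 ⟨h, hx.1⟩)
        linarith [hx.2]
    have e3 : neg (neg S f t) g u = {q} := by
      ext x
      rw [mem_neg, Finset.mem_singleton]
      constructor
      · rintro ⟨h1, h2⟩
        by_contra h
        have := hgu x (Finset.mem_erase.2 ⟨h, h1⟩)
        linarith
      · intro h
        rw [h]
        exact ⟨hq, hgq⟩
    rw [e1, e2, e3, Finset.union_empty] at hsp
    have h2 : finrank ℝ (dirs ((neg S f t).erase q)) ≤ 2 := by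
      have h4 := finrank_dirs_le_card_sub_one ((neg S f t).erase q)
      rw [Finset.card_erase_of_mem hq, hQ4] at h4
      exact h4
    have h0 : finrank ℝ (dirs ({q} : Finset V)) = 0 := finrank_dirs_singleton q
    refine ⟨_, _, _, hsp, ⟨by omega, hA3, by omega, ?_, ?_, fun _ => h2, fun _ => h2⟩⟩
    · have := Submodule.finrank_mono (inf_le_right :
        dirs ((neg S f t).erase q) ⊓ dirs (zer S f t) ⊓ dirs ({q} : Finset V) ≤
          dirs ({q} : Finset V))
      omega
    · intro h
      rw [h]
      omega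
  · refine ⟨_, _, _, split_self S f t, ⟨hA3, by omega, hQ3, ?_, fun _ => by omega, ?_, ?_⟩⟩
    · have := Submodule.finrank_mono (inf_le_left.trans inf_le_right :
        dirs (zer S f t) ⊓ dirs (pos S f t) ⊓ dirs (neg S f t) ≤ dirs (pos S f t))
      omega
    · intro h
      rw [h]
      omega
    · intro h
      by_contra hcon
      exact hbad ⟨h, by omega⟩

theorem step0 (hV : finrank ℝ V = 4) {S : Finset V} (hS : S.card = 11) (h : ¬ Hyp6 S) :
    HasGood S := by
  classical
  unfold Hyp6 at h
  push Not at h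
  obtain ⟨X, hX, h3, h7⟩ := h
  obtain ⟨f, t, hf, hft⟩ := exists_hyperplane hV h3
  have hsub : X ⊆ zer S f t := fun x hx => mem_zer.2 ⟨hX hx, hft x hx⟩
  have h7' : 7 ≤ (zer S f t).card := le_trans h7 (Finset.card_le_card hsub)
  rcases le_total (pos S f t).card (neg S f t).card with hle | hle
  · exact s0_core hV hS hf t h7' hle
  · refine s0_core hV hS (neg_ne_zero.2 hf) (-t) ?_ ?_
    · rw [zer_neg]; exact h7'
    · rw [pos_neg, neg_neg']; exact hle

end FourCP
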