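import Pool.Agent.Lib.MP_e6820d_co.Basics
import Pool.Agent.Lib.MP_e6820d_co.FinLat

/-!
The colouring of the tie points `mu = c` of one side (MP_e6820d_co).

`p u = 0` and `p u = 1` are the two colours of the side, `p u = 2` is the thin third colour.
-/

namespace FourCP

open Module

/-- A functional at the reflected point. -/
theorem dual_refl {m : ℕ} (f : Dual ℝ (Fin m → ℝ)) (s u : Fin m → ℤ) :
    f (emb (s + s - u)) = 2 * f (emb s) - f (emb u) := by
  have h1 : emb (s + s - u) = emb s + emb s - emb u := by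
    refine funext fun i => ?_
    change (((s + s - u) i : ℤ) : ℝ) = (s i : ℝ) + (s i : ℝ) - (u i : ℝ)
    rw [Pi.sub_apply, Pi.add_apply, Int.cast_sub, Int.cast_add]
  rw [h1, map_sub, map_add]
  ring

theorem tie {m : ℕ} (R : Finset (Fin m → ℝ)) (lam mu mu' : Dual ℝ (Fin m → ℝ)) (τ c : ℝ)
    (hT : ∀ u : Fin m → ℤ, mu (emb u) = c → ∃ r ∈ R, emb u - r ∈ dirs R)
    (hd : finrank ℝ ↥(dirs R ⊓ LinearMap.ker lam ⊓ LinearMap.ker mu') ≤ 1) :
    ∃ p : (Fin m → ℤ) → Fin 3,
      (∀ s : Fin m → ℤ, emb s ∈ R →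
        {u : Fin m → ℤ | mu (emb u) = c ∧ τ ≤ lam (emb u) ∧ τ ≤ lam (emb (s + s - u)) ∧
          p u = p (s + s - u)}.Finite) ∧
      (∀ (s : Fin m → ℤ) (c' : ℝ),
        {u : Fin m → ℤ | mu (emb u) = c ∧ τ ≤ lam (emb u) ∧ p u = 2 ∧
          mu' (emb (s + s - u)) ≤ c'}.Finite) ∧
      (∀ s : Fin m → ℤ,
        {u : Fin m → ℤ | mu (emb u) = c ∧ τ ≤ lam (emb u) ∧ p u = 2 ∧
          p (s + s - u) = 2}.Finite) := by
  classical
  obtain ⟨nu, hnu⟩ := exists_dual_of_finrank_le_one _ hd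
  -- bounds on `R`
  let K : ℝ := ∑ r ∈ R, (|nu r| + |lam r|)
  have hK : ∀ r ∈ R, |nu r| + |lam r| ≤ K := fun r hr =>
    Finset.single_le_sum (f := fun r => |nu r| + |lam r|)
      (fun r _ => add_nonneg (abs_nonneg _) (abs_nonneg _)) hr
  have hKn : ∀ r ∈ R, |nu r| ≤ K := fun r hr => by
    have := hK r hr
    have := abs_nonneg (lam r)
    linarith
  have hKl : ∀ r ∈ R, |lam r| ≤ K := fun r hr => by
    have := hK r hr
    have := abs_nonneg (nu r)
    linarith
  -- finiteness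
  have fin : ∀ (T : Set (Fin m → ℤ)) (B : ℝ), (∀ u ∈ T, mu (emb u) = c ∧ |lam (emb u)| ≤ B ∧
      |mu' (emb u)| ≤ B ∧ |nu (emb u)| ≤ B) → T.Finite := by
    intro T B hB
    rcases R.eq_empty_or_nonempty with hR | ⟨r0, hr0⟩
    · have : T = ∅ := by
        rw [Set.eq_empty_iff_forall_notMem]
        intro u hu
        obtain ⟨r, hr, -⟩ := hT u (hB u hu).1
        rw [hR] at hr
        exact absurd hr (Finset.notMem_empty r)
      rw [this]
      exact Set.finite_empty
    · refine (finite_three (dirs R) r0 lam mu' nu hnu B).subset ?_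
      intro u hu
      obtain ⟨h1, h2, h3, h4⟩ := hB u hu
      obtain ⟨r, hr, h5⟩ := hT u h1
      refine ⟨?_, h2, h3, h4⟩
      have h6 := (dirs R).add_mem h5 (sub_mem_dirs hr hr0)
      rw [sub_add_sub_cancel] at h6
      exact h6
  let p : (Fin m → ℤ) → Fin 3 := fun u =>
    if K < nu (emb u) then 0
    else if -(3 * K) ≤ nu (emb u) ∧ mu' (emb u) < 0 ∧ lam (emb u) ≤ 2 * K - τ then 2 else 1
  have pc : ∀ u, (p u = 0 ∧ K < nu (emb u)) ∨
      (p u = 2 ∧ nu (emb u) ≤ K ∧ -(3 * K) ≤ nu (emb u) ∧ mu' (emb u) < 0 ∧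
        lam (emb u) ≤ 2 * K - τ) ∨
      (p u = 1 ∧ nu (emb u) ≤ K ∧ ¬ (-(3 * K) ≤ nu (emb u) ∧ mu' (emb u) < 0 ∧
        lam (emb u) ≤ 2 * K - τ)) := by
    intro u
    by_cases h1 : K < nu (emb u)
    · exact Or.inl ⟨if_pos h1, h1⟩
    · by_cases h2 : -(3 * K) ≤ nu (emb u) ∧ mu' (emb u) < 0 ∧ lam (emb u) ≤ 2 * K - τ
      · exact Or.inr (Or.inl ⟨(if_neg h1).trans (if_pos h2), not_lt.mp h1, h2⟩)
      · exact Or.inr (Or.inr ⟨(if_neg h1).trans (if_neg h2), not_lt.mp h1, h2⟩)
  have p2 : ∀ u, p u = 2 → nu (emb u) ≤ K ∧ -(3 * K) ≤ nu (emb u) ∧ mu' (emb u) < 0 ∧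
      lam (emb u) ≤ 2 * K - τ := by
    intro u hu
    rcases pc u with h | h | h
    · rw [h.1] at hu
      exact absurd hu (by decide)
    · exact h.2
    · rw [h.1] at hu
      exact absurd hu (by decide)
  refine ⟨p, fun s hs => ?_, fun s c' => ?_, fun s => ?_⟩
  · refine fin _ (3 * |K| + |τ| + 2 * |mu' (emb s)|) ?_
    rintro u ⟨h1, h2, h3, h4⟩
    refine ⟨h1, ?_⟩
    have hn := abs_le.mp (hKn _ hs)
    have hl := abs_le.mp (hKl _ hs)
    have e1 := dual_refl nu s u
    have e2 := dual_refl lam s u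
    have e3 := dual_refl mu' s u
    have a1 := le_abs_self K
    have a2 := neg_abs_le τ
    have a3 := le_abs_self τ
    have a4 := le_abs_self (mu' (emb s))
    have a5 := neg_abs_le (mu' (emb s))
    have a6 := abs_nonneg K
    rcases pc u with h | h | h
    · rcases pc (s + s - u) with h' | h' | h'
      · exfalso
        linarith [h.2, h'.2]
      · exfalso
        rw [h.1, h'.1] at h4
        exact absurd h4 (by decide)
      · exfalso
        rw [h.1, h'.1] at h4
        exact absurd h4 (by decide)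
    · rcases pc (s + s - u) with h' | h' | h'
      · exfalso
        rw [h.1, h'.1] at h4
        exact absurd h4 (by decide)
      · obtain ⟨-, b1, b2, b3, b4⟩ := h
        obtain ⟨-, b1', b2', b3', b4'⟩ := h'
        refine ⟨abs_le.mpr ⟨by linarith, by linarith⟩, abs_le.mpr ⟨by linarith, by linarith⟩,
          abs_le.mpr ⟨by linarith, by linarith⟩⟩
      · exfalso
        rw [h.1, h'.1] at h4
        exact absurd h4 (by decide)
    · rcases pc (s + s - u) with h' | h' | h'
      · exfalso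
        rw [h.1, h'.1] at h4
        exact absurd h4 (by decide)
      · exfalso
        rw [h.1, h'.1] at h4
        exact absurd h4 (by decide)
      · obtain ⟨-, b1, b2⟩ := h
        obtain ⟨-, b1', b2'⟩ := h'
        have c1 : -(3 * K) ≤ nu (emb u) := by linarith
        have c1' : -(3 * K) ≤ nu (emb (s + s - u)) := by linarith
        have c2 : lam (emb u) ≤ 2 * K - τ := by linarith
        have c2' : lam (emb (s + s - u)) ≤ 2 * K - τ := by linarith
        have c3 : 0 ≤ mu' (emb u) := by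
          by_contra hlt
          exact b2 ⟨c1, not_le.mp hlt, c2⟩
        have c3' : 0 ≤ mu' (emb (s + s - u)) := by
          by_contra hlt
          exact b2' ⟨c1', not_le.mp hlt, c2'⟩
        refine ⟨abs_le.mpr ⟨by linarith, by linarith⟩, abs_le.mpr ⟨by linarith, by linarith⟩,
          abs_le.mpr ⟨by linarith, by linarith⟩⟩
  · refine fin _ (3 * |K| + |τ| + 2 * |mu' (emb s)| + |c'|) ?_
    rintro u ⟨h1, h2, h3, h4⟩
    refine ⟨h1, ?_⟩
    obtain ⟨b1, b2, b3, b4⟩ := p2 u h3
    have e3 := dual_refl mu' s u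
    have a1 := le_abs_self K
    have a2 := neg_abs_le τ
    have a3 := le_abs_self τ
    have a4 := le_abs_self (mu' (emb s))
    have a5 := neg_abs_le (mu' (emb s))
    have a6 := abs_nonneg K
    have a7 := le_abs_self c'
    have a8 := abs_nonneg c'
    have a9 := abs_nonneg τ
    have a10 := abs_nonneg (mu' (emb s))
    refine ⟨abs_le.mpr ⟨by linarith, by linarith⟩, abs_le.mpr ⟨by linarith, by linarith⟩,
      abs_le.mpr ⟨by linarith, by linarith⟩⟩
  · refine fin _ (3 * |K| + |τ| + 2 * |mu' (emb s)|) ?_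
    rintro u ⟨h1, h2, h3, h4⟩
    refine ⟨h1, ?_⟩
    obtain ⟨b1, b2, b3, b4⟩ := p2 u h3
    obtain ⟨b1', b2', b3', b4'⟩ := p2 _ h4
    have e3 := dual_refl mu' s u
    have a1 := le_abs_self K
    have a2 := neg_abs_le τ
    have a3 := le_abs_self τ
    have a4 := le_abs_self (mu' (emb s))
    have a5 := neg_abs_le (mu' (emb s))
    have a6 := abs_nonneg K
    have a9 := abs_nonneg τ
    have a10 := abs_nonneg (mu' (emb s))
    refine ⟨abs_le.mpr ⟨by linarith, by linarith⟩, abs_le.mpr ⟨by linarith, by linarith⟩,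
      abs_le.mpr ⟨by linarith, by linarith⟩⟩

end FourCP
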