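import Pool.Agent.Lib.MP_e6820d_co.UpOdd
import Pool.Agent.Lib.MP_e6820d_co.CDefs

/-!
The sandwich with twelve points is 4-centerpole in `ℤ^4` (MP_e6820d_co, upper bound).
-/

namespace FourCP

open Up

/-- The sandwich: the twelve points `c` with `Adj c`. -/
def sandwich : Set (Fin 4 → ℤ) := {c | Adj (c 0) (c 1) (c 2) (c 3)}

/-- The list of the points of the sandwich. -/
def sandwichList : List (Fin 4 → ℤ) :=
  [![0, 0, 0, 0], ![0, 1, 0, 0], ![0, 0, 1, 0], ![0, 0, 0, 1], ![0, 1, 1, 0], ![0, 1, 0, 1],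
    ![0, 0, 1, 1], ![1, 1, 1, 0], ![1, 1, 0, 1], ![1, 0, 1, 1], ![1, 1, 1, 1], ![-1, 0, 0, 0]]

theorem sandwich_subset : sandwich ⊆ (sandwichList.toFinset : Set (Fin 4 → ℤ)) := by
  intro c hc
  have hc' : Adj (c 0) (c 1) (c 2) (c 3) := hc
  have h1 : c = ![c 0, c 1, c 2, c 3] := by
    ext i; fin_cases i <;> rfl
  rw [Finset.mem_coe, List.mem_toFinset, h1]
  generalize c 0 = c0 at *
  generalize c 1 = c1 at *
  generalize c 2 = c2 at *
  generalize c 3 = c3 at *
  rcases hc' with ⟨h0, ⟨h1, h1'⟩, ⟨h2, h2'⟩, ⟨h3, h3'⟩, hs⟩ |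
    ⟨h0, ⟨h1, h1'⟩, ⟨h2, h2'⟩, ⟨h3, h3'⟩, hs⟩ | ⟨h0, h1, h2, h3⟩
  · subst h0
    interval_cases c1 <;> interval_cases c2 <;> interval_cases c3 <;>
      first
      | (exfalso; omega)
      | simp [sandwichList]
  · subst h0
    interval_cases c1 <;> interval_cases c2 <;> interval_cases c3 <;>
      first
      | (exfalso; omega)
      | simp [sandwichList]
  · rw [h0, h1, h2, h3]
    simp [sandwichList]

theorem sandwich_encard_le : sandwich.encard ≤ 12 := by
  refine (Set.encard_le_encard sandwich_subset).trans ?_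
  rw [Set.encard_coe_eq_coe_finsetCard]
  have h := List.toFinset_card_le sandwichList
  have h2 : sandwichList.length = 12 := rfl
  rw [h2] at h
  exact_mod_cast h

/-- A set of integer vectors that is finite is bounded. -/
theorem exists_bound {B : Set (Fin 4 → ℤ)} (hB : B.Finite) :
    ∃ R : ℕ, ∀ u ∈ B, ∀ i, |u i| ≤ R := by
  induction B, hB using Set.Finite.induction_on with
  | empty => exact ⟨0, by simp⟩
  | insert _ _ ih =>
    rename_i a s _ _
    obtain ⟨R, hR⟩ := ih
    refine ⟨R + ∑ i, (a i).natAbs, fun u hu i => ?_⟩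
    rcases Set.mem_insert_iff.1 hu with rfl | hu
    · have h1 : (u i).natAbs ≤ ∑ i, (u i).natAbs :=
        Finset.single_le_sum (f := fun i => (u i).natAbs) (fun _ _ => Nat.zero_le _)
          (Finset.mem_univ i)
      rw [Int.abs_eq_natAbs]
      push_cast
      have h2 : ((u i).natAbs : ℤ) ≤ ((∑ i, (u i).natAbs : ℕ) : ℤ) := by exact_mod_cast h1
      push_cast at h2
      have h3 : (0 : ℤ) ≤ R := Int.natCast_nonneg R
      linarith
    · have h1 := hR u hu i
      have h2 : (0 : ℤ) ≤ ((∑ i, (a i).natAbs : ℕ) : ℤ) := Int.natCast_nonneg _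
      push_cast at h2 ⊢
      linarith

/-- The sandwich is 4-centerpole. -/
theorem centerpole_sandwich : Centerpole 4 sandwich := by
  intro χ
  by_contra hcon
  -- all bad sets are finite
  have hfin : ∀ c ∈ sandwich, {u : Fin 4 → ℤ | χ u = χ (c + c - u)}.Finite := by
    intro c hc
    have h1 : {u : Fin 4 → ℤ | χ u = χ (c + c - u)} ⊆
        ⋃ i : Fin 4, {u : Fin 4 → ℤ | χ u = i ∧ χ (c + c - u) = i} := by
      intro u hu
      exact Set.mem_iUnion.2 ⟨χ u, rfl, Eq.symm hu⟩
    refine (Set.finite_iUnion fun i => ?_).subset h1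
    by_contra hinf
    apply hcon
    refine ⟨c, hc, _, hinf, ?_, i, fun x hx => hx.1⟩
    ext y
    constructor
    · rintro ⟨x, hx, rfl⟩
      refine ⟨c + c - x, ⟨hx.2, ?_⟩, ?_⟩
      · have : c + c - (c + c - x) = x := by abel
        rw [this]
        exact hx.1
      · show c - (c + c - x) = x - c
        abel
    · rintro ⟨x, hx, rfl⟩
      refine ⟨c + c - x, ⟨hx.2, ?_⟩, ?_⟩
      · have : c + c - (c + c - x) = x := by abel
        rw [this]
        exact hx.1
      · show c + c - x - c = c - x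
        abel
  have hsf : sandwich.Finite := (Finset.finite_toSet _).subset sandwich_subset
  have hB : (⋃ c ∈ sandwich, {u : Fin 4 → ℤ | χ u = χ (c + c - u)}).Finite :=
    hsf.biUnion hfin
  obtain ⟨R, hR⟩ := exists_bound hB
  refine not_avoids (fun h x y z => χ ![2 * h, 2 * x, 2 * y, 2 * z]) (R + 2) ?_
  intro h x y z h' x' y' z' hfar hadj heq
  -- the centre
  have hc : (![h' - h, x' - x, y' - y, z' - z] : Fin 4 → ℤ) ∈ sandwich := by
    show Adj _ _ _ _
    simpa using hadj
  have hmem : (![2 * h', 2 * x', 2 * y', 2 * z'] : Fin 4 → ℤ) ∈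
      ⋃ c ∈ sandwich, {u : Fin 4 → ℤ | χ u = χ (c + c - u)} := by
    refine Set.mem_biUnion hc ?_
    show χ _ = χ _
    refine Eq.trans heq ?_
    show χ _ = χ _
    congr 1
    ext i
    fin_cases i <;> simp <;> ring
  have h0 := hR _ hmem 0
  have h1 := hR _ hmem 1
  have h2 := hR _ hmem 2
  have h3 := hR _ hmem 3
  simp only [Matrix.cons_val_zero, Matrix.cons_val_one, Matrix.cons_val] at h0 h1 h2 h3
  rw [abs_le] at h0 h1 h2 h3
  unfold Adj at hadj
  push_cast at hfar
  rcases hfar with h | h | h | h <;> rw [lt_abs] at h <;> omega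

/-- `c_4(ℤ^4) ≤ 12`. -/
theorem centerNum_four_le : centerNum 4 (Fin 4 → ℤ) ≤ 12 :=
  (iInf₂_le sandwich centerpole_sandwich).trans sandwich_encard_le

end FourCP
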