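import Pool.Agent.Lib.MP_e6820d_co.UpLoc

/-!
Sums modulo two over the segments, squares and cubes `[-M, M)^d` (MP_e6820d_co, upper bound).
-/

namespace FourCP.Up

/-- Sum over the integers of `[-M, M)`. -/
def lsum (M : ℕ) (g : ℤ → ZMod 2) : ZMod 2 := ∑ i ∈ Finset.range (2 * M), g (-(M : ℤ) + i)

theorem lsum_add (M : ℕ) (g g' : ℤ → ZMod 2) :
    lsum M (fun u => g u + g' u) = lsum M g + lsum M g' := by
  simp [lsum, Finset.sum_add_distrib]

theorem lsum_congr {M : ℕ} {g g' : ℤ → ZMod 2} (h : ∀ u, g u = g' u) : lsum M g = lsum M g' := by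
  simp [lsum, h]

/-- Telescoping. -/
theorem lsum_tele (M : ℕ) (g : ℤ → ZMod 2) :
    lsum M (fun u => g (u + 1) + g u) = g M + g (-(M : ℤ)) := by
  have key : ∀ n : ℕ, ∑ i ∈ Finset.range n, (g (-(M : ℤ) + i + 1) + g (-(M : ℤ) + i)) =
      g (-(M : ℤ) + n) + g (-(M : ℤ)) := by
    intro n
    induction n with
    | zero =>
      simp only [Finset.range_zero, Finset.sum_empty, Nat.cast_zero, add_zero]
      linear_combination (-g (-(M : ℤ))) * two_eq_zero
    | succ n ih =>
      rw [Finset.sum_range_succ, ih]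
      have h1 : (-(M : ℤ) + n + 1) = -(M : ℤ) + ((n + 1 : ℕ) : ℤ) := by push_cast; ring
      rw [h1]
      linear_combination (g (-(M : ℤ) + n)) * two_eq_zero
  unfold lsum
  rw [key (2 * M)]
  congr 2
  push_cast
  ring

/-- Reflection. -/
theorem lsum_reflect (M : ℕ) (g : ℤ → ZMod 2) : lsum M (fun u => g (-u - 1)) = lsum M g := by
  unfold lsum
  rw [← Finset.sum_range_reflect]
  apply Finset.sum_congr rfl
  intro i hi
  rw [Finset.mem_range] at hi
  have h1 : -(-(M : ℤ) + ((2 * M - 1 - i : ℕ) : ℤ)) - 1 = -(M : ℤ) + i := by omega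
  change g (-(-(M : ℤ) + ((2 * M - 1 - i : ℕ) : ℤ)) - 1) = g (-(M : ℤ) + i)
  rw [h1]

/-- Double sum. -/
def fsum (M : ℕ) (F : ℤ → ℤ → ZMod 2) : ZMod 2 := lsum M (fun u => lsum M (fun v => F u v))

theorem fsum_add (M : ℕ) (F F' : ℤ → ℤ → ZMod 2) :
    fsum M (fun u v => F u v + F' u v) = fsum M F + fsum M F' := by
  unfold fsum
  rw [← lsum_add]
  apply lsum_congr
  intro u
  rw [lsum_add]

theorem fsum_congr {M : ℕ} {F F' : ℤ → ℤ → ZMod 2} (h : ∀ u v, F u v = F' u v) :
    fsum M F = fsum M F' := by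
  unfold fsum
  exact lsum_congr fun u => lsum_congr fun v => h u v

theorem fsum_comm (M : ℕ) (F : ℤ → ℤ → ZMod 2) : fsum M F = fsum M (fun u v => F v u) := by
  unfold fsum lsum
  exact Finset.sum_comm

/-- Telescoping in the first variable. -/
theorem fsum_tele1 (M : ℕ) (F : ℤ → ℤ → ZMod 2) :
    fsum M (fun u v => F (u + 1) v + F u v) = lsum M (F M) + lsum M (F (-(M : ℤ))) := by
  rw [fsum_comm]
  unfold fsum
  rw [← lsum_add]
  apply lsum_congr
  intro u
  exact lsum_tele M (fun v => F v u)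

/-- Telescoping in the second variable. -/
theorem fsum_tele2 (M : ℕ) (F : ℤ → ℤ → ZMod 2) :
    fsum M (fun u v => F u (v + 1) + F u v) =
      lsum M (fun u => F u M) + lsum M (fun u => F u (-(M : ℤ))) := by
  unfold fsum
  rw [← lsum_add]
  apply lsum_congr
  intro u
  exact lsum_tele M (fun v => F u v)

theorem fsum_reflect (M : ℕ) (F : ℤ → ℤ → ZMod 2) :
    fsum M (fun u v => F (-u - 1) (-v - 1)) = fsum M F := by
  unfold fsum
  rw [← lsum_reflect M (fun u => lsum M (fun v => F u v))]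
  apply lsum_congr
  intro u
  exact lsum_reflect M (fun v => F (-u - 1) v)

/-- Green's theorem modulo two. -/
theorem green (M : ℕ) (F g1 g2 : ℤ → ℤ → ZMod 2)
    (h : ∀ u v, F u v = g1 u v + g1 u (v + 1) + g2 (u + 1) v + g2 u v) :
    fsum M F = lsum M (fun u => g1 u M) + lsum M (fun u => g1 u (-(M : ℤ))) +
      (lsum M (g2 M) + lsum M (g2 (-(M : ℤ)))) := by
  rw [← fsum_tele2 M g1, ← fsum_tele1 M g2, ← fsum_add]
  apply fsum_congr
  intro u v
  rw [h u v]
  ring

/-- The sum over the boundary of the box `[-M, M]^3` of a function of the unit squares; `F12 x y z`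
is its value at the square with bottom vertex `(x, y, z)` in the directions `1, 2`. -/
def boxsum (M : ℕ) (F12 F13 F23 : ℤ → ℤ → ℤ → ZMod 2) : ZMod 2 :=
  (fsum M (fun u v => F12 u v M) + fsum M (fun u v => F12 u v (-(M : ℤ)))) +
  (fsum M (fun u v => F13 u M v) + fsum M (fun u v => F13 u (-(M : ℤ)) v)) +
  (fsum M (fun u v => F23 M u v) + fsum M (fun u v => F23 (-(M : ℤ)) u v))

/-- Boundaries of edge functions have sum zero over the box. -/
theorem box_green (M : ℕ) (F12 F13 F23 G1 G2 G3 : ℤ → ℤ → ℤ → ZMod 2)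
    (h12 : ∀ x y z : ℤ, (z = M ∨ z = -(M : ℤ)) →
      F12 x y z = G1 x y z + G1 x (y + 1) z + G2 (x + 1) y z + G2 x y z)
    (h13 : ∀ x y z : ℤ, (y = M ∨ y = -(M : ℤ)) →
      F13 x y z = G1 x y z + G1 x y (z + 1) + G3 (x + 1) y z + G3 x y z)
    (h23 : ∀ x y z : ℤ, (x = M ∨ x = -(M : ℤ)) →
      F23 x y z = G2 x y z + G2 x y (z + 1) + G3 x (y + 1) z + G3 x y z) :
    boxsum M F12 F13 F23 = 0 := by
  unfold boxsum
  rw [green M _ (fun u v => G1 u v M) (fun u v => G2 u v M) (fun u v => h12 u v M (Or.inl rfl)),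
    green M _ (fun u v => G1 u v (-(M : ℤ))) (fun u v => G2 u v (-(M : ℤ)))
      (fun u v => h12 u v _ (Or.inr rfl)),
    green M _ (fun u v => G1 u M v) (fun u v => G3 u M v) (fun u v => h13 u M v (Or.inl rfl)),
    green M _ (fun u v => G1 u (-(M : ℤ)) v) (fun u v => G3 u (-(M : ℤ)) v)
      (fun u v => h13 u _ v (Or.inr rfl)),
    green M _ (fun u v => G2 M u v) (fun u v => G3 M u v) (fun u v => h23 M u v (Or.inl rfl)),
    green M _ (fun u v => G2 (-(M : ℤ)) u v) (fun u v => G3 (-(M : ℤ)) u v)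
      (fun u v => h23 _ u v (Or.inr rfl))]
  generalize lsum M (fun u => G1 u M M) = a1
  generalize lsum M (fun u => G1 u M (-(M : ℤ))) = a2
  generalize lsum M (fun u => G1 u (-(M : ℤ)) M) = a3
  generalize lsum M (fun u => G1 u (-(M : ℤ)) (-(M : ℤ))) = a4
  generalize lsum M (fun v => G2 M v M) = b1
  generalize lsum M (fun v => G2 M v (-(M : ℤ))) = b2
  generalize lsum M (fun v => G2 (-(M : ℤ)) v M) = b3
  generalize lsum M (fun v => G2 (-(M : ℤ)) v (-(M : ℤ))) = b4
  generalize lsum M (fun v => G3 M M v) = c1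
  generalize lsum M (fun v => G3 M (-(M : ℤ)) v) = c2
  generalize lsum M (fun v => G3 (-(M : ℤ)) M v) = c3
  generalize lsum M (fun v => G3 (-(M : ℤ)) (-(M : ℤ)) v) = c4
  linear_combination (a1 + a2 + a3 + a4 + b1 + b2 + b3 + b4 + c1 + c2 + c3 + c4) * two_eq_zero

/-- The sum over the boundary of the box is zero if it is zero for all unit cubes. -/
theorem box_cube (M : ℕ) (F12 F13 F23 : ℤ → ℤ → ℤ → ZMod 2)
    (h : ∀ x y z : ℤ, (F12 x y (z + 1) + F12 x y z) + (F13 x (y + 1) z + F13 x y z) +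
      (F23 (x + 1) y z + F23 x y z) = 0) :
    boxsum M F12 F13 F23 = 0 := by
  have h0 : lsum M (fun x => lsum M (fun y => lsum M (fun z =>
      (F12 x y (z + 1) + F12 x y z) + (F13 x (y + 1) z + F13 x y z) +
      (F23 (x + 1) y z + F23 x y z)))) = 0 := by
    simp [h, lsum]
  have e1 : lsum M (fun x => lsum M (fun y => lsum M (fun z => F12 x y (z + 1) + F12 x y z))) =
      fsum M (fun u v => F12 u v M) + fsum M (fun u v => F12 u v (-(M : ℤ))) := by
    rw [← fsum_add]
    exact lsum_congr fun x => lsum_congr fun y => lsum_tele M (fun z => F12 x y z)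
  have e2 : lsum M (fun x => lsum M (fun y => lsum M (fun z => F13 x (y + 1) z + F13 x y z))) =
      fsum M (fun u v => F13 u M v) + fsum M (fun u v => F13 u (-(M : ℤ)) v) := by
    unfold fsum
    rw [← lsum_add]
    exact lsum_congr fun x => fsum_tele1 M (fun y z => F13 x y z)
  have e3 : lsum M (fun x => lsum M (fun y => lsum M (fun z => F23 (x + 1) y z + F23 x y z))) =
      fsum M (fun y z => F23 M y z) + fsum M (fun y z => F23 (-(M : ℤ)) y z) := by
    have e4 : lsum M (fun x => lsum M (fun y => lsum M (fun z => F23 (x + 1) y z + F23 x y z)))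
        = lsum M (fun x => fsum M (fun y z => F23 (x + 1) y z) + fsum M (fun y z => F23 x y z)) :=
      lsum_congr fun x => fsum_add M (fun y z => F23 (x + 1) y z) (fun y z => F23 x y z)
    rw [e4, lsum_tele M (fun x => fsum M (fun y z => F23 x y z))]
  have h1 : lsum M (fun x => lsum M (fun y => lsum M (fun z =>
      (F12 x y (z + 1) + F12 x y z) + (F13 x (y + 1) z + F13 x y z) +
      (F23 (x + 1) y z + F23 x y z)))) =
      lsum M (fun x => lsum M (fun y => lsum M (fun z => F12 x y (z + 1) + F12 x y z))) +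
          lsum M (fun x => lsum M (fun y => lsum M (fun z => F13 x (y + 1) z + F13 x y z))) +
          lsum M (fun x => lsum M (fun y => lsum M (fun z => F23 (x + 1) y z + F23 x y z))) := by
    simp only [← lsum_add]
  unfold boxsum
  rw [← e1, ← e2, ← e3, ← h1, h0]

end FourCP.Up
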