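import Mathlib

/-!
Local identities for colourings with four colours, modulo two (MP_e6820d_co, upper bound).

The colours are `0, 1, 2, 3`. `tau a b c = 1` iff `a, b, c` are `0, 1, 2` in some order.
-/

namespace FourCP.Up

/-- Indicator of the rainbow triangles with the colours `0, 1, 2`. -/
def tau (a b c : Fin 4) : ZMod 2 :=
  if a ≠ b ∧ b ≠ c ∧ a ≠ c ∧ a ≠ 3 ∧ b ≠ 3 ∧ c ≠ 3 then 1 else 0

/-- Indicator of `{a, a'} = {0, 2}` and `{b, b'} = {1, 3}`. -/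
def sq (a a' b b' : Fin 4) : ZMod 2 :=
  if ((a = 0 ∧ a' = 2) ∨ (a = 2 ∧ a' = 0)) ∧ ((b = 1 ∧ b' = 3) ∨ (b = 3 ∧ b' = 1)) then 1 else 0

/-- Indicator of `{a, a'} = {0, 2}` and `b = 3`. -/
def eps (a a' b : Fin 4) : ZMod 2 :=
  if ((a = 0 ∧ a' = 2) ∨ (a = 2 ∧ a' = 0)) ∧ b = 3 then 1 else 0

/-- Indicator of `b` strictly between `a` and `a'`. -/
def eta (a a' b : Fin 4) : ZMod 2 :=
  if (a < b ∧ b < a') ∨ (a' < b ∧ b < a) then 1 else 0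

/-- Indicator of `a < b`. -/
def zeta (a b : Fin 4) : ZMod 2 := if a < b then 1 else 0

/-- The boundary of a tetrahedron avoiding one colour `e` has an even number of `012` triangles. -/
theorem tet (a b c d e : Fin 4) (ha : a ≠ e) (hb : b ≠ e) (hc : c ≠ e) (hd : d ≠ e) :
    tau a b c + tau a b d + tau a c d + tau b c d = 0 := by
  revert a b c d e
  decide

/-- `a_p ≠ b_q` for `p ≥ q`. -/
theorem loc_eps (a0 a1 a2 b0 b1 : Fin 4) (h00 : a0 ≠ b0) (h10 : a1 ≠ b0) (h11 : a1 ≠ b1)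
    (h20 : a2 ≠ b0) (h21 : a2 ≠ b1) :
    tau a0 a1 a2 + sq a1 a2 b0 b1 = eps a0 a1 b0 + eps a1 a2 b1 + eps a0 a2 b0 := by
  have key : ∀ a0 a1 a2 b0 b1 : Fin 4, (a0 ≠ b0 ∧ a1 ≠ b0 ∧ a1 ≠ b1 ∧ a2 ≠ b0 ∧ a2 ≠ b1) →
      tau a0 a1 a2 + sq a1 a2 b0 b1 = eps a0 a1 b0 + eps a1 a2 b1 + eps a0 a2 b0 := by
    decide
  exact key a0 a1 a2 b0 b1 ⟨h00, h10, h11, h20, h21⟩

theorem loc_eta (a0 a1 a2 b0 b1 : Fin 4) (h00 : a0 ≠ b0) (h10 : a1 ≠ b0) (h11 : a1 ≠ b1)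
    (h20 : a2 ≠ b0) (h21 : a2 ≠ b1) :
    sq a1 a2 b0 b1 + sq b0 b1 a1 a2 = eta a0 a1 b0 + eta a1 a2 b1 + eta a0 a2 b0 := by
  have key : ∀ a0 a1 a2 b0 b1 : Fin 4, (a0 ≠ b0 ∧ a1 ≠ b0 ∧ a1 ≠ b1 ∧ a2 ≠ b0 ∧ a2 ≠ b1) →
      sq a1 a2 b0 b1 + sq b0 b1 a1 a2 = eta a0 a1 b0 + eta a1 a2 b1 + eta a0 a2 b0 := by
    decide
  exact key a0 a1 a2 b0 b1 ⟨h00, h10, h11, h20, h21⟩

theorem loc_zeta (a0 a1 b0 b1 : Fin 4) (h00 : a0 ≠ b0) (h10 : a1 ≠ b0) (h11 : a1 ≠ b1) :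
    eta a0 a1 b0 + eta b1 b0 a1 = zeta a0 b0 + zeta a1 b1 := by
  revert a0 a1 b0 b1
  decide

theorem zeta_swap (a b : Fin 4) (h : a ≠ b) : zeta a b + zeta b a = 1 := by
  revert a b
  decide

theorem tau_comm12 (a b c : Fin 4) : tau a b c = tau b a c := by
  revert a b c
  decide

theorem tau_comm23 (a b c : Fin 4) : tau a b c = tau a c b := by
  revert a b c
  decide

theorem two_eq_zero : (2 : ZMod 2) = 0 := by decide

/-- The prism identity: a square `b, i, k, t` (bottom, two middle vertices, top) and its copy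
`b', i', k', t'` one level higher. -/
theorem prism (b i k t b' i' k' t' e1 e2 e3 : Fin 4)
    (hb1 : b ≠ e1) (hi1 : i ≠ e1) (hk1 : k ≠ e1) (ht1 : t ≠ e1) (ht'1 : t' ≠ e1)
    (hb2 : b ≠ e2) (hi2 : i ≠ e2) (hk2 : k ≠ e2) (hi'2 : i' ≠ e2) (hk'2 : k' ≠ e2) (ht'2 : t' ≠ e2)
    (hb3 : b ≠ e3) (hb'3 : b' ≠ e3) (hi'3 : i' ≠ e3) (hk'3 : k' ≠ e3) (ht'3 : t' ≠ e3) :
    (tau b i t + tau b k t) + (tau b' i' t' + tau b' k' t') =
      (tau b i i' + tau b b' i') + (tau k t t' + tau k k' t') + (tau i t t' + tau i i' t') +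
        (tau b k k' + tau b b' k') := by
  have h1 := tet b i t t' e1 hb1 hi1 ht1 ht'1
  have h2 := tet b k t t' e1 hb1 hk1 ht1 ht'1
  have h3 := tet b i i' t' e2 hb2 hi2 hi'2 ht'2
  have h4 := tet b k k' t' e2 hb2 hk2 hk'2 ht'2
  have h5 := tet b b' i' t' e3 hb3 hb'3 hi'3 ht'3
  have h6 := tet b b' k' t' e3 hb3 hb'3 hk'3 ht'3
  linear_combination h1 + h2 + h3 + h4 + h5 + h6 -
    (tau b i i' + tau b b' i' + (tau k t t' + tau k k' t') + (tau i t t' + tau i i' t') +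
        (tau b k k' + tau b b' k') + tau b i t' + tau b k t' + tau b t t' + tau b b' t' +
        tau b i' t' + tau b k' t') * two_eq_zero

/-- The cube identity: `o` bottom, `x, y, z` the neighbours of the bottom, `p = xy`, `q = xz`,
`r = yz` the neighbours of the top, `t` the top. -/
theorem cube (o x y z p q r t e0 e1 e2 e3 e4 : Fin 4)
    (ho : o ≠ e0) (hx : x ≠ e0) (hy : y ≠ e0) (hz : z ≠ e0) (hp : p ≠ e0) (hq : q ≠ e0)
    (hr : r ≠ e0)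
    (hp1 : p ≠ e1) (hq1 : q ≠ e1) (hr1 : r ≠ e1) (ht1 : t ≠ e1)
    (hx2 : x ≠ e2) (hp2 : p ≠ e2) (hq2 : q ≠ e2) (ht2 : t ≠ e2)
    (hy3 : y ≠ e3) (hp3 : p ≠ e3) (hr3 : r ≠ e3) (ht3 : t ≠ e3)
    (hz4 : z ≠ e4) (hq4 : q ≠ e4) (hr4 : r ≠ e4) (ht4 : t ≠ e4) :
    (tau z q t + tau z r t) + (tau o x p + tau o y p) + (tau y p t + tau y r t) +
      (tau o x q + tau o z q) + (tau x p t + tau x q t) + (tau o y r + tau o z r) = 0 := by
  have h1 := tet p q r t e1 hp1 hq1 hr1 ht1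
  have h2 := tet x p q t e2 hx2 hp2 hq2 ht2
  have h3 := tet y p r t e3 hy3 hp3 hr3 ht3
  have h4 := tet z q r t e4 hz4 hq4 hr4 ht4
  have h5 := tet o x p q e0 ho hx hp hq
  have h6 := tet o y p r e0 ho hy hp hr
  have h7 := tet o z q r e0 ho hz hq hr
  have h8 := tet o p q r e0 ho hp hq hr
  linear_combination h1 + h2 + h3 + h4 + h5 + h6 + h7 + h8 -
    (tau p q t + tau p r t + tau q r t + tau p q r + tau x p q + tau y p r + tau z q r +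
      tau o p q + tau o p r + tau o q r) * two_eq_zero

end FourCP.Up
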