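import Pool.Agent.Lib.MP_e6820d_co.UpGrid

/-!
No colouring of `ℤ^4` with four colours avoids, near infinity, the twelve reflections of the
sandwich (MP_e6820d_co, upper bound).
-/

namespace FourCP.Up

/-- The twelve differences. -/
def Adj (c0 c1 c2 c3 : ℤ) : Prop :=
  (c0 = 0 ∧ (0 ≤ c1 ∧ c1 ≤ 1) ∧ (0 ≤ c2 ∧ c2 ≤ 1) ∧ (0 ≤ c3 ∧ c3 ≤ 1) ∧ c1 + c2 + c3 ≤ 2) ∨
  (c0 = 1 ∧ (0 ≤ c1 ∧ c1 ≤ 1) ∧ (0 ≤ c2 ∧ c2 ≤ 1) ∧ (0 ≤ c3 ∧ c3 ≤ 1) ∧ 2 ≤ c1 + c2 + c3) ∨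
  (c0 = -1 ∧ c1 = 0 ∧ c2 = 0 ∧ c3 = 0)

/-- The condition on the colouring near infinity. -/
def Avoids (α : ℤ → ℤ → ℤ → ℤ → Fin 4) (R : ℕ) : Prop :=
  ∀ h x y z h' x' y' z' : ℤ,
    ((R : ℤ) < |h| ∨ (R : ℤ) < |x| ∨ (R : ℤ) < |y| ∨ (R : ℤ) < |z|) →
    Adj (h' - h) (x' - x) (y' - y) (z' - z) → α h' x' y' z' ≠ α (-h) (-x) (-y) (-z)

theorem boxsum_add (M : ℕ) (F12 F13 F23 F12' F13' F23' : ℤ → ℤ → ℤ → ZMod 2) :
    boxsum M (fun x y z => F12 x y z + F12' x y z) (fun x y z => F13 x y z + F13' x y z)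
      (fun x y z => F23 x y z + F23' x y z) = boxsum M F12 F13 F23 + boxsum M F12' F13' F23' := by
  unfold boxsum
  rw [fsum_add, fsum_add, fsum_add, fsum_add, fsum_add, fsum_add]
  ring

theorem eq_of_add_eq_zero {a b : ZMod 2} (h : a + b = 0) : a = b := by
  linear_combination h - b * two_eq_zero

section

variable (α : ℤ → ℤ → ℤ → ℤ → Fin 4)

/-- Number of `012` triangles in the square in the directions `1, 2`. -/
def A12 (h x y z : ℤ) : ZMod 2 :=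
  tau (α h x y z) (α h (x + 1) y z) (α h (x + 1) (y + 1) z) +
    tau (α h x y z) (α h x (y + 1) z) (α h (x + 1) (y + 1) z)

def A13 (h x y z : ℤ) : ZMod 2 :=
  tau (α h x y z) (α h (x + 1) y z) (α h (x + 1) y (z + 1)) +
    tau (α h x y z) (α h x y (z + 1)) (α h (x + 1) y (z + 1))

def A23 (h x y z : ℤ) : ZMod 2 :=
  tau (α h x y z) (α h x (y + 1) z) (α h x (y + 1) (z + 1)) +
    tau (α h x y z) (α h x y (z + 1)) (α h x (y + 1) (z + 1))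

/-- The number of `012` triangles on the boundary of the box in level `h`. -/
def deg (M : ℕ) (h : ℤ) : ZMod 2 := boxsum M (A12 α h) (A13 α h) (A23 α h)

end

/-- Moving one level up. -/
theorem deg_succ {α : ℤ → ℤ → ℤ → ℤ → Fin 4} {R : ℕ} (hα : Avoids α R) {M : ℕ} (hM : R + 2 ≤ M)
    (h : ℤ) : deg α M h = deg α M (h + 1) := by
  apply eq_of_add_eq_zero
  unfold deg
  rw [← boxsum_add]
  apply box_green M _ _ _
    (fun x y z => tau (α h x y z) (α h (x + 1) y z) (α (h + 1) (x + 1) y z) +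
      tau (α h x y z) (α (h + 1) x y z) (α (h + 1) (x + 1) y z))
    (fun x y z => tau (α h x y z) (α h x (y + 1) z) (α (h + 1) x (y + 1) z) +
      tau (α h x y z) (α (h + 1) x y z) (α (h + 1) x (y + 1) z))
    (fun x y z => tau (α h x y z) (α h x y (z + 1)) (α (h + 1) x y (z + 1)) +
      tau (α h x y z) (α (h + 1) x y z) (α (h + 1) x y (z + 1)))
  · intro x y z hz
    have hz1 : (R : ℤ) < |z| := by rcases hz with rfl | rfl <;> rw [lt_abs] <;> omega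
    have hz2 : (R : ℤ) < |z - 1| := by rcases hz with rfl | rfl <;> rw [lt_abs] <;> omega
    have g1 := fun h' x' y' z' => hα h x y z h' x' y' z' (Or.inr (Or.inr (Or.inr hz1)))
    have g2 := fun h' x' y' z' => hα h x y (z - 1) h' x' y' z' (Or.inr (Or.inr (Or.inr hz2)))
    have g3 := fun h' x' y' z' => hα (h + 1) x y z h' x' y' z' (Or.inr (Or.inr (Or.inr hz1)))
    unfold A12
    apply prism _ _ _ _ _ _ _ _ _ _ _ (g1 _ _ _ _ ?_) (g1 _ _ _ _ ?_) (g1 _ _ _ _ ?_)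
      (g1 _ _ _ _ ?_) (g1 _ _ _ _ ?_) (g2 _ _ _ _ ?_) (g2 _ _ _ _ ?_) (g2 _ _ _ _ ?_)
      (g2 _ _ _ _ ?_) (g2 _ _ _ _ ?_) (g2 _ _ _ _ ?_) (g3 _ _ _ _ ?_) (g3 _ _ _ _ ?_)
      (g3 _ _ _ _ ?_) (g3 _ _ _ _ ?_) (g3 _ _ _ _ ?_) <;> unfold Adj <;> omega
  · intro x y z hz
    have hz1 : (R : ℤ) < |y| := by rcases hz with rfl | rfl <;> rw [lt_abs] <;> omega
    have hz2 : (R : ℤ) < |y - 1| := by rcases hz with rfl | rfl <;> rw [lt_abs] <;> omega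
    have g1 := fun h' x' y' z' => hα h x y z h' x' y' z' (Or.inr (Or.inr (Or.inl hz1)))
    have g2 := fun h' x' y' z' => hα h x (y - 1) z h' x' y' z' (Or.inr (Or.inr (Or.inl hz2)))
    have g3 := fun h' x' y' z' => hα (h + 1) x y z h' x' y' z' (Or.inr (Or.inr (Or.inl hz1)))
    unfold A13
    apply prism _ _ _ _ _ _ _ _ _ _ _ (g1 _ _ _ _ ?_) (g1 _ _ _ _ ?_) (g1 _ _ _ _ ?_)
      (g1 _ _ _ _ ?_) (g1 _ _ _ _ ?_) (g2 _ _ _ _ ?_) (g2 _ _ _ _ ?_) (g2 _ _ _ _ ?_)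
      (g2 _ _ _ _ ?_) (g2 _ _ _ _ ?_) (g2 _ _ _ _ ?_) (g3 _ _ _ _ ?_) (g3 _ _ _ _ ?_)
      (g3 _ _ _ _ ?_) (g3 _ _ _ _ ?_) (g3 _ _ _ _ ?_) <;> unfold Adj <;> omega
  · intro x y z hz
    have hz1 : (R : ℤ) < |x| := by rcases hz with rfl | rfl <;> rw [lt_abs] <;> omega
    have hz2 : (R : ℤ) < |x - 1| := by rcases hz with rfl | rfl <;> rw [lt_abs] <;> omega
    have g1 := fun h' x' y' z' => hα h x y z h' x' y' z' (Or.inr (Or.inl hz1))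
    have g2 := fun h' x' y' z' => hα h (x - 1) y z h' x' y' z' (Or.inr (Or.inl hz2))
    have g3 := fun h' x' y' z' => hα (h + 1) x y z h' x' y' z' (Or.inr (Or.inl hz1))
    unfold A23
    apply prism _ _ _ _ _ _ _ _ _ _ _ (g1 _ _ _ _ ?_) (g1 _ _ _ _ ?_) (g1 _ _ _ _ ?_)
      (g1 _ _ _ _ ?_) (g1 _ _ _ _ ?_) (g2 _ _ _ _ ?_) (g2 _ _ _ _ ?_) (g2 _ _ _ _ ?_)
      (g2 _ _ _ _ ?_) (g2 _ _ _ _ ?_) (g2 _ _ _ _ ?_) (g3 _ _ _ _ ?_) (g3 _ _ _ _ ?_)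
      (g3 _ _ _ _ ?_) (g3 _ _ _ _ ?_) (g3 _ _ _ _ ?_) <;> unfold Adj <;> omega

/-- In high levels the degree vanishes. -/
theorem deg_high {α : ℤ → ℤ → ℤ → ℤ → Fin 4} {R : ℕ} (hα : Avoids α R) (M : ℕ) {h : ℤ}
    (hh : (R : ℤ) + 2 ≤ h) : deg α M h = 0 := by
  unfold deg
  apply box_cube
  intro x y z
  have h1 : (R : ℤ) < |h| := by rw [lt_abs]; omega
  have h2 : (R : ℤ) < |h - 1| := by rw [lt_abs]; omega
  have g0 := fun h' x' y' z' => hα h x y z h' x' y' z' (Or.inl h1)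
  have g1 := fun h' x' y' z' => hα (h - 1) x y z h' x' y' z' (Or.inl h2)
  have g2 := fun h' x' y' z' => hα h (x + 1) y z h' x' y' z' (Or.inl h1)
  have g3 := fun h' x' y' z' => hα h x (y + 1) z h' x' y' z' (Or.inl h1)
  have g4 := fun h' x' y' z' => hα h x y (z + 1) h' x' y' z' (Or.inl h1)
  have key := cube (α h x y z) (α h (x + 1) y z) (α h x (y + 1) z) (α h x y (z + 1))
    (α h (x + 1) (y + 1) z) (α h (x + 1) y (z + 1)) (α h x (y + 1) (z + 1))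
    (α h (x + 1) (y + 1) (z + 1)) _ _ _ _ _
    (g0 _ _ _ _ (by unfold Adj; omega)) (g0 _ _ _ _ (by unfold Adj; omega))
    (g0 _ _ _ _ (by unfold Adj; omega)) (g0 _ _ _ _ (by unfold Adj; omega))
    (g0 _ _ _ _ (by unfold Adj; omega)) (g0 _ _ _ _ (by unfold Adj; omega))
    (g0 _ _ _ _ (by unfold Adj; omega))
    (g1 _ _ _ _ (by unfold Adj; omega)) (g1 _ _ _ _ (by unfold Adj; omega))
    (g1 _ _ _ _ (by unfold Adj; omega)) (g1 _ _ _ _ (by unfold Adj; omega))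
    (g2 _ _ _ _ (by unfold Adj; omega)) (g2 _ _ _ _ (by unfold Adj; omega))
    (g2 _ _ _ _ (by unfold Adj; omega)) (g2 _ _ _ _ (by unfold Adj; omega))
    (g3 _ _ _ _ (by unfold Adj; omega)) (g3 _ _ _ _ (by unfold Adj; omega))
    (g3 _ _ _ _ (by unfold Adj; omega)) (g3 _ _ _ _ (by unfold Adj; omega))
    (g4 _ _ _ _ (by unfold Adj; omega)) (g4 _ _ _ _ (by unfold Adj; omega))
    (g4 _ _ _ _ (by unfold Adj; omega)) (g4 _ _ _ _ (by unfold Adj; omega))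
  unfold A12 A13 A23
  linear_combination key

end FourCP.Up
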