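import Pool.Agent.Lib.MP_e6820d_co.UpMain

/-!
The degree in level zero is odd, by symmetry (MP_e6820d_co, upper bound).
-/

namespace FourCP.Up

theorem sq_comm (a a' b b' : Fin 4) : sq a a' b b' = sq a' a b' b := by
  revert a a' b b'
  decide

section

variable (a b : ℤ → ℤ → ℤ → Fin 4)

/-- The alternating count on the square in the directions `1, 2`. -/
def S12 (x y z : ℤ) : ZMod 2 :=
  sq (a (x + 1) y z) (a (x + 1) (y + 1) z) (b x y z) (b (x + 1) y z) +
    sq (a x (y + 1) z) (a (x + 1) (y + 1) z) (b x y z) (b x (y + 1) z)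

def S13 (x y z : ℤ) : ZMod 2 :=
  sq (a (x + 1) y z) (a (x + 1) y (z + 1)) (b x y z) (b (x + 1) y z) +
    sq (a x y (z + 1)) (a (x + 1) y (z + 1)) (b x y z) (b x y (z + 1))

def S23 (x y z : ℤ) : ZMod 2 :=
  sq (a x (y + 1) z) (a x (y + 1) (z + 1)) (b x y z) (b x (y + 1) z) +
    sq (a x y (z + 1)) (a x (y + 1) (z + 1)) (b x y z) (b x y (z + 1))

/-- The opposite alternating count. -/
def T12 (x y z : ℤ) : ZMod 2 :=
  sq (b x y z) (b (x + 1) y z) (a (x + 1) y z) (a (x + 1) (y + 1) z) +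
    sq (b x y z) (b x (y + 1) z) (a x (y + 1) z) (a (x + 1) (y + 1) z)

def T13 (x y z : ℤ) : ZMod 2 :=
  sq (b x y z) (b (x + 1) y z) (a (x + 1) y z) (a (x + 1) y (z + 1)) +
    sq (b x y z) (b x y (z + 1)) (a x y (z + 1)) (a (x + 1) y (z + 1))

def T23 (x y z : ℤ) : ZMod 2 :=
  sq (b x y z) (b x (y + 1) z) (a x (y + 1) z) (a x (y + 1) (z + 1)) +
    sq (b x y z) (b x y (z + 1)) (a x y (z + 1)) (a x (y + 1) (z + 1))

def N1 (x y z : ℤ) : ZMod 2 := eta (a x y z) (a (x + 1) y z) (b x y z)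

def N2 (x y z : ℤ) : ZMod 2 := eta (a x y z) (a x (y + 1) z) (b x y z)

def N3 (x y z : ℤ) : ZMod 2 := eta (a x y z) (a x y (z + 1)) (b x y z)

def E1 (x y z : ℤ) : ZMod 2 := eps (a x y z) (a (x + 1) y z) (b x y z)

def E2 (x y z : ℤ) : ZMod 2 := eps (a x y z) (a x (y + 1) z) (b x y z)

def E3 (x y z : ℤ) : ZMod 2 := eps (a x y z) (a x y (z + 1)) (b x y z)

def B12 (x y z : ℤ) : ZMod 2 :=
  tau (a x y z) (a (x + 1) y z) (a (x + 1) (y + 1) z) +
    tau (a x y z) (a x (y + 1) z) (a (x + 1) (y + 1) z)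

def B13 (x y z : ℤ) : ZMod 2 :=
  tau (a x y z) (a (x + 1) y z) (a (x + 1) y (z + 1)) +
    tau (a x y z) (a x y (z + 1)) (a (x + 1) y (z + 1))

def B23 (x y z : ℤ) : ZMod 2 :=
  tau (a x y z) (a x (y + 1) z) (a x (y + 1) (z + 1)) +
    tau (a x y z) (a x y (z + 1)) (a x (y + 1) (z + 1))

end

/-- `a v ≠ b w` for `w` on the boundary of the box and `v - w` in the cube without its top. -/
def Prop0 (a b : ℤ → ℤ → ℤ → Fin 4) (M : ℕ) : Prop :=
  ∀ x y z x' y' z' : ℤ, (x = M ∨ x = -(M : ℤ) ∨ y = M ∨ y = -(M : ℤ) ∨ z = M ∨ z = -(M : ℤ)) →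
    ((0 ≤ x' - x ∧ x' - x ≤ 1) ∧ (0 ≤ y' - y ∧ y' - y ≤ 1) ∧ (0 ≤ z' - z ∧ z' - z ≤ 1) ∧
      (x' - x) + (y' - y) + (z' - z) ≤ 2) → a x' y' z' ≠ b x y z

/-- The identity between triangles and alternating squares on one unit square. -/
theorem square_eps (b i k t b' i' k' : Fin 4) (hb : b ≠ b') (hib : i ≠ b') (hii : i ≠ i')
    (hkb : k ≠ b') (hkk : k ≠ k') (htb : t ≠ b') (hti : t ≠ i') (htk : t ≠ k') :
    (tau b i t + tau b k t) + (sq i t b' i' + sq k t b' k') =
      eps b i b' + eps k t k' + eps i t i' + eps b k b' := by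
  have h1 := loc_eps b i t b' i' hb hib hii htb hti
  have h2 := loc_eps b k t b' k' hb hkb hkk htb htk
  linear_combination h1 + h2 + eps b t b' * two_eq_zero

theorem square_eta (b i k t b' i' k' : Fin 4) (hb : b ≠ b') (hib : i ≠ b') (hii : i ≠ i')
    (hkb : k ≠ b') (hkk : k ≠ k') (htb : t ≠ b') (hti : t ≠ i') (htk : t ≠ k') :
    (sq i t b' i' + sq k t b' k') + (sq b' i' i t + sq b' k' k t) =
      eta b i b' + eta k t k' + eta i t i' + eta b k b' := by
  have h1 := loc_eta b i t b' i' hb hib hii htb hti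
  have h2 := loc_eta b k t b' k' hb hkb hkk htb htk
  linear_combination h1 + h2 + eta b t b' * two_eq_zero

theorem boxB_eq_boxS {a b : ℤ → ℤ → ℤ → Fin 4} {M : ℕ} (h : Prop0 a b M) :
    boxsum M (B12 a) (B13 a) (B23 a) = boxsum M (S12 a b) (S13 a b) (S23 a b) := by
  apply eq_of_add_eq_zero
  rw [← boxsum_add]
  apply box_green M _ _ _ (E1 a b) (E2 a b) (E3 a b)
  · intro x y z hz
    unfold B12 S12 E1 E2
    apply square_eps <;> apply h <;> omega
  · intro x y z hz
    unfold B13 S13 E1 E3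
    apply square_eps <;> apply h <;> omega
  · intro x y z hz
    unfold B23 S23 E2 E3
    apply square_eps <;> apply h <;> omega

theorem odd_S {a b : ℤ → ℤ → ℤ → Fin 4} {M : ℕ} (h : Prop0 a b M)
    (hab : ∀ x y z, a (-x) (-y) (-z) = b x y z) (hba : ∀ x y z, b (-x) (-y) (-z) = a x y z) :
    boxsum M (S12 a b) (S13 a b) (S23 a b) = 1 := by
  -- the lower faces are the reflections of the upper faces
  have r12 : fsum M (fun u v => S12 a b u v (-(M : ℤ))) = fsum M (fun u v => T12 a b u v M) := by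
    rw [← fsum_reflect]
    apply fsum_congr
    intro u v
    unfold S12 T12
    have e1 : a (-u - 1 + 1) (-v - 1) (-(M : ℤ)) = b u (v + 1) M := by
      rw [← hab]; congr 1 <;> ring
    have e2 : a (-u - 1 + 1) (-v - 1 + 1) (-(M : ℤ)) = b u v M := by
      rw [← hab]; congr 1 <;> ring
    have e3 : b (-u - 1) (-v - 1) (-(M : ℤ)) = a (u + 1) (v + 1) M := by
      rw [← hba]; congr 1 <;> ring
    have e4 : b (-u - 1 + 1) (-v - 1) (-(M : ℤ)) = a u (v + 1) M := by
      rw [← hba]; congr 1 <;> ring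
    have e5 : a (-u - 1) (-v - 1 + 1) (-(M : ℤ)) = b (u + 1) v M := by
      rw [← hab]; congr 1 <;> ring
    have e6 : b (-u - 1) (-v - 1 + 1) (-(M : ℤ)) = a (u + 1) v M := by
      rw [← hba]; congr 1 <;> ring
    rw [e1, e2, e3, e4, e5, e6, sq_comm (b u (v + 1) M), sq_comm (b (u + 1) v M), add_comm]
  have r13 : fsum M (fun u v => S13 a b u (-(M : ℤ)) v) = fsum M (fun u v => T13 a b u M v) := by
    rw [← fsum_reflect]
    apply fsum_congr
    intro u v
    unfold S13 T13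
    have e1 : a (-u - 1 + 1) (-(M : ℤ)) (-v - 1) = b u M (v + 1) := by
      rw [← hab]; congr 1 <;> ring
    have e2 : a (-u - 1 + 1) (-(M : ℤ)) (-v - 1 + 1) = b u M v := by
      rw [← hab]; congr 1 <;> ring
    have e3 : b (-u - 1) (-(M : ℤ)) (-v - 1) = a (u + 1) M (v + 1) := by
      rw [← hba]; congr 1 <;> ring
    have e4 : b (-u - 1 + 1) (-(M : ℤ)) (-v - 1) = a u M (v + 1) := by
      rw [← hba]; congr 1 <;> ring
    have e5 : a (-u - 1) (-(M : ℤ)) (-v - 1 + 1) = b (u + 1) M v := by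
      rw [← hab]; congr 1 <;> ring
    have e6 : b (-u - 1) (-(M : ℤ)) (-v - 1 + 1) = a (u + 1) M v := by
      rw [← hba]; congr 1 <;> ring
    rw [e1, e2, e3, e4, e5, e6, sq_comm (b u M (v + 1)), sq_comm (b (u + 1) M v), add_comm]
  have r23 : fsum M (fun u v => S23 a b (-(M : ℤ)) u v) = fsum M (fun u v => T23 a b M u v) := by
    rw [← fsum_reflect]
    apply fsum_congr
    intro u v
    unfold S23 T23
    have e1 : a (-(M : ℤ)) (-u - 1 + 1) (-v - 1) = b M u (v + 1) := by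
      rw [← hab]; congr 1 <;> ring
    have e2 : a (-(M : ℤ)) (-u - 1 + 1) (-v - 1 + 1) = b M u v := by
      rw [← hab]; congr 1 <;> ring
    have e3 : b (-(M : ℤ)) (-u - 1) (-v - 1) = a M (u + 1) (v + 1) := by
      rw [← hba]; congr 1 <;> ring
    have e4 : b (-(M : ℤ)) (-u - 1 + 1) (-v - 1) = a M u (v + 1) := by
      rw [← hba]; congr 1 <;> ring
    have e5 : a (-(M : ℤ)) (-u - 1) (-v - 1 + 1) = b M (u + 1) v := by
      rw [← hab]; congr 1 <;> ring
    have e6 : b (-(M : ℤ)) (-u - 1) (-v - 1 + 1) = a M (u + 1) v := by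
      rw [← hba]; congr 1 <;> ring
    rw [e1, e2, e3, e4, e5, e6, sq_comm (b M u (v + 1)), sq_comm (b M (u + 1) v), add_comm]
  -- Green on the three upper faces
  have g12 : fsum M (fun u v => S12 a b u v M) + fsum M (fun u v => T12 a b u v M) =
      lsum M (fun u => N1 a b u M M) + lsum M (fun u => N1 a b u (-(M : ℤ)) M) +
      (lsum M (fun v => N2 a b M v M) + lsum M (fun v => N2 a b (-(M : ℤ)) v M)) := by
    rw [← fsum_add]
    apply green M _ (fun u v => N1 a b u v M) (fun u v => N2 a b u v M)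
    intro u v
    unfold S12 T12 N1 N2
    apply square_eta <;> apply h <;> omega
  have g13 : fsum M (fun u v => S13 a b u M v) + fsum M (fun u v => T13 a b u M v) =
      lsum M (fun u => N1 a b u M M) + lsum M (fun u => N1 a b u M (-(M : ℤ))) +
      (lsum M (fun v => N3 a b M M v) + lsum M (fun v => N3 a b (-(M : ℤ)) M v)) := by
    rw [← fsum_add]
    apply green M _ (fun u v => N1 a b u M v) (fun u v => N3 a b u M v)
    intro u v
    unfold S13 T13 N1 N3
    apply square_eta <;> apply h <;> omega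
  have g23 : fsum M (fun u v => S23 a b M u v) + fsum M (fun u v => T23 a b M u v) =
      lsum M (fun u => N2 a b M u M) + lsum M (fun u => N2 a b M u (-(M : ℤ))) +
      (lsum M (fun v => N3 a b M M v) + lsum M (fun v => N3 a b M (-(M : ℤ)) v)) := by
    rw [← fsum_add]
    apply green M _ (fun u v => N2 a b M u v) (fun u v => N3 a b M u v)
    intro u v
    unfold S23 T23 N2 N3
    apply square_eta <;> apply h <;> omega
  -- the three pairs of opposite box edges
  have l1 : lsum M (fun u => N1 a b u (-(M : ℤ)) M) + lsum M (fun u => N1 a b u M (-(M : ℤ))) =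
      zeta (a M (-(M : ℤ)) M) (b M (-(M : ℤ)) M) +
        zeta (a (-(M : ℤ)) (-(M : ℤ)) M) (b (-(M : ℤ)) (-(M : ℤ)) M) := by
    rw [← lsum_reflect M (fun u => N1 a b u M (-(M : ℤ))), ← lsum_add,
      ← lsum_tele M (fun u => zeta (a u (-(M : ℤ)) M) (b u (-(M : ℤ)) M))]
    apply lsum_congr
    intro u
    unfold N1
    have e1 : a (-u - 1) M (-(M : ℤ)) = b (u + 1) (-(M : ℤ)) M := by
      rw [← hab]; congr 1 <;> ring
    have e2 : a (-u - 1 + 1) M (-(M : ℤ)) = b u (-(M : ℤ)) M := by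
      rw [← hab]; congr 1 <;> ring
    have e3 : b (-u - 1) M (-(M : ℤ)) = a (u + 1) (-(M : ℤ)) M := by
      rw [← hba]; congr 1 <;> ring
    rw [e1, e2, e3, add_comm (zeta _ _)]
    apply loc_zeta <;> apply h <;> omega
  have l2 : lsum M (fun u => N2 a b (-(M : ℤ)) u M) + lsum M (fun u => N2 a b M u (-(M : ℤ))) =
      zeta (a (-(M : ℤ)) M M) (b (-(M : ℤ)) M M) +
        zeta (a (-(M : ℤ)) (-(M : ℤ)) M) (b (-(M : ℤ)) (-(M : ℤ)) M) := by
    rw [← lsum_reflect M (fun u => N2 a b M u (-(M : ℤ))), ← lsum_add,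
      ← lsum_tele M (fun u => zeta (a (-(M : ℤ)) u M) (b (-(M : ℤ)) u M))]
    apply lsum_congr
    intro u
    unfold N2
    have e1 : a M (-u - 1) (-(M : ℤ)) = b (-(M : ℤ)) (u + 1) M := by
      rw [← hab]; congr 1 <;> ring
    have e2 : a M (-u - 1 + 1) (-(M : ℤ)) = b (-(M : ℤ)) u M := by
      rw [← hab]; congr 1 <;> ring
    have e3 : b M (-u - 1) (-(M : ℤ)) = a (-(M : ℤ)) (u + 1) M := by
      rw [← hba]; congr 1 <;> ring
    rw [e1, e2, e3, add_comm (zeta _ _)]
    apply loc_zeta <;> apply h <;> omega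
  have l3 : lsum M (fun u => N3 a b (-(M : ℤ)) M u) + lsum M (fun u => N3 a b M (-(M : ℤ)) u) =
      zeta (a (-(M : ℤ)) M M) (b (-(M : ℤ)) M M) +
        zeta (a (-(M : ℤ)) M (-(M : ℤ))) (b (-(M : ℤ)) M (-(M : ℤ))) := by
    rw [← lsum_reflect M (fun u => N3 a b M (-(M : ℤ)) u), ← lsum_add,
      ← lsum_tele M (fun u => zeta (a (-(M : ℤ)) M u) (b (-(M : ℤ)) M u))]
    apply lsum_congr
    intro u
    unfold N3
    have e1 : a M (-(M : ℤ)) (-u - 1) = b (-(M : ℤ)) M (u + 1) := by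
      rw [← hab]; congr 1 <;> ring
    have e2 : a M (-(M : ℤ)) (-u - 1 + 1) = b (-(M : ℤ)) M u := by
      rw [← hab]; congr 1 <;> ring
    have e3 : b M (-(M : ℤ)) (-u - 1) = a (-(M : ℤ)) M (u + 1) := by
      rw [← hba]; congr 1 <;> ring
    rw [e1, e2, e3, add_comm (zeta _ _)]
    apply loc_zeta <;> apply h <;> omega
  -- the two ends
  have hz : zeta (a M (-(M : ℤ)) M) (b M (-(M : ℤ)) M) +
      zeta (a (-(M : ℤ)) M (-(M : ℤ))) (b (-(M : ℤ)) M (-(M : ℤ))) = 1 := by
    have e1 : a (-(M : ℤ)) M (-(M : ℤ)) = b M (-(M : ℤ)) M := by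
      rw [← hab]; congr 1; ring
    have e2 : b (-(M : ℤ)) M (-(M : ℤ)) = a M (-(M : ℤ)) M := by
      rw [← hba]; congr 1; ring
    rw [e1, e2]
    apply zeta_swap
    apply h <;> omega
  unfold boxsum
  rw [r12, r13, r23]
  linear_combination g12 + g13 + g23 + l1 + l2 + l3 + hz +
    (lsum M (fun u => N1 a b u M M) + lsum M (fun v => N2 a b M v M) +
      lsum M (fun v => N3 a b M M v) +
      zeta (a (-(M : ℤ)) (-(M : ℤ)) M) (b (-(M : ℤ)) (-(M : ℤ)) M) +
      zeta (a (-(M : ℤ)) M M) (b (-(M : ℤ)) M M)) * two_eq_zero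

/-- No colouring of `ℤ^4` with four colours avoids the twelve reflections near infinity. -/
theorem not_avoids (α : ℤ → ℤ → ℤ → ℤ → Fin 4) (R : ℕ) : ¬ Avoids α R := by
  intro hα
  set M : ℕ := R + 2 with hM
  have h0 : Prop0 (α 0) (fun x y z => α 0 (-x) (-y) (-z)) M := by
    intro x y z x' y' z' hfar hadj
    have h1 := hα 0 x y z 0 x' y' z' ?_ ?_
    · simpa using h1
    · rcases hfar with h | h | h | h | h | h
      · right; left; rw [h, lt_abs]; omega
      · right; left; rw [h, lt_abs]; omega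
      · right; right; left; rw [h, lt_abs]; omega
      · right; right; left; rw [h, lt_abs]; omega
      · right; right; right; rw [h, lt_abs]; omega
      · right; right; right; rw [h, lt_abs]; omega
    · unfold Adj
      omega
  have h1 : deg α M 0 = 1 := by
    have h2 := boxB_eq_boxS h0
    have h3 := odd_S h0 (fun x y z => rfl) (fun x y z => by simp)
    rw [h3] at h2
    exact h2
  have h4 : ∀ n : ℕ, deg α M n = 1 := by
    intro n
    induction n with
    | zero => simpa using h1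
    | succ n ih =>
      rw [← ih, Nat.cast_succ]
      exact (deg_succ hα le_rfl n).symm
  have h5 := h4 (R + 2)
  rw [deg_high hα M (by push_cast; exact le_rfl)] at h5
  exact absurd h5 (by decide)

end FourCP.Up
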